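import Pool.Agent.Lib.MP_6152be_co.CX.PP

set_option autoImplicit false

/-! Lifts of monotone maps from a twisted product: first properties and the null case. -/

namespace Pool.Agent.Lib.MP_6152be_co.CX

section lines
variable {V : Type} [DecidableEq V] {K : ℕ}

/-- The lift of the walk around a triangle. -/
noncomputable def lu (g : FG (SG V K)) (p q s : V) (n : ℕ) : Cov (SG V K) :=
  ⟨tp K p q s n, wp (tp K p q s) n * g⟩

theorem lu_inC {x : SG V K} {g : FG (SG V K)} {p q s : V} (hg : R x (vx K p) g) (h1 : p ≠ q)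
    (h2 : p ≠ s) (h3 : q ≠ s) (n : ℕ) : InC x (lu g p q s n) := hg.trans (wp_tp_R h1 h2 h3 n)

theorem lu_cmp (g : FG (SG V K)) {p q s : V} (h1 : p ≠ q) (h2 : p ≠ s) (h3 : q ≠ s) (n : ℕ) :
    Cmp (lu g p q s n) (lu g p q s (n + 1)) :=
  Cov.cmp_iff.2 ⟨(tp_adj h1 h2 h3 n).cmp, mul_assoc _ _ _⟩

theorem lu_mul (g : FG (SG V K)) (p q s : V) (e : ℕ) :
    lu g p q s (e * (3 * LL K)) = ⟨vx K p, tri K p q s ^ e * g⟩ := by
  rw [lu, tp_mul, wp_tp_mul]

theorem lu_zero (g : FG (SG V K)) (p q s : V) : lu g p q s 0 = ⟨vx K p, g⟩ := by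
  have := lu_mul g p q s 0
  rwa [Nat.zero_mul, pow_zero, one_mul] at this

theorem ltri_R {x : SG V K} {g : FG (SG V K)} {p q s : V} (hg : R x (vx K p) g) (h1 : p ≠ q)
    (h2 : p ≠ s) (h3 : q ≠ s) : R x x (g⁻¹ * tri K p q s * g) :=
  ((hg.trans (tri_R h1 h2 h3)).trans hg.symm).of_eq (mul_assoc _ _ _).symm

theorem exists_lu [Big V] {x : SG V K} {u : Cov (SG V K)} (hu : InC x u) :
    ∃ p q s g n, p ≠ q ∧ p ≠ s ∧ q ≠ s ∧ R x (vx K p) g ∧ n ≤ LL K ∧ u = lu g p q s n := by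
  obtain ⟨p, q, y, hpq, hy, e⟩ := exists_rep u.pt
  obtain ⟨s, h2, h3, -⟩ := Big.ex p q q
  have e1 : u.pt = tp K p q s y := by rw [tp_first hpq s hy, e]
  refine ⟨p, q, s, (wp (tp K p q s) y)⁻¹ * u.gp, y, hpq, h2.symm, h3.symm, ?_, hy,
    Cov.ext e1 (mul_inv_cancel_left _ _).symm⟩
  refine R.trans hu ?_
  rw [e1]
  exact (wp_tp_R hpq h2.symm h3.symm y).symm

theorem perm_of_lines [Finite V] [Big V] (p0 : V)
    (E : (u : Cov (SG V K)) → InC (vx K p0) u → Cov (SG V K))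
    (hmono : ∀ u hu u' hu', u ≤ u' → E u hu ≤ E u' hu')
    (hpt : ∀ u hu u' hu', u.pt = u'.pt → (E u hu).pt = (E u' hu').pt)
    (ht : ∀ p q s g (hg : R (vx K p0) (vx K p) g) (h1 : p ≠ q) (h2 : p ≠ s) (h3 : q ≠ s),
      (∀ i, i < 3 * LL K → (E _ (lu_inC hg h1 h2 h3 i)).pt ≠ (E _ (lu_inC hg h1 h2 h3 (i + 1))).pt)
      ∧ ∀ i, i + 2 ≤ 3 * LL K →
        (E _ (lu_inC hg h1 h2 h3 i)).pt ≠ (E _ (lu_inC hg h1 h2 h3 (i + 2))).pt) :
    ∃ σ : Equiv.Perm V, ∀ u hu, (E u hu).pt = σ • u.pt := by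
  obtain ⟨k, N, hk⟩ := exists_lifts (K := K) p0
  have hL := LL_two K
  let f : SG V K → SG V K := fun x => (E ⟨x, k x⟩ (hk x).1).pt
  have hf : ∀ u hu, (E u hu).pt = f u.pt := fun u hu => hpt _ _ _ _ rfl
  suffices h : ∃ σ : Equiv.Perm V, ∀ x, f x = σ • x by
    obtain ⟨σ, hσ⟩ := h
    exact ⟨σ, fun u hu => by rw [hf, hσ]⟩
  refine vertex_map f (fun p q y hpq hy => ?_) (fun p q y hpq hy => ?_)
    (fun p q s h1 h2 h3 => ?_)
  · obtain ⟨s, h2, h3, -⟩ := Big.ex p q q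
    have h4 := (ht p q s _ (hk _).1 hpq h2.symm h3.symm).1 y (by omega)
    have h5 : Cmp (E _ (lu_inC (hk _).1 hpq h2.symm h3.symm y))
        (E _ (lu_inC (hk _).1 hpq h2.symm h3.symm (y + 1))) :=
      (lu_cmp _ hpq h2.symm h3.symm y).imp (hmono _ _ _ _) (hmono _ _ _ _)
    have h6 := (Cov.cmp_iff.1 h5).1.adj h4
    rw [hf, hf] at h6
    rwa [← tp_first hpq s hy.le, ← tp_first hpq s hy]
  · obtain ⟨s, h2, h3, -⟩ := Big.ex p q q
    have h4 := (ht p q s _ (hk _).1 hpq h2.symm h3.symm).2 y (by omega)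
    rw [hf, hf] at h4
    rwa [← tp_first hpq s hy, ← tp_first hpq s (by omega : y ≤ LL K)]
  · have h4 := (ht q p s _ (hk _).1 h1.symm h3 h2).2 (LL K - 1) (by omega)
    rw [hf, hf] at h4
    rwa [pt_flip h1 (by omega), ← tp_first h1.symm s (by omega), ← tp_second q h2 (by omega),
      show LL K + 1 = LL K - 1 + 2 by omega]

end lines

theorem inv_conj_pow' {G : Type} [Group G] (a b : G) (n : ℕ) :
    (a⁻¹ * b * a) ^ n = a⁻¹ * b ^ n * a := by
  have := conj_pow (a := a⁻¹) (b := b) (i := n)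
  rwa [inv_inv] at this

theorem const_of_ne {A Y : Type} [PartialOrder A] [PartialOrder Y] [H1 Y] (C : Contr A)
    {f g : A → Cov Y} (hf : Monotone f) (hg : Monotone g)
    (h : (∀ z, f z ≤ g z) ∨ ∀ z, g z ≤ f z) (hne : ∀ z, (f z).pt ≠ (g z).pt) (z z' : A) :
    f z = f z' := by
  refine C.const f (fun a a' hle => ?_) z z'
  rcases h with h | h
  · exact (iso_lemma hf hg (fun z => Cov.lt_of (h z) (hne z)) hle).1
  · exact (iso_lemma hg hf (fun z => Cov.lt_of (h z) (hne z).symm) hle).2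

theorem psi_mono {A : Type} [PartialOrder A] (ρ : FG MM →* PV) {B : A → MM} {a : A → FF}
    (ha : ∀ z z', z ≤ z' → ρ (lab (B z) (B z')) • a z ≤ a z') {γ : A → FG MM} (hγ : Lifts B γ) :
    Monotone fun z => (ρ (γ z))⁻¹ • a z := by
  intro z z' h
  have := smul_mono (ρ (γ z'))⁻¹ (ha z z' h)
  rwa [hγ z z' h, map_mul, mul_inv_rev, mul_smul, inv_smul_smul, ← mul_inv_rev, ← map_mul,
    ← hγ z z' h] at this

/-- The finite conditions on the holonomies. -/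
structure Hyp (ρ : Bool → FG MM →* PV) : Prop where
  c1 : ∀ σ : PV, ∃ δ, R x0 x0 δ ∧ ∀ b, ρ b δ = σ
  c2 : ∀ b p q s, p ≠ q → p ≠ s → q ≠ s → Good (ρ b (tri 0 p q s)) ∧ ρ b (tri 0 p q s) ^ 6 = 1
  c3 : ∀ b b' (σ : Equiv.Perm (Fin 4)) (ω : PV),
    (∀ δ, R x0 x0 δ → ρ b' (pm 0 σ δ) = ω * ρ b δ * ω⁻¹) → b = b' ∧ σ = 1 ∧ ω = 1

variable {I J : Type}

/-- A monotone map to a twisted product of base and fibre, with a lift to the covers. -/
structure Lf (D : Dat I J) (b' : Bool) where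
  B : PP D → MM
  a : PP D → FF
  γ : PH I J → FG MM
  κ : PH I J → FG FF
  hB : Monotone B
  ha : ∀ z z', z ≤ z' → D.ρ b' (lab (B z) (B z')) • a z ≤ a z'
  hγ : Lifts (fun z : PH I J => B (proj D z.1)) γ
  hκ : Lifts (fun z : PH I J => (D.ρ b' (γ z))⁻¹ • a (proj D z.1)) κ

variable {D : Dat I J} {b' : Bool}

variable (D) in
/-- The fibre deck transformation given by the loop `t` on the slots in `S`. -/
noncomputable def fS (S : Set J) (t : FG FF) (ht : R f0 f0 t) : Gel D :=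
  Gel.fib D (ind S t fun _ => 1) (ind_prop S (R f0 f0) ht fun _ => R.refl)
    ⟨nrm t, ind_prop S (fun g => nrm g ≤ nrm t) le_rfl fun _ => Nat.zero_le _⟩

theorem fib_ind (T : (PH I J → PH I J) → Prop) (h1 : T fun z => z)
    (hc : ∀ f f', T f → T f' → T fun z => f' (f z))
    (hgen : ∀ S q s (a1 : 0 ≠ q) (a2 : 0 ≠ s) (a3 : q ≠ s), T (fS D S _ (tri_R a1 a2 a3)).act)
    (g : Gel D) (hg : g.δ = fun _ => 1) : T g.act := by
  obtain ⟨N, -, hN⟩ := g.bd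
  obtain ⟨g', e1, e2, h⟩ := fam_induction (K := 6) (0 : Fin 6)
    (fun η => ∃ g : Gel D, g.δ = (fun _ => 1) ∧ g.η = η ∧ T g.act)
    ⟨Gel.one D, rfl, rfl, by rwa [funext Gel.act_one]⟩
    (by
      rintro _ _ ⟨g, e1, rfl, h⟩ ⟨g', e2, rfl, h'⟩
      refine ⟨g.mul g', ?_, ?_, ?_⟩
      · funext i; simp [Gel.mul, e1, e2]
      · funext j; simp [Gel.mul, e2, hol_one, pm_one]
      · rw [funext (g.act_mul g')]; exact hc _ _ h h')
    (fun S q s a1 a2 a3 => ⟨_, rfl, rfl, hgen S q s a1 a2 a3⟩) g.η (Gel.R_of_one hg) N hN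
  rwa [Gel.act_congr (hg.trans e1.symm) e2.symm]

theorem bas_ind (T : (PH I J → PH I J) → Prop) (h1 : T fun z => z)
    (hc : ∀ f f', T f → T f' → T fun z => f' (f z))
    (hfib : ∀ g : Gel D, g.δ = (fun _ => 1) → T g.act)
    (hgen : ∀ S q s, 0 ≠ q → 0 ≠ s → q ≠ s → ∀ g : Gel D,
      g.δ = (ind S (tri 0 0 q s) fun _ => 1) → T g.act)
    (g : Gel D) : T g.act := by
  obtain ⟨N, hN, -⟩ := g.bd
  obtain ⟨g', e1, h⟩ := fam_induction (K := 0) (0 : Fin 4)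
    (fun δ => ∃ g : Gel D, g.δ = δ ∧ T g.act)
    ⟨Gel.one D, rfl, by rwa [funext Gel.act_one]⟩
    (by
      rintro _ _ ⟨g, rfl, h⟩ ⟨g', rfl, h'⟩
      refine ⟨g.mul g', rfl, ?_⟩
      rw [funext (g.act_mul g')]; exact hc _ _ h h')
    (fun S q s a1 a2 a3 => by
      obtain ⟨g, hg⟩ := exists_gel D (ind S (tri 0 0 q s) fun _ => 1)
        (ind_prop S (R x0 x0) (tri_R a1 a2 a3) fun _ => R.refl)
        ⟨_, ind_prop S (fun g => nrm g ≤ nrm (tri 0 0 q s)) le_rfl fun _ => Nat.zero_le _⟩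
      exact ⟨g, hg, hgen S q s a1 a2 a3 g hg⟩) g.δ g.hδ N hN
  obtain ⟨f, hf, e⟩ := Gel.factor e1
  rw [funext e]
  exact hc _ _ h (hfib f hf)

theorem exists_conj (H : Hyp D.ρ) (σ : PV) {p q s : Fin 6} (h1 : p ≠ q) (h2 : p ≠ s) (h3 : q ≠ s)
    {g g' : FG FF} (hg : R f0 (vx 6 p) g) (hg' : R f0 (vx 6 (σ p)) g') :
    ∃ Θ : Gel D, ∀ S t ht t' ht', t = g⁻¹ * tri 6 p q s * g →
      t' = g'⁻¹ * tri 6 (σ p) (σ q) (σ s) * g' →
      ∀ z, Θ.act ((fS D S t ht).act z) = (fS D S t' ht').act (Θ.act z) := by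
  obtain ⟨δ0, hδ, e⟩ := H.c1 σ⁻¹
  have eh : ∀ j, (hol D j fun _ => δ0)⁻¹ = σ := fun j => by
    rw [hol_eq D (c := δ0) (Filter.Eventually.of_forall fun _ => rfl), e, inv_inv]
  have hη : R f0 (σ • f0) ((pm 6 σ g)⁻¹ * g') := by
    have := (R.pm σ hg).symm
    rw [smul_vx] at this
    exact hg'.trans this
  refine ⟨⟨fun _ => δ0, fun _ => (pm 6 σ g)⁻¹ * g', fun _ => hδ, fun j => by rwa [eh],
    max (nrm δ0) (nrm ((pm 6 σ g)⁻¹ * g')), fun _ => le_max_left _ _, fun _ => le_max_right _ _⟩,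
    fun S t ht t' ht' e1 e2 z => ?_⟩
  rw [← Gel.act_mul, ← Gel.act_mul]
  refine congrFun (Gel.act_congr ?_ ?_) z
  · funext i; simp [Gel.mul, fS, Gel.fib]
  · funext j
    simp only [Gel.mul, fS, Gel.fib, eh, hol_one, inv_one, pm_one]
    by_cases hj : j ∈ S
    · rw [ind_mem hj, ind_mem hj, e1, e2, map_mul, map_mul, map_inv, pm_tri σ h1 h2 h3]; group
    · rw [ind_not hj, ind_not hj, map_one, one_mul, mul_one]

theorem fS_mul (S : Set J) {t t' : FG FF} (ht : R f0 f0 t) (ht' : R f0 f0 t') (e : t * t' = 1)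
    (z : PH I J) : (fS D S t' ht').act ((fS D S t ht).act z) = z := by
  rw [← Gel.act_mul]
  refine (congrFun (Gel.act_congr ?_ ?_) z).trans (Gel.act_one (D := D) z)
  · funext i; simp [Gel.mul, fS, Gel.fib, Gel.one]
  · funext j
    simp only [Gel.mul, fS, Gel.fib, hol_one, inv_one, pm_one, Gel.one]
    by_cases hj : j ∈ S
    · rw [ind_mem hj, ind_mem hj, e]
    · rw [ind_not hj, ind_not hj, mul_one]

theorem fS_union {S S' : Set J} (h : Disjoint S S') {t : FG FF} (ht : R f0 f0 t) (z : PH I J) :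
    (fS D (S ∪ S') t ht).act z = (fS D S' t ht).act ((fS D S t ht).act z) := by
  rw [← Gel.act_mul]
  refine congrFun (Gel.act_congr ?_ ?_) z
  · funext i; simp [Gel.mul, fS, Gel.fib]
  · funext j
    simp only [Gel.mul, fS, Gel.fib, hol_one, inv_one, pm_one]
    by_cases hj : j ∈ S
    · rw [ind_mem (Set.mem_union_left S' hj), ind_mem hj, ind_not (Set.disjoint_left.1 h hj), mul_one]
    · by_cases hj' : j ∈ S'
      · rw [ind_mem (Set.mem_union_right S hj'), ind_not hj, ind_mem hj', one_mul]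
      · rw [ind_not (S := S ∪ S') (fun h => h.elim hj hj'), ind_not hj, ind_not hj', one_mul]

theorem fS_setF {S S' : Set J} (h : Disjoint S S') {t : FG FF} (ht : R f0 f0 t) (u : Cov FF)
    (hu : InC f0 u) (z : PH I J) :
    (fS D S' t ht).act (setF S u hu z) = setF S u hu ((fS D S' t ht).act z) := by
  refine Subtype.ext ?_
  rw [Gel.act_of_one rfl]
  change _ = (((fS D S' t ht).act z).1.1, ind S u ((fS D S' t ht).act z).1.2)
  rw [Gel.act_of_one rfl]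
  refine Prod.ext rfl (funext fun j => ?_)
  simp only [fS, Gel.fib, setF]
  by_cases hj : j ∈ S
  · rw [ind_mem hj, ind_mem hj, ind_not (Set.disjoint_left.1 h hj), mul_one]
  · rw [ind_not hj, ind_not hj]

theorem fS_lu (S : Set J) {p q s : Fin 6} (h1 : p ≠ q) (h2 : p ≠ s) (h3 : q ≠ s) {g : FG FF}
    (hg : R f0 (vx 6 p) g) (z : PH I J) :
    (fS D S _ (ltri_R hg h1 h2 h3)).act (setF S _ (lu_inC hg h1 h2 h3 0) z) =
      setF S _ (lu_inC hg h1 h2 h3 (1 * (3 * LL 6))) z := by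
  refine Subtype.ext ?_
  rw [Gel.act_of_one rfl]
  refine Prod.ext rfl (funext fun j => ?_)
  simp only [fS, Gel.fib, setF]
  by_cases hj : j ∈ S
  · rw [ind_mem hj, ind_mem hj, ind_mem hj, lu_mul, lu_zero]
    refine Cov.ext rfl ?_
    simp only
    group
  · rw [ind_not hj, ind_not hj, ind_not hj, mul_one]

/-- The sixth power of a base triangle is, up to a fibre deck transformation, a short move. -/
theorem pow_six (H : Hyp D.ρ) (S : Set I) {p q s : Fin 4} (h1 : p ≠ q) (h2 : p ≠ s) (h3 : q ≠ s)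
    {g : FG MM} (hg : R x0 (vx 0 p) g) (Θ : Gel D)
    (hΘ : Θ.δ = ind S (g⁻¹ * tri 0 p q s * g) fun _ => 1) :
    ∃ f : Gel D, f.δ = (fun _ => 1) ∧ ∀ z, Θ.act^[6] (setM S _ (lu_inC hg h1 h2 h3 0) z) =
      f.act (setM S _ (lu_inC hg h1 h2 h3 (6 * (3 * LL 0))) z) := by
  obtain ⟨Θ6, e1, e2⟩ := exists_gel_pow Θ 6
  have e3 : ∀ j, hol D j Θ6.δ = 1 := by
    intro j
    refine ulim_eq (Filter.Eventually.of_forall fun i => ?_)
    rw [e1, hΘ]
    refine ind_prop S (fun c => D.ρ (D.τ j) (c ^ 6) = 1) ?_ (fun _ => by simp) i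
    have := (H.c2 (D.τ j) p q s h1 h2 h3).2
    rw [map_pow, map_mul, map_mul, map_inv, inv_conj_pow' , this]; simp
  obtain ⟨N, hN, -⟩ := Θ6.bd
  let Θ' : Gel D := ⟨Θ6.δ, fun _ => 1, Θ6.hδ, fun j => by
    rw [e3, inv_one, one_smul]; exact R.refl, N, hN, fun _ => Nat.zero_le _⟩
  obtain ⟨f, hf, e4⟩ := Gel.factor (g := Θ') (g' := Θ6) rfl
  refine ⟨f, hf, fun z => ?_⟩
  rw [← e2, e4]
  congr 1
  refine Subtype.ext (Prod.ext (funext fun i => ?_) (funext fun j => ?_))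
  · simp only [Gel.act, setM, Θ', e1, hΘ]
    by_cases hi : i ∈ S
    · rw [ind_mem hi, ind_mem hi, ind_mem hi, lu_mul, lu_zero]
      refine Cov.ext rfl ?_
      simp only
      rw [inv_conj_pow']
      group
    · rw [ind_not hi, ind_not hi, ind_not hi, one_pow, mul_one]
  · simp only [Gel.act, setM, Θ', e3, inv_one, one_smul, pm_one, mul_one]

namespace Lf
variable (L : Lf D b')

/-- The fibre part of the map in the trivialisation given by the lift of the base part. -/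
noncomputable def Ψ (z : PH I J) : FF := (D.ρ b' (L.γ z))⁻¹ • L.a (proj D z.1)

/-- The lift of the base part. -/
noncomputable def Bh (z : PH I J) : Cov MM := ⟨L.B (proj D z.1), L.γ z⟩

/-- The lift of the fibre part. -/
noncomputable def Φ (z : PH I J) : Cov FF := ⟨L.Ψ z, L.κ z⟩

theorem B_mono : Monotone fun z : PH I J => L.B (proj D z.1) :=
  fun _ _ h => L.hB (proj_mono D h)

theorem Ψ_mono : Monotone L.Ψ :=
  psi_mono (A := PH I J) (D.ρ b') (fun _ _ h => L.ha _ _ (proj_mono D h)) L.hγ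

theorem Bh_mono : Monotone L.Bh := L.hγ.mono L.B_mono

theorem Φ_mono : Monotone L.Φ := L.hκ.mono L.Ψ_mono

theorem Ψ_act (g : Gel D) {d : FG MM} {z : PH I J} (h : L.γ (g.act z) = L.γ z * d) :
    L.Ψ (g.act z) = (D.ρ b' d)⁻¹ • L.Ψ z := by
  rw [Ψ, Ψ, h, g.proj_act, map_mul, mul_inv_rev, mul_smul]

theorem hrel (g : Gel D) : ∃ d k, (∀ z, L.γ (g.act z) = L.γ z * d) ∧
    ∀ z, L.κ (g.act z) = pm 6 (D.ρ b' d)⁻¹ (L.κ z) * k := by
  obtain ⟨d, hd⟩ := (cH I J).lift_unique L.hγ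
    ((L.hγ.comp g.act_mono).congr fun z => by rw [g.proj_act])
  obtain ⟨k, hk⟩ := (cH I J).lift_unique
    (Lifts.map (f := L.Ψ) L.hκ L.Ψ_mono (smul_strictMono (D.ρ b' d)⁻¹))
    ((Lifts.comp (f := L.Ψ) L.hκ g.act_mono).congr fun z => L.Ψ_act g (hd z))
  exact ⟨d, k, hd, hk⟩

/-- The lift of the base part is invariant. -/
def TB (f : PH I J → PH I J) : Prop := ∀ z, L.γ (f z) = L.γ z

/-- The lift is invariant. -/
def TT (f : PH I J → PH I J) : Prop := ∀ z, L.γ (f z) = L.γ z ∧ L.κ (f z) = L.κ z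

theorem TT_comp (f f' : PH I J → PH I J) (h : L.TT f) (h' : L.TT f') : L.TT fun z => f' (f z) :=
  fun z => ⟨(h' _).1.trans (h z).1, (h' _).2.trans (h z).2⟩

theorem TB_fib (H : Hyp D.ρ) (g : Gel D) (hg : g.δ = fun _ => 1) : L.TB g.act := by
  refine fib_ind L.TB (fun _ => rfl) (fun f f' h h' z => (h' _).trans (h z)) ?_ g hg
  intro S q s a1 a2 a3
  have e0 : Equiv.swap q s (0 : Fin 6) = 0 := Equiv.swap_apply_of_ne_of_ne a1 a2
  obtain ⟨Θ, hΘ⟩ := exists_conj H (Equiv.swap q s) a1 a2 a3 (g := 1) (g' := 1) R.refl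
    (by rw [e0]; exact R.refl)
  have h := hΘ S _ (tri_R a1 a2 a3) _ (tri_R a2 a1 a3.symm) (by simp) (by simp [e0])
  obtain ⟨d, -, hd, -⟩ := L.hrel (fS D S _ (tri_R a1 a2 a3))
  obtain ⟨d', -, hd', -⟩ := L.hrel (fS D S _ (tri_R a2 a1 a3.symm))
  obtain ⟨u, -, hu, -⟩ := L.hrel Θ
  have e1 := congrArg L.γ (h (cH I J).a0)
  rw [hu, hd, hd', hu, mul_assoc, mul_assoc, mul_right_inj] at e1
  have e2 := congrArg L.γ (fS_mul (D := D) S (tri_R a1 a2 a3) (tri_R a2 a1 a3.symm)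
    (by rw [tri_rev a1 a2 a3, mul_inv_cancel]) (cH I J).a0)
  rw [hd', hd, mul_assoc, mul_eq_left] at e2
  rw [eq_inv_of_mul_eq_one_right e2] at e1
  intro z
  rw [hd, eq_one_of_conj_inv e1, mul_one]

theorem TT_of_point {g : Gel D} {z : PH I J} (h1 : L.γ (g.act z) = L.γ z)
    (h2 : L.κ (g.act z) = L.κ z) : L.TT g.act := by
  obtain ⟨d, k, hd, hk⟩ := L.hrel g
  rw [hd, mul_eq_left] at h1
  subst h1
  simp only [map_one, inv_one, pm_one] at hk
  rw [hk, mul_eq_left] at h2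
  subst h2
  exact fun z => ⟨by rw [hd, mul_one], by rw [hk, mul_one]⟩

theorem TT_conj (H : Hyp D.ρ) (S : Set J) {p q s p' q' s' : Fin 6} (h1 : p ≠ q) (h2 : p ≠ s)
    (h3 : q ≠ s) (h1' : p' ≠ q') (h2' : p' ≠ s') (h3' : q' ≠ s') {g g' : FG FF}
    (hg : R f0 (vx 6 p) g) (hg' : R f0 (vx 6 p') g')
    (h : L.TT (fS D S _ (ltri_R hg' h1' h2' h3')).act) : L.TT (fS D S _ (ltri_R hg h1 h2 h3)).act := by
  have inj : ∀ {p q s : Fin 6}, p ≠ q → p ≠ s → q ≠ s → Function.Injective (![p, q, s] : Fin 3 → Fin 6) := by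
    intro p q s h1 h2 h3 i j e
    fin_cases i <;> fin_cases j <;> simp_all [eq_comm]
  obtain ⟨σ, hσ⟩ := Equiv.Perm.exists_extending_pair _ _ (inj h1 h2 h3) (inj h1' h2' h3')
  have e0 : σ p = p' := hσ 0
  have e1 : σ q = q' := hσ 1
  have e2 : σ s = s' := hσ 2
  subst e0 e1 e2
  obtain ⟨Θ, hΘ⟩ := exists_conj H σ h1 h2 h3 hg hg'
  have e := hΘ S _ (ltri_R hg h1 h2 h3) _ (ltri_R hg' h1' h2' h3') rfl rfl
  obtain ⟨d, k, hd, hk⟩ := L.hrel Θ
  intro z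
  have a1 := (h (Θ.act z)).1
  have a2 := (h (Θ.act z)).2
  rw [← e, hd, hd, mul_left_inj] at a1
  rw [← e, hk, hk, mul_left_inj] at a2
  exact ⟨a1, pm_inj _ a2⟩

theorem γ_iter {g : Gel D} {d : FG MM} (hd : ∀ z, L.γ (g.act z) = L.γ z * d) (n : ℕ)
    (z : PH I J) : L.γ (g.act^[n] z) * (L.γ z)⁻¹ = (L.γ (g.act z) * (L.γ z)⁻¹) ^ n := by
  rw [hd, conj_pow]
  congr 1
  induction n with
  | zero => simp
  | succ n ih => rw [Function.iterate_succ_apply', hd, ih, pow_succ, mul_assoc]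

theorem γ_loop (g : Gel D) (z : PH I J) :
    R (L.B (proj D z.1)) (L.B (proj D z.1)) (L.γ (g.act z) * (L.γ z)⁻¹) := by
  have := (cH I J).lift_R L.B_mono L.hγ z (g.act z)
  rwa [g.proj_act] at this

theorem κ_iter {g : Gel D} {α : PV} {k : FG FF} (hk : ∀ z, L.κ (g.act z) = pm 6 α (L.κ z) * k)
    (n : ℕ) (z : PH I J) : L.κ (g.act^[n] z) * (L.κ z)⁻¹ =
      Nn (fun x => α • x) (L.κ (g.act z) * (L.κ z)⁻¹) n := by
  induction n with
  | zero => simp [Nn]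
  | succ n ih =>
    rw [Function.iterate_succ_apply', Nn, ← ih, hk, hk]
    change _ = pm 6 α _ * _
    rw [map_mul, map_inv]; group

/-- If the fibre deck transformations act trivially, so do all deck transformations. -/
theorem TT_all (H : Hyp D.ρ) (hfib : ∀ g : Gel D, g.δ = (fun _ => 1) → L.TT g.act) (g : Gel D) :
    L.TT g.act := by
  refine bas_ind L.TT (fun _ => ⟨rfl, rfl⟩) L.TT_comp hfib ?_ g
  intro S q s a1 a2 a3 Θ hΘ
  have hg : R x0 (vx 0 0) (1 : FG MM) := R.refl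
  obtain ⟨f, hf, e⟩ := pow_six H S a1 a2 a3 hg Θ (by simpa using hΘ)
  let zz : ℕ → PH I J := fun n => setM S _ (lu_inC hg a1 a2 a3 n) (cH I J).a0
  have hz : ∀ n, Cmp (zz n) (zz (n + 1)) := fun n =>
    (lu_cmp _ a1 a2 a3 n).imp (fun h => setM_le S _ _ h le_rfl) (fun h => setM_le S _ _ h le_rfl)
  have e1 : Θ.act^[6] (zz 0) = f.act (zz (6 * (3 * LL 0))) := e _
  have b1 := (fence_bound (fun n => L.Bh (zz n)) 0 (6 * (3 * LL 0)) fun n _ _ =>
    (hz n).imp (fun h => L.Bh_mono h) (fun h => L.Bh_mono h)).1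
  have b2 := (fence_bound (fun n => L.Φ (zz n)) 0 (6 * (3 * LL 0)) fun n _ _ =>
    (hz n).imp (fun h => L.Φ_mono h) (fun h => L.Φ_mono h)).1
  rw [Nat.zero_add] at b1 b2
  change nrm (L.γ _ * (L.γ _)⁻¹) ≤ _ at b1
  change nrm (L.κ _ * (L.κ _)⁻¹) ≤ _ at b2
  obtain ⟨d, k, hd, hk⟩ := L.hrel Θ
  rw [← (hfib f hf _).1, ← e1, L.γ_iter hd] at b1
  rw [← (hfib f hf _).2, ← e1] at b2
  have r1 := L.γ_loop Θ (zz 0)
  have r2 := (cH I J).lift_R L.Ψ_mono L.hκ (zz 0) (Θ.act (zz 0))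
  have r3 := (cH I J).lift_R L.Ψ_mono L.hκ (zz 0) (Θ.act^[6] (zz 0))
  have r4 : ∀ n, L.Ψ (Θ.act^[n] (zz 0)) = (D.ρ b' d)⁻¹ ^ n • L.Ψ (zz 0) := by
    intro n
    induction n with
    | zero => simp
    | succ n ih => rw [Function.iterate_succ_apply', L.Ψ_act Θ (hd _), ih, pow_succ', mul_smul]
  rw [L.Ψ_act Θ (hd _)] at r2
  have key : (D.ρ b' d)⁻¹ ^ 6 = 1 →
      Nn (fun x => (D.ρ b' d)⁻¹ • x) (L.κ (Θ.act (zz 0)) * (L.κ (zz 0))⁻¹) 6 = 1 := by
    intro h6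
    rw [r4, h6, one_smul] at r3
    rw [← L.κ_iter hk]
    by_contra hc
    have := girth_le r3 hc
    unfold LL at *
    omega
  by_cases h1 : L.γ (Θ.act (zz 0)) * (L.γ (zz 0))⁻¹ = 1
  · have h2 := mul_inv_eq_one.1 h1
    refine L.TT_of_point h2 (mul_inv_eq_one.1 ?_)
    rw [hd, mul_eq_left] at h2
    subst h2
    have h3 := key (by simp)
    simp only [map_one, inv_one, one_smul] at h3
    rw [Nn_id, ← one_pow 6] at h3
    exact pow_left_injective (by norm_num : (6 : ℕ) ≠ 0) h3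
  · exfalso
    obtain ⟨p', q', s', c1, c2, c3, hc⟩ := (girth_pow r1 h1 6).2 (by norm_num) b1
    have hc' : IsConj (D.ρ b' (tri 0 p' q' s')) (D.ρ b' d) := by
      refine (D.ρ b').map_isConj (hc.trans ?_)
      rw [hd]
      exact isConj_iff.2 ⟨(L.γ (zz 0))⁻¹, by group⟩
    obtain ⟨g1, g2⟩ := H.c2 b' p' q' s' c1 c2 c3
    have h6 : (D.ρ b' d)⁻¹ ^ 6 = 1 := by
      obtain ⟨c, hc⟩ := isConj_iff.1 hc'
      rw [inv_pow, ← hc, conj_pow, g2]; simp
    refine Nn_ne_one (smul_strictMono _) (MulAction.injective _) (by norm_num) (fun x => ?_)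
      (g1.conj hc').inv.smul_ne r2 (key h6)
    rw [smul_iterate, h6]; exact one_smul _ _

theorem null (h : ∀ g : Gel D, L.TT g.act) : (∃ γ, Lifts L.B γ) ∧
    ∀ γ, Lifts L.B γ → ∃ κ, Lifts (fun z => (D.ρ b' (γ z))⁻¹ • L.a z) κ := by
  obtain ⟨N, s, hs, -⟩ := exists_sec D
  let t : PP D → PH I J := fun z => ⟨s z, N, (hs z).1⟩
  have ht : ∀ z, proj D (t z).1 = z := fun z => (hs z).2
  have h1 : ∀ y : PH I J, L.γ (t (proj D y.1)) = L.γ y ∧ L.κ (t (proj D y.1)) = L.κ y := by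
    intro y
    obtain ⟨g, e⟩ := exists_gel_of_proj (ht (proj D y.1)).symm
    rw [← e]; exact h g y
  have h2 : ∀ z z', z ≤ z' → ∃ y : PH I J, t z ≤ y ∧ proj D y.1 = z' := by
    intro z z' hle
    obtain ⟨y, h3, h4, h5⟩ := exists_up D (hs z).1 (z' := z') (by rwa [(hs z).2])
    exact ⟨⟨y, _, h3⟩, h4, h5⟩
  have h3 : Lifts L.B fun z => L.γ (t z) := by
    intro z z' hle
    obtain ⟨y, h3, rfl⟩ := h2 z z' hle
    have := L.hγ _ _ h3
    simp only [ht] at this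
    simp only [(h1 y).1, this]
  have h4 : Lifts (fun z => (D.ρ b' (L.γ (t z)))⁻¹ • L.a z) fun z => L.κ (t z) := by
    intro z z' hle
    obtain ⟨y, h3, rfl⟩ := h2 z z' hle
    have := L.hκ _ _ h3
    simp only [ht] at this
    simp only [(h1 y).1, (h1 y).2, this]
  refine ⟨⟨_, h3⟩, fun γ hγ => ?_⟩
  obtain ⟨c, hc⟩ := (cH I J).lift_unique L.hγ
    (hγ.comp (t := fun y : PH I J => proj D y.1) fun _ _ h => proj_mono D h)
  refine ⟨_, (h4.map (psi_mono _ L.ha h3) (smul_strictMono (D.ρ b' c)⁻¹)).congr fun z => ?_⟩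
  have := hc (t z)
  simp only [ht] at this
  rw [this, map_mul, mul_inv_rev, mul_smul]

end Lf

end Pool.Agent.Lib.MP_6152be_co.CX
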