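import Pool.Agent.Lib.MP_6152be_co.CX.CL1

set_option autoImplicit false

/-! The essential case, and the classification of monotone maps from a twisted product. -/

namespace Pool.Agent.Lib.MP_6152be_co.CX

variable {I J : Type} {D : Dat I J} {b' : Bool}

theorem PH.lim1 (W : Ultrafilter I) (z : PH I J) :
    ∀ᶠ i in (W : Filter I), z.1.1 i = ulim W z.1.1 := by
  obtain ⟨N, h⟩ := z.2
  exact ulim_spec (finite_ball N) (Filter.Eventually.of_forall fun i => (h.1 i).2)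

theorem PH.lim2 (W : Ultrafilter J) (z : PH I J) :
    ∀ᶠ j in (W : Filter J), z.1.2 j = ulim W z.1.2 := by
  obtain ⟨N, h⟩ := z.2
  exact ulim_spec (finite_ball N) (Filter.Eventually.of_forall fun j => (h.2 j).2)

theorem PH.inC1 (z : PH I J) (i : I) : InC x0 (z.1.1 i) := by
  obtain ⟨N, h⟩ := z.2
  exact (h.1 i).1

theorem PH.inC2 (z : PH I J) (j : J) : InC f0 (z.1.2 j) := by
  obtain ⟨N, h⟩ := z.2
  exact (h.2 j).1

theorem PH.lim1_mono (W : Ultrafilter I) : Monotone fun z : PH I J => ulim W z.1.1 := by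
  intro z z' h
  obtain ⟨i, e1, e2⟩ := ((PH.lim1 W z).and (PH.lim1 W z')).exists
  simp only [← e1, ← e2]
  exact h.1 i

theorem ev_bind {X Y : Type} (W : Ultrafilter X) (U : X → Ultrafilter Y) (p : Y → Prop) :
    (∀ᶠ y in (W.bind U : Filter Y), p y) ↔ ∀ᶠ x in (W : Filter X), ∀ᶠ y in (U x : Filter Y), p y :=
  Filter.eventually_bind

theorem R0 : R f0 (vx 6 0) (1 : FG FF) := R.refl

theorem n01 : (0 : Fin 6) ≠ 1 := by decide

theorem n02 : (0 : Fin 6) ≠ 2 := by decide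

theorem n12 : (1 : Fin 6) ≠ 2 := by decide

namespace Lf
variable (L : Lf D b')

/-- The triangle on the slots in `S` moves the lift. -/
def Act (S : Set J) : Prop := ¬ L.TT (fS D S _ (ltri_R R0 n01 n02 n12)).act

theorem tightF (H : Hyp D.ρ) {S : Set J} (hS : L.Act S) {p q s : Fin 6} {g : FG FF}
    (hg : R f0 (vx 6 p) g) (h1 : p ≠ q) (h2 : p ≠ s) (h3 : q ≠ s) (z : PH I J) :
    (∀ i, i < 3 * LL 6 → (L.Φ (setF S _ (lu_inC hg h1 h2 h3 i) z)).pt ≠
      (L.Φ (setF S _ (lu_inC hg h1 h2 h3 (i + 1)) z)).pt) ∧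
    ∀ i, i + 2 ≤ 3 * LL 6 → (L.Φ (setF S _ (lu_inC hg h1 h2 h3 i) z)).pt ≠
      (L.Φ (setF S _ (lu_inC hg h1 h2 h3 (i + 2)) z)).pt := by
  let zz : ℕ → PH I J := fun n => setF S _ (lu_inC hg h1 h2 h3 n) z
  refine tight (fun n => L.Φ (zz n)) (3 * LL 6) (fun n _ => (lu_cmp _ h1 h2 h3 n).imp
    (fun h => L.Φ_mono (setF_le S _ _ h le_rfl)) (fun h => L.Φ_mono (setF_le S _ _ h le_rfl))) ?_
  have e : (fS D S _ (ltri_R hg h1 h2 h3)).act (zz 0) = zz (3 * LL 6) := by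
    have := fS_lu (D := D) S h1 h2 h3 hg z
    rwa [Nat.one_mul] at this
  have hT := L.TB_fib H (fS D S _ (ltri_R hg h1 h2 h3)) rfl (zz 0)
  have r := (cH I J).lift_R L.Ψ_mono L.hκ (zz 0) ((fS D S _ (ltri_R hg h1 h2 h3)).act (zz 0))
  rw [L.Ψ_act (d := 1) _ (by rw [hT, mul_one]), map_one, inv_one, one_smul] at r
  change _ ≤ nrm (L.κ _ * (L.κ _)⁻¹)
  rw [← e]
  refine girth_le r fun h => hS ?_
  exact L.TT_conj H S n01 n02 n12 h1 h2 h3 R0 hg (L.TT_of_point hT (mul_inv_eq_one.1 h))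

theorem constF (H : Hyp D.ρ) {S : Set J} (hS : L.Act S) (u : Cov FF) (hu : InC f0 u)
    (z z' : PH I J) : L.Φ (setF S u hu z) = L.Φ (setF S u hu z') := by
  obtain ⟨p, q, s, g, n, h1, h2, h3, hg, hn, rfl⟩ := exists_lu hu
  have := LL_pos 6
  exact const_of_ne (cH I J) (f := fun z => L.Φ (setF S _ (lu_inC hg h1 h2 h3 n) z))
    (g := fun z => L.Φ (setF S _ (lu_inC hg h1 h2 h3 (n + 1)) z))
    (fun _ _ h => L.Φ_mono (setF_le S _ _ le_rfl h))
    (fun _ _ h => L.Φ_mono (setF_le S _ _ le_rfl h))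
    ((lu_cmp _ h1 h2 h3 n).imp (fun h _ => L.Φ_mono (setF_le S _ _ h le_rfl))
      (fun h _ => L.Φ_mono (setF_le S _ _ h le_rfl)))
    (fun z => (L.tightF H hS hg h1 h2 h3 z).1 n (by omega)) z z'

theorem act_disj (H : Hyp D.ρ) {S S' : Set J} (hS : L.Act S) (h : Disjoint S S') :
    ¬ L.Act S' := by
  intro hS'
  have hu : InC f0 ⟨f0, 1⟩ := R.refl
  refine hS' (L.TT_of_point (z := setF S ⟨f0, 1⟩ hu (cH I J).a0) (L.TB_fib H _ rfl _) ?_)
  rw [fS_setF h]
  exact congrArg Cov.gp (L.constF H hS _ _ _ _)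

theorem act_split {S S' : Set J} (h : Disjoint S S') (hS : L.Act (S ∪ S')) :
    L.Act S ∨ L.Act S' := by
  by_contra hc
  rw [not_or, Act, Act, not_not, not_not] at hc
  apply hS
  rw [funext (fS_union h _)]
  exact L.TT_comp _ _ hc.1 hc.2

theorem act_up (H : Hyp D.ρ) {S S' : Set J} (hS : L.Act S) (h : S ⊆ S') : L.Act S' := by
  intro hS'
  have h1 : Disjoint S (S' \ S) := Set.disjoint_sdiff_right
  have h2 := L.act_disj H hS h1
  rw [Act, not_not] at h2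
  rw [← Set.union_diff_cancel h, funext (fS_union h1 _)] at hS'
  exact hS fun z => ⟨(h2 _).1.symm.trans (hS' z).1, (h2 _).2.symm.trans (hS' z).2⟩

theorem exists_ultra (H : Hyp D.ρ) {S0 : Set J} (h0 : L.Act S0) :
    ∃ W : Ultrafilter J, ∀ S, S ∈ W → L.Act S := by
  have hu := L.act_up H h0 (Set.subset_univ _)
  let F : Filter J :=
    { sets := {S | L.Act S}
      univ_sets := hu
      sets_of_superset := fun h1 h2 => L.act_up H h1 h2
      inter_sets := fun {S S'} h1 h2 => by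
        have h3 : L.Act ((S ∩ S') ∪ (S \ S')) := by rwa [Set.inter_union_diff]
        exact (L.act_split (Set.disjoint_sdiff_inter.symm) h3).resolve_right
          (L.act_disj H h2 Set.disjoint_sdiff_right) }
  refine ⟨Ultrafilter.ofComplNotMemIff F fun S => ⟨fun h => ?_, fun h => ?_⟩, fun S h => h⟩
  · have h3 : L.Act (S ∪ Sᶜ) := by rwa [Set.union_compl_self]
    exact (L.act_split disjoint_compl_right h3).resolve_right h
  · exact L.act_disj H h disjoint_compl_right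

theorem exists_omega (H : Hyp D.ρ) {W : Ultrafilter J} (hW : ∀ S, S ∈ W → L.Act S) :
    ∃ ω : PV, ∀ (z : PH I J) x, (∀ᶠ j in (W : Filter J), (z.1.2 j).pt = x) → L.Ψ z = ω • x := by
  let E : (u : Cov FF) → InC f0 u → Cov FF := fun u hu => L.Φ (setF Set.univ u hu (cH I J).a0)
  obtain ⟨ω, hω⟩ := perm_of_lines (K := 6) (0 : Fin 6) E
    (fun u hu u' hu' h => L.Φ_mono (setF_le _ _ _ h le_rfl)) (fun u hu u' hu' e => by
      let g := fS D Set.univ (u.gp⁻¹ * u'.gp) (R.trans hu' (e ▸ R.symm hu))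
      have e1 : g.act (setF Set.univ u hu (cH I J).a0) = setF Set.univ u' hu' (cH I J).a0 := by
        refine Subtype.ext ?_
        rw [Gel.act_of_one rfl]
        refine Prod.ext rfl (funext fun j => ?_)
        simp only [g, fS, Gel.fib, setF, ind_mem (Set.mem_univ j)]
        exact Cov.ext e (mul_inv_cancel_left _ _)
      change L.Ψ _ = L.Ψ _
      rw [← e1, L.Ψ_act (d := 1) g (by rw [L.TB_fib H g rfl, mul_one]), map_one, inv_one,
        one_smul])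
    (fun p q s g hg h1 h2 h3 => L.tightF H (hW _ Filter.univ_mem) hg h1 h2 h3 _)
  refine ⟨ω, fun z x hx => ?_⟩
  have h1 := PH.lim2 W z
  obtain ⟨j0, e1, e2⟩ := (h1.and hx).exists
  have hu : InC f0 (ulim W z.1.2) := e1 ▸ PH.inC2 z j0
  rw [← e2, e1, ← hω _ hu]
  have e3 : setF {j | z.1.2 j = ulim W z.1.2} _ hu z = z :=
    Subtype.ext (Prod.ext rfl (funext fun j => by
      by_cases hj : z.1.2 j = ulim W z.1.2
      · exact (ind_mem (S := {j | z.1.2 j = ulim W z.1.2}) hj).trans hj.symm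
      · exact ind_not (S := {j | z.1.2 j = ulim W z.1.2}) hj))
  have e4 : setF {j | z.1.2 j = ulim W z.1.2} _ hu (setF Set.univ _ hu (cH I J).a0) =
      setF Set.univ _ hu (cH I J).a0 :=
    Subtype.ext (Prod.ext rfl (funext fun j => by
      by_cases hj : z.1.2 j = ulim W z.1.2
      · exact (ind_mem (S := {j | z.1.2 j = ulim W z.1.2}) hj).trans (ind_mem (Set.mem_univ j)).symm
      · exact ind_not (S := {j | z.1.2 j = ulim W z.1.2}) hj))
  have := L.constF H (hW _ h1) _ hu z (setF Set.univ _ hu (cH I J).a0)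
  rw [e3, e4] at this
  exact congrArg Cov.pt this

theorem rho_d {W : Ultrafilter J} {ω : PV}
    (hω : ∀ (z : PH I J) x, (∀ᶠ j in (W : Filter J), (z.1.2 j).pt = x) → L.Ψ z = ω • x)
    {b : Bool} (hb : ∀ᶠ j in (W : Filter J), D.τ j = b) (g : Gel D) {c d : FG MM}
    (hc : ∀ᶠ i in (W.bind D.U : Filter I), g.δ i = c) (hd : ∀ z, L.γ (g.act z) = L.γ z * d) :
    D.ρ b' d = ω * D.ρ b c * ω⁻¹ := by
  obtain ⟨k, N, hk⟩ := exists_lifts (K := 6) (0 : Fin 6)
  have h : (D.ρ b' d)⁻¹ * ω = ω * (D.ρ b c)⁻¹ := by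
    refine perm_eq_of_smul (K := 6) fun x => ?_
    let z := setF Set.univ ⟨x, k x⟩ (hk x).1 (cH I J).a0
    have h1 : ∀ j, (z.1.2 j).pt = x := fun j => by
      simp only [z, setF, ind_mem (Set.mem_univ j)]
    have h2 := hω z x (Filter.Eventually.of_forall h1)
    have h3 := hω (g.act z) ((D.ρ b c)⁻¹ • x) (by
      filter_upwards [hb, (ev_bind _ _ _).1 hc] with j e1 e2
      change (hol D j g.δ)⁻¹ • (z.1.2 j).pt = _
      rw [hol_eq D e2, e1, h1])
    rw [L.Ψ_act g (hd z), h2] at h3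
    rw [mul_smul, mul_smul, h3]
  rw [eq_mul_inv_iff_mul_eq, ← inv_inj, mul_inv_rev, mul_inv_rev, ← mul_right_inj ω, ← mul_assoc,
    ← mul_assoc, ← h]
  simp

theorem tightM (H : Hyp D.ρ) {W : Ultrafilter J} {ω : PV}
    (hω : ∀ (z : PH I J) x, (∀ᶠ j in (W : Filter J), (z.1.2 j).pt = x) → L.Ψ z = ω • x)
    {S : Set I} (hS : S ∈ W.bind D.U) {p q s : Fin 4} {g : FG MM}
    (hg : R x0 (vx 0 p) g) (h1 : p ≠ q) (h2 : p ≠ s) (h3 : q ≠ s) (z : PH I J) :
    (∀ i, i < 3 * LL 0 → (L.Bh (setM S _ (lu_inC hg h1 h2 h3 i) z)).pt ≠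
      (L.Bh (setM S _ (lu_inC hg h1 h2 h3 (i + 1)) z)).pt) ∧
    ∀ i, i + 2 ≤ 3 * LL 0 → (L.Bh (setM S _ (lu_inC hg h1 h2 h3 i) z)).pt ≠
      (L.Bh (setM S _ (lu_inC hg h1 h2 h3 (i + 2)) z)).pt := by
  let zz : ℕ → PH I J := fun n => setM S _ (lu_inC hg h1 h2 h3 n) z
  have key := tight (fun n => L.Bh (zz n)) (6 * (3 * LL 0)) (fun n _ => (lu_cmp _ h1 h2 h3 n).imp
    (fun h => L.Bh_mono (setM_le S _ _ h le_rfl)) (fun h => L.Bh_mono (setM_le S _ _ h le_rfl))) ?_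
  · exact ⟨fun i hi => key.1 i (by omega), fun i hi => key.2 i (by omega)⟩
  obtain ⟨Θ, hΘ⟩ := exists_gel D (ind S (g⁻¹ * tri 0 p q s * g) fun _ => 1)
    (ind_prop S (R x0 x0) (ltri_R hg h1 h2 h3) fun _ => R.refl)
    ⟨_, ind_prop S (fun c => nrm c ≤ nrm (g⁻¹ * tri 0 p q s * g)) le_rfl fun _ => Nat.zero_le _⟩
  obtain ⟨f, hf, e⟩ := pow_six H S h1 h2 h3 hg Θ hΘ
  have e1 : Θ.act^[6] (zz 0) = f.act (zz (6 * (3 * LL 0))) := e _
  obtain ⟨d, -, hd, -⟩ := L.hrel Θ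
  change _ ≤ nrm (L.γ _ * (L.γ _)⁻¹)
  rw [← L.TB_fib H f hf, ← e1, L.γ_iter hd]
  refine (girth_pow (L.γ_loop Θ (zz 0)) (fun h => ?_) 6).1
  rw [mul_inv_eq_one, hd, mul_eq_left] at h
  have h4 := L.rho_d hω (ulim_fin W D.τ) Θ (c := g⁻¹ * tri 0 p q s * g) (by
    filter_upwards [hS] with i hi
    rw [hΘ, ind_mem hi]) hd
  rw [h, map_one, map_mul, map_mul, map_inv] at h4
  refine (H.c2 (ulim W D.τ) p q s h1 h2 h3).1.ne_one ?_
  have := congrArg (fun t => D.ρ (ulim W D.τ) g * (ω⁻¹ * t * ω) * (D.ρ (ulim W D.τ) g)⁻¹) h4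
  simpa [mul_assoc] using this.symm

theorem constM (H : Hyp D.ρ) {W : Ultrafilter J} {ω : PV}
    (hω : ∀ (z : PH I J) x, (∀ᶠ j in (W : Filter J), (z.1.2 j).pt = x) → L.Ψ z = ω • x)
    {S : Set I} (hS : S ∈ W.bind D.U) (u : Cov MM) (hu : InC x0 u)
    (z z' : PH I J) : L.Bh (setM S u hu z) = L.Bh (setM S u hu z') := by
  obtain ⟨p, q, s, g, n, h1, h2, h3, hg, hn, rfl⟩ := exists_lu hu
  have := LL_pos 0
  exact const_of_ne (cH I J) (f := fun z => L.Bh (setM S _ (lu_inC hg h1 h2 h3 n) z))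
    (g := fun z => L.Bh (setM S _ (lu_inC hg h1 h2 h3 (n + 1)) z))
    (fun _ _ h => L.Bh_mono (setM_le S _ _ le_rfl h))
    (fun _ _ h => L.Bh_mono (setM_le S _ _ le_rfl h))
    ((lu_cmp _ h1 h2 h3 n).imp (fun h _ => L.Bh_mono (setM_le S _ _ h le_rfl))
      (fun h _ => L.Bh_mono (setM_le S _ _ h le_rfl)))
    (fun z => (L.tightM H hω hS hg h1 h2 h3 z).1 n (by omega)) z z'

theorem exists_sigma (H : Hyp D.ρ) {W : Ultrafilter J} {ω : PV}
    (hω : ∀ (z : PH I J) x, (∀ᶠ j in (W : Filter J), (z.1.2 j).pt = x) → L.Ψ z = ω • x) :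
    ∃ σ : Equiv.Perm (Fin 4), ∀ z : PH I J,
      L.B (proj D z.1) = σ • (ulim (W.bind D.U) z.1.1).pt := by
  let E : (u : Cov MM) → InC x0 u → Cov MM := fun u hu => L.Bh (setM Set.univ u hu (cH I J).a0)
  have hE : ∀ (z : PH I J) u hu, (∀ᶠ i in (W.bind D.U : Filter I), z.1.1 i = u) →
      L.Bh z = E u hu := by
    intro z u hu h1
    have e3 : setM {i | z.1.1 i = u} _ hu z = z :=
      Subtype.ext (Prod.ext (funext fun i => by
        by_cases hi : z.1.1 i = u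
        · exact (ind_mem (S := {i | z.1.1 i = u}) hi).trans hi.symm
        · exact ind_not (S := {i | z.1.1 i = u}) hi) rfl)
    have e4 : setM {i | z.1.1 i = u} _ hu (setM Set.univ _ hu (cH I J).a0) =
        setM Set.univ _ hu (cH I J).a0 :=
      Subtype.ext (Prod.ext (funext fun i => by
        by_cases hi : z.1.1 i = u
        · exact (ind_mem (S := {i | z.1.1 i = u}) hi).trans (ind_mem (Set.mem_univ i)).symm
        · exact ind_not (S := {i | z.1.1 i = u}) hi) rfl)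
    have := L.constM H hω h1 _ hu z (setM Set.univ _ hu (cH I J).a0)
    rwa [e3, e4] at this
  obtain ⟨σ, hσ⟩ := perm_of_lines (K := 0) (0 : Fin 4) E
    (fun u hu u' hu' h => L.Bh_mono (setM_le _ _ _ h le_rfl)) (fun u hu u' hu' e => by
      obtain ⟨g, hg⟩ := exists_gel D (fun _ => u.gp⁻¹ * u'.gp)
        (fun _ => R.trans hu' (e ▸ R.symm hu)) ⟨_, fun _ => le_rfl⟩
      rw [← hE (g.act (setM Set.univ u hu (cH I J).a0)) u' hu'
        (Filter.Eventually.of_forall fun i => ?_)]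
      · change L.B _ = L.B _
        rw [g.proj_act]
      · simp only [Gel.act, setM, ind_mem (Set.mem_univ i), hg]
        exact Cov.ext e (mul_inv_cancel_left _ _))
    (fun p q s g hg h1 h2 h3 => L.tightM H hω Filter.univ_mem hg h1 h2 h3 _)
  refine ⟨σ, fun z => ?_⟩
  have h1 := PH.lim1 (W.bind D.U) z
  obtain ⟨i0, e1⟩ := h1.exists
  have hu : InC x0 (ulim (W.bind D.U) z.1.1) := e1 ▸ PH.inC1 z i0
  rw [← hσ _ hu, ← hE z _ hu h1]; rfl

theorem essential (H : Hyp D.ρ) {S0 : Set J} (h0 : L.Act S0) :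
    ∃ W : Ultrafilter J, (∀ᶠ j in (W : Filter J), D.τ j = b') ∧ ∀ z : PP D,
      ∀ᶠ j in (W : Filter J), L.a z = z.a j ∧ ∀ᶠ i in (D.U j : Filter I), L.B z = z.m i := by
  obtain ⟨W, hW⟩ := L.exists_ultra H h0
  obtain ⟨ω, hω⟩ := L.exists_omega H hW
  obtain ⟨σ, hσ⟩ := L.exists_sigma H hω
  have hb := ulim_fin W D.τ
  have hm := PH.lim1_mono (J := J) (W.bind D.U)
  obtain ⟨η, hη⟩ := (cH I J).lift_unique
    (Lifts.map (lifts_of_mono hm) (fun _ _ h => (hm h).1) (smul_strictMono σ))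
    (L.hγ.congr hσ)
  obtain ⟨e1, rfl, e3⟩ := H.c3 (ulim W D.τ) b' σ (D.ρ b' η * ω) fun δ hδ => by
    obtain ⟨g, hg⟩ := exists_gel D (fun _ => δ) (fun _ => hδ) ⟨_, fun _ => le_rfl⟩
    have h1 := L.rho_d hω hb g (c := δ) (d := η⁻¹ * pm 0 σ δ * η)
      (Filter.Eventually.of_forall fun i => by rw [hg]) fun z => by
        have : ulim (W.bind D.U) (g.act z).1.1 = ⟨(ulim (W.bind D.U) z.1.1).pt,
            (ulim (W.bind D.U) z.1.1).gp * δ⟩ := by
          refine ulim_eq ?_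
          filter_upwards [PH.lim1 (W.bind D.U) z] with i e
          simp only [Gel.act, hg, e]
        rw [hη, hη, this]
        change pm 0 σ _ * _ = pm 0 σ _ * _ * _
        rw [map_mul]; group
    rw [map_mul, map_mul, map_inv] at h1
    have := congrArg (fun t => D.ρ b' η * t * (D.ρ b' η)⁻¹) h1
    simpa [mul_assoc] using this
  rw [e1] at hb
  refine ⟨W, hb, fun z => ?_⟩
  obtain ⟨N, s, hs, -⟩ := exists_sec D
  let y : PH I J := ⟨s z, N, (hs z).1⟩
  have hy : proj D y.1 = z := (hs z).2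
  have a1 := hσ y
  have a2 := hω y (ulim W y.1.2).pt ((PH.lim2 W y).mono fun j e => by rw [e])
  have a3 := hη y
  rw [Ψ, hy, inv_smul_eq_iff, a3, map_mul, mul_smul, ← mul_smul (D.ρ b' η), e3, one_smul] at a2
  rw [hy, one_smul] at a1
  filter_upwards [hb, PH.lim2 W y, (ev_bind _ _ _).1 (PH.lim1 (W.bind D.U) y)] with j c1 c2 c3
  refine ⟨?_, c3.mono fun i e => ?_⟩
  · rw [a2, ← hy]
    change _ = hol D j _ • _
    rw [hol_eq D (c := (ulim (W.bind D.U) y.1.1).gp) (c3.mono fun i e => by rw [e]), c1, c2]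
    congr 2
    exact pm_one _
  · rw [a1, ← hy, ← e]; rfl

end Lf

/-- A monotone map from a twisted product to a twisted product of base and fibre either lifts to
the covers or is a limit of coordinates along an ultrafilter. -/
theorem classify (H : Hyp D.ρ) (b' : Bool) {B : PP D → MM} {a : PP D → FF} (hB : Monotone B)
    (ha : ∀ z z', z ≤ z' → D.ρ b' (lab (B z) (B z')) • a z ≤ a z') :
    ((∃ γ, Lifts B γ) ∧ ∀ γ, Lifts B γ → ∃ κ, Lifts (fun z => (D.ρ b' (γ z))⁻¹ • a z) κ) ∨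
    ∃ W : Ultrafilter J, (∀ᶠ j in (W : Filter J), D.τ j = b') ∧ ∀ z : PP D,
      ∀ᶠ j in (W : Filter J), a z = z.a j ∧ ∀ᶠ i in (D.U j : Filter I), B z = z.m i := by
  obtain ⟨γ, hγ⟩ := (cH I J).lift (f := fun z : PH I J => B (proj D z.1))
    fun _ _ h => hB (proj_mono D h)
  obtain ⟨κ, hκ⟩ := (cH I J).lift
    (psi_mono (A := PH I J) (D.ρ b') (fun _ _ h => ha _ _ (proj_mono D h)) hγ)
  let L : Lf D b' := ⟨B, a, γ, κ, hB, ha, hγ, hκ⟩
  by_cases h : ∃ S, L.Act S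
  · obtain ⟨S, hS⟩ := h
    exact Or.inr (L.essential H hS)
  · refine Or.inl (L.null (L.TT_all H (fib_ind L.TT (fun _ => ⟨rfl, rfl⟩) L.TT_comp ?_)))
    intro S q s a1 a2 a3
    have h1 : L.TT _ := not_not.1 fun hS => h ⟨S, hS⟩
    have h2 := L.TT_conj H S a1 a2 a3 n01 n02 n12 R0 R0 h1
    rwa [Gel.act_congr (g := fS D S _ (ltri_R R0 a1 a2 a3)) (g' := fS D S _ (tri_R a1 a2 a3)) rfl
      (by simp [fS, Gel.fib])] at h2

end Pool.Agent.Lib.MP_6152be_co.CX
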