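import Pool.Agent.Lib.MP_6152be_co.CX.Cover
import Pool.Agent.Lib.MP_6152be_co.Defs

set_option autoImplicit false

/-! Contractions of ordered sets: lifting of maps, and the connected fixed point property. -/

namespace Pool.Agent.Lib.MP_6152be_co.CX

/-- A sequence of monotone maps from a constant map, consecutive ones comparable, which is
eventually the identity at each point. -/
structure Contr (A : Type) [PartialOrder A] where
  r : ℕ → A → A
  a0 : A
  mono : ∀ n, Monotone (r n)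
  zero : ∀ a, r 0 a = a0
  succ : ∀ n, (∀ a, r n a ≤ r (n + 1) a) ∨ (∀ a, r (n + 1) a ≤ r n a)
  ev : ∀ a, ∃ N, ∀ n, N ≤ n → r n a = a

/-- `γ` is the group part of a lift of `f` to the cover. -/
def Lifts {A Z : Type} [PartialOrder A] [PartialOrder Z] (f : A → Z) (γ : A → FG Z) : Prop :=
  ∀ a a', a ≤ a' → γ a' = lab (f a) (f a') * γ a

section
variable {A Z : Type} [PartialOrder A] [PartialOrder Z]

theorem Contr.cmp (C : Contr A) (n : ℕ) (a : A) : Cmp (C.r n a) (C.r (n + 1) a) :=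
  (C.succ n).imp (fun h => h a) (fun h => h a)

theorem Contr.const (C : Contr A) {β : Sort*} (c : A → β) (h : ∀ a a', a ≤ a' → c a = c a')
    (a a' : A) : c a = c a' := by
  have key : ∀ a, c a = c C.a0 := by
    intro a
    obtain ⟨N, hN⟩ := C.ev a
    have : ∀ n, c (C.r n a) = c C.a0 := by
      intro n
      induction n with
      | zero => rw [C.zero]
      | succ n ih =>
        rw [← ih]
        rcases C.cmp n a with h1 | h1
        · exact (h _ _ h1).symm
        · exact h _ _ h1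
    rw [← this N, hN N le_rfl]
  rw [key a, key a']

theorem Lifts.mul_const {f : A → Z} {γ : A → FG Z} (h : Lifts f γ) (c : FG Z) :
    Lifts f (fun a => γ a * c) := fun a a' hle => by
  simp only [h a a' hle, mul_assoc]

theorem Lifts.comp {A' : Type} [PartialOrder A'] {f : A → Z} {γ : A → FG Z} (h : Lifts f γ)
    {t : A' → A} (ht : Monotone t) : Lifts (fun a => f (t a)) (fun a => γ (t a)) :=
  fun _ _ hle => h _ _ (ht hle)

theorem Lifts.map {Y : Type} [PartialOrder Y] {f : A → Z} {γ : A → FG Z} (h : Lifts f γ)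
    (hf : Monotone f) {α : Z → Y} (hα : StrictMono α) :
    Lifts (fun a => α (f a)) (fun a => fm α (γ a)) := fun a a' hle => by
  simp only [h a a' hle, map_mul]
  rw [fm_lab hα (Or.inl (hf hle))]

theorem Lifts.congr {f f' : A → Z} {γ : A → FG Z} (h : Lifts f γ) (e : ∀ a, f a = f' a) :
    Lifts f' γ := by
  rw [← funext e]; exact h

theorem Contr.lift_unique (C : Contr A) {f : A → Z} {γ γ' : A → FG Z} (h : Lifts f γ)
    (h' : Lifts f γ') : ∃ c, ∀ a, γ' a = γ a * c := by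
  refine ⟨(γ C.a0)⁻¹ * γ' C.a0, fun a => ?_⟩
  rw [← C.const (fun a => (γ a)⁻¹ * γ' a) ?_ a C.a0, mul_inv_cancel_left]
  intro a a' hle
  rw [h a a' hle, h' a a' hle]; group

variable [H1 Z]

theorem Lifts.mono {f : A → Z} {γ : A → FG Z} (h : Lifts f γ) (hf : Monotone f) :
    Monotone (fun a => (⟨f a, γ a⟩ : Cov Z)) := fun a a' hle => ⟨hf hle, h a a' hle⟩

theorem lifts_of_mono {u : A → Cov Z} (h : Monotone u) :
    Lifts (fun a => (u a).pt) (fun a => (u a).gp) := fun _ _ hle => (h hle).2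

theorem Contr.lift (C : Contr A) {f : A → Z} (hf : Monotone f) : ∃ γ, Lifts f γ := by
  let φ : ℕ → A → FG Z := fun n a =>
    Nat.rec 1 (fun n g => lab (f (C.r n a)) (f (C.r (n + 1) a)) * g) n
  have hφ : ∀ n a, φ (n + 1) a = lab (f (C.r n a)) (f (C.r (n + 1) a)) * φ n a := fun _ _ => rfl
  have h1 : ∀ n a a', a ≤ a' → φ n a' = lab (f (C.r n a)) (f (C.r n a')) * φ n a := by
    intro n a a' hle
    induction n with
    | zero => rw [C.zero, C.zero, lab_self]; simp [φ]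
    | succ n ih =>
      rw [hφ, hφ, ih, ← mul_assoc, ← mul_assoc]
      congr 1
      have m0 := hf (C.mono n hle)
      have m1 := hf (C.mono (n + 1) hle)
      rcases C.succ n with h | h
      · rw [← lab_trans m0 (hf (h a')), ← lab_trans (hf (h a)) m1]
      · have e1 := lab_trans m1 (hf (h a'))
        have e2 := lab_trans (hf (h a)) m0
        rw [lab_symm (f (C.r (n + 1) a')), lab_symm (f (C.r (n + 1) a)) (f (C.r n a)),
          eq_mul_inv_iff_mul_eq, mul_assoc, ← e2, e1, inv_mul_cancel_left]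
  have h2 : ∀ a N, (∀ n, N ≤ n → C.r n a = a) → ∀ n, N ≤ n → φ n a = φ N a := by
    intro a N hN n hn
    induction n, hn using Nat.le_induction with
    | base => rfl
    | succ n hn ih => rw [hφ, hN n hn, hN (n + 1) (by omega), lab_self, one_mul, ih]
  choose N hN using C.ev
  refine ⟨fun a => φ (N a) a, fun a a' hle => ?_⟩
  have := h1 (max (N a) (N a')) a a' hle
  rw [h2 a _ (hN a) _ (le_max_left _ _), h2 a' _ (hN a') _ (le_max_right _ _),
    hN a _ (le_max_left _ _), hN a' _ (le_max_right _ _)] at this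
  exact this

theorem Contr.lift_base (C : Contr A) {f : A → Z} (hf : Monotone f) {γ : A → FG Z}
    (h : Lifts f γ) (a : A) {N : ℕ} (hN : C.r N a = a) :
    nrm (γ a * (γ C.a0)⁻¹) ≤ N ∧ R (f C.a0) (f a) (γ a * (γ C.a0)⁻¹) := by
  have := fence_bound (fun n => (⟨f (C.r n a), γ (C.r n a)⟩ : Cov Z)) 0 N (fun i _ _ =>
    (C.cmp i a).imp (fun h1 => h.mono hf h1) (fun h1 => h.mono hf h1))
  simpa only [Nat.zero_add, hN, C.zero] using this

theorem Contr.lift_R (C : Contr A) {f : A → Z} (hf : Monotone f) {γ : A → FG Z}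
    (h : Lifts f γ) (a a' : A) : R (f a) (f a') (γ a' * (γ a)⁻¹) := by
  obtain ⟨N, hN⟩ := C.ev a
  obtain ⟨N', hN'⟩ := C.ev a'
  have h1 := (C.lift_base hf h a (hN N le_rfl)).2
  have h2 := (C.lift_base hf h a' (hN' N' le_rfl)).2
  exact (h1.symm.trans h2).of_eq (by group)

end

section cfpp
variable {A : Type} [PartialOrder A]

theorem exists_lfp_above (hsup : ∀ c : Set A, IsChain (· ≤ ·) c → c.Nonempty → ∃ s, IsLUB c s)
    {g : A → A} (hg : Monotone g) {x : A} (hx : x ≤ g x) :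
    ∃ y, g y = y ∧ x ≤ y ∧ ∀ p, g p = p → x ≤ p → y ≤ p := by
  let S : Set A := {y | x ≤ y ∧ y ≤ g y ∧ ∀ p, g p = p → x ≤ p → y ≤ p}
  have hxS : x ∈ S := ⟨le_rfl, hx, fun _ _ h => h⟩
  obtain ⟨m, -, hm⟩ := zorn_le_nonempty₀ S (fun c hc hch y hy => by
    obtain ⟨s, hs⟩ := hsup c hch ⟨y, hy⟩
    refine ⟨s, ⟨(hc hy).1.trans (hs.1 hy), hs.2 fun z hz => (hc hz).2.1.trans (hg (hs.1 hz)),
      fun p hp hxp => hs.2 fun z hz => (hc hz).2.2 p hp hxp⟩, fun z hz => hs.1 hz⟩) x hxS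
  have h1 : g m ∈ S := ⟨hm.prop.1.trans hm.prop.2.1, hg hm.prop.2.1,
    fun p hp hxp => hp ▸ hg (hm.prop.2.2 p hp hxp)⟩
  exact ⟨m, le_antisymm (hm.le_of_ge h1 hm.prop.2.1) hm.prop.2.1, hm.prop.1, hm.prop.2.2⟩

theorem exists_gfp_below (hinf : ∀ c : Set A, IsChain (· ≤ ·) c → c.Nonempty → ∃ s, IsGLB c s)
    {g : A → A} (hg : Monotone g) {x : A} (hx : g x ≤ x) :
    ∃ y, g y = y ∧ y ≤ x ∧ ∀ p, g p = p → p ≤ x → p ≤ y :=
  exists_lfp_above (A := Aᵒᵈ) (fun c hc hne => hinf c hc.symm hne) (g := g) hg.dual hx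

theorem conn_symm {S : Set A} {x y : A} (h : Conn S x y) : Conn S y x := by
  induction h with
  | refl => exact Relation.ReflTransGen.refl
  | tail _ h ih => exact Relation.ReflTransGen.head ⟨h.2.1, h.1, h.2.2.symm⟩ ih

theorem isConn_transfer {B : Type} [PartialOrder B] {S : Set A} {T : Set B} (hS : IsConn S)
    (u : A → B) (hu : ∀ x ∈ S, u x ∈ T) (hm : ∀ x ∈ S, ∀ y ∈ S, x ≤ y → u x ≤ u y)
    (hT : ∀ y ∈ T, ∃ x ∈ S, Cmp (u x) y) : IsConn T := by
  have key : ∀ x y, Conn S x y → Conn T (u x) (u y) := by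
    intro x y h
    induction h with
    | refl => exact Relation.ReflTransGen.refl
    | tail _ h ih =>
      exact ih.tail ⟨hu _ h.1, hu _ h.2.1, h.2.2.imp (hm _ h.1 _ h.2.1) (hm _ h.2.1 _ h.1)⟩
  obtain ⟨x0, hx0⟩ := hS.1
  refine ⟨⟨u x0, hu _ hx0⟩, fun y hy y' hy' => ?_⟩
  obtain ⟨x, hx, hc⟩ := hT y hy
  obtain ⟨x', hx', hc'⟩ := hT y' hy'
  exact (Relation.ReflTransGen.head ⟨hy, hu _ hx, hc.symm⟩ (key _ _ (hS.2 x hx x' hx'))).tail
    ⟨hu _ hx', hy', hc'⟩

theorem isConn_fix_iff (hsup : ∀ c : Set A, IsChain (· ≤ ·) c → c.Nonempty → ∃ s, IsLUB c s)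
    (hinf : ∀ c : Set A, IsChain (· ≤ ·) c → c.Nonempty → ∃ s, IsGLB c s)
    {f g : A → A} (hf : Monotone f) (hg : Monotone g) (h : ∀ x, f x ≤ g x) :
    IsConn {x | f x = x} ↔ IsConn {x | g x = x} := by
  classical
  have h1 : ∀ x, ∃ y, f x = x → g y = y ∧ x ≤ y ∧ ∀ p, g p = p → x ≤ p → y ≤ p := by
    intro x
    by_cases hx : f x = x
    · obtain ⟨y, hy⟩ := exists_lfp_above hsup hg (x := x) (hx.symm.le.trans (h x))
      exact ⟨y, fun _ => hy⟩
    · exact ⟨x, fun h => absurd h hx⟩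
  have h2 : ∀ y, ∃ x, g y = y → f x = x ∧ x ≤ y ∧ ∀ p, f p = p → p ≤ y → p ≤ x := by
    intro y
    by_cases hy : g y = y
    · obtain ⟨x, hx⟩ := exists_gfp_below hinf hf (x := y) ((h y).trans hy.le)
      exact ⟨x, fun _ => hx⟩
    · exact ⟨y, fun h => absurd h hy⟩
  choose u hu using h1
  choose d hd using h2
  constructor
  · intro hc
    refine isConn_transfer hc u (fun x hx => (hu x hx).1) (fun x hx y hy hle =>
      (hu x hx).2.2 _ (hu y hy).1 (hle.trans (hu y hy).2.1)) (fun y hy => ?_)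
    exact ⟨d y, (hd y hy).1, Or.inl ((hu _ (hd y hy).1).2.2 y hy (hd y hy).2.1)⟩
  · intro hc
    refine isConn_transfer hc d (fun x hx => (hd x hx).1) (fun x hx y hy hle =>
      (hd y hy).2.2 _ (hd x hx).1 ((hd x hx).2.1.trans hle)) (fun y hy => ?_)
    exact ⟨u y, (hu y hy).1, Or.inr ((hd _ (hu y hy).1).2.2 y hy (hu y hy).2.1)⟩

theorem cfpp_of_contr (C : Contr A) (N : ℕ) (hN : ∀ a, C.r N a = a)
    (hsup : ∀ c : Set A, IsChain (· ≤ ·) c → c.Nonempty → ∃ s, IsLUB c s)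
    (hinf : ∀ c : Set A, IsChain (· ≤ ·) c → c.Nonempty → ∃ s, IsGLB c s) : CFPP A := by
  intro f hf
  have key : ∀ n, IsConn {x | C.r n (f x) = x} := by
    intro n
    induction n with
    | zero =>
      refine ⟨⟨C.a0, C.zero _⟩, fun x hx y hy => ?_⟩
      rw [Set.mem_setOf_eq, C.zero] at hx hy
      rw [← hx, ← hy]; exact Relation.ReflTransGen.refl
    | succ n ih =>
      have m0 : Monotone (fun x => C.r n (f x)) := (C.mono n).comp hf
      have m1 : Monotone (fun x => C.r (n + 1) (f x)) := (C.mono (n + 1)).comp hf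
      rcases C.succ n with h | h
      · exact (isConn_fix_iff hsup hinf m0 m1 (fun x => h _)).1 ih
      · exact (isConn_fix_iff hsup hinf m1 m0 (fun x => h _)).2 ih
  simpa only [hN] using key N

/-- In a set of height one every nonempty chain has a largest element. -/
theorem chain_max {Y : Type} [PartialOrder Y] [H1 Y] {c : Set Y} (hc : IsChain (· ≤ ·) c)
    (hne : c.Nonempty) : ∃ s ∈ c, ∀ y ∈ c, y ≤ s := by
  obtain ⟨x, hx⟩ := hne
  by_cases h : ∃ y ∈ c, x < y
  · obtain ⟨y, hy, hxy⟩ := h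
    refine ⟨y, hy, fun z hz => ?_⟩
    rcases hc.total hz hy with h | h
    · exact h
    · rcases h.eq_or_lt with h | h
      · exact h.ge
      · exact (H1.no3 _ _ _ hxy h).elim
  · refine ⟨x, hx, fun z hz => ?_⟩
    rcases hc.total hz hx with h1 | h1
    · exact h1
    · rcases h1.eq_or_lt with h1 | h1
      · exact h1.ge
      · exact absurd ⟨z, hz, h1⟩ h

/-- In a set of height one every nonempty chain has a least element. -/
theorem chain_min {Y : Type} [PartialOrder Y] [H1 Y] {c : Set Y} (hc : IsChain (· ≤ ·) c)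
    (hne : c.Nonempty) : ∃ s ∈ c, ∀ y ∈ c, s ≤ y := by
  haveI : H1 Yᵒᵈ := ⟨fun x y z h1 h2 => H1.no3 (Z := Y) z y x h2 h1⟩
  exact chain_max (Y := Yᵒᵈ) hc.symm hne

end cfpp

section ulim
variable {K Y : Type}

open Classical in
/-- The limit of a family along an ultrafilter (meaningful when the family takes one value on a
set of the ultrafilter). -/
noncomputable def ulim [Inhabited Y] (W : Ultrafilter K) (w : K → Y) : Y :=
  if h : ∃ y, ∀ᶠ k in (W : Filter K), w k = y then h.choose else default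

variable [Inhabited Y]

theorem ulim_eq {W : Ultrafilter K} {w : K → Y} {y : Y} (h : ∀ᶠ k in (W : Filter K), w k = y) :
    ulim W w = y := by
  have h1 : ∃ y, ∀ᶠ k in (W : Filter K), w k = y := ⟨y, h⟩
  rw [ulim, dif_pos h1]
  obtain ⟨k, hk, hk'⟩ := (h.and h1.choose_spec).exists
  rw [← hk, hk']

theorem ulim_spec {W : Ultrafilter K} {w : K → Y} {B : Set Y} (hB : B.Finite)
    (h : ∀ᶠ k in (W : Filter K), w k ∈ B) : ∀ᶠ k in (W : Filter K), w k = ulim W w := by
  have h1 : B ∈ W.map w := h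
  obtain ⟨y, -, hy⟩ := Ultrafilter.eq_pure_of_finite_mem hB h1
  have h2 : ∀ᶠ k in (W : Filter K), w k = y := by
    have : {y} ∈ W.map w := by rw [hy]; simp
    exact this
  rwa [ulim_eq h2]

theorem ulim_fin [Finite Y] (W : Ultrafilter K) (w : K → Y) :
    ∀ᶠ k in (W : Filter K), w k = ulim W w :=
  ulim_spec Set.finite_univ (Filter.Eventually.of_forall fun _ => trivial)

/-- Systems of equations of the form `w k = lim w` or `w k = c k` have solutions. -/
theorem exists_fixed_ulim {B : Set Y} (hB : B.Finite) (T : K → Set Y) (hT : ∀ k, T k ⊆ B)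
    (hne : ∀ k, (T k).Nonempty) (Λ : (K → Y) → K → Y)
    (hΛ : ∀ k, (∃ c, ∀ w, (∀ k', w k' ∈ T k') → Λ w k = c) ∨
      ∃ W : Ultrafilter K, ∀ w, (∀ k', w k' ∈ T k') → Λ w k = ulim W w)
    (hmap : ∀ w, (∀ k, w k ∈ T k) → ∀ k, Λ w k ∈ T k) :
    ∃ w, (∀ k, w k ∈ T k) ∧ Λ w = w := by
  classical
  letI : LinearOrder Y := linearOrderOfSTO WellOrderingRel
  have hfin : ∀ k, (T k).Finite := fun k => hB.subset (hT k)
  have hmono : ∀ w w', (∀ k, w k ∈ T k) → (∀ k, w' k ∈ T k) → (∀ k, w k ≤ w' k) →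
      ∀ k, Λ w k ≤ Λ w' k := by
    intro w w' hw hw' hle k
    rcases hΛ k with ⟨c, hc⟩ | ⟨W, hW⟩
    · rw [hc w hw, hc w' hw']
    · rw [hW w hw, hW w' hw']
      obtain ⟨i, h1, h2⟩ := ((ulim_spec (W := W) hB
        (Filter.Eventually.of_forall fun k => hT k (hw k))).and (ulim_spec (W := W) hB
        (Filter.Eventually.of_forall fun k => hT k (hw' k)))).exists
      rw [← h1, ← h2]; exact hle i
  let S : Set (K → Y) := {w | (∀ k, w k ∈ T k) ∧ ∀ k, Λ w k ≤ w k}
  have hS : S.Nonempty := by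
    have : ∀ k, ∃ t ∈ T k, ∀ y ∈ T k, y ≤ t := fun k =>
      Set.exists_max_image (T k) id (hfin k) (hne k)
    choose t ht using this
    exact ⟨t, fun k => (ht k).1, fun k => (ht k).2 _ (hmap t (fun k => (ht k).1) k)⟩
  have : ∀ k, ∃ m ∈ (fun w => w k) '' S, ∀ y ∈ (fun w => w k) '' S, m ≤ y := fun k =>
    Set.exists_min_image _ id ((hfin k).subset (by rintro _ ⟨w, hw, rfl⟩; exact hw.1 k))
      (hS.image _)
  choose m hm using this
  have hmT : ∀ k, m k ∈ T k := by
    intro k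
    obtain ⟨w, hw, e⟩ := (hm k).1
    rw [← e]; exact hw.1 k
  have hle : ∀ w ∈ S, ∀ k, m k ≤ w k := fun w hw k => (hm k).2 _ ⟨w, hw, rfl⟩
  have h1 : ∀ k, Λ m k ≤ m k := by
    intro k
    obtain ⟨w, hw, e⟩ := (hm k).1
    rw [← e]
    exact (hmono m w hmT hw.1 (hle w hw) k).trans (hw.2 k)
  have h2 : Λ m ∈ S := ⟨hmap m hmT, hmono _ _ (hmap m hmT) hmT h1⟩
  exact ⟨m, hmT, funext fun k => le_antisymm (h1 k) (hle _ h2 k)⟩

end ulim

end Pool.Agent.Lib.MP_6152be_co.CX
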