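import Pool.Agent.Lib.MP_6152be_co.CX.Free

set_option autoImplicit false

/-! The covering ordered set, truncation maps, tight fences and homogeneity of displacement. -/

namespace Pool.Agent.Lib.MP_6152be_co.CX

/-- Points of the covering ordered set. -/
@[ext] structure Cov (Z : Type) where
  pt : Z
  gp : FG Z

variable {Z : Type} [PartialOrder Z] [H1 Z]

instance : PartialOrder (Cov Z) where
  le u v := u.pt ≤ v.pt ∧ v.gp = lab u.pt v.pt * u.gp
  le_refl u := ⟨le_rfl, by rw [lab_self, one_mul]⟩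
  le_trans u v w h1 h2 := ⟨h1.1.trans h2.1, by rw [h2.2, h1.2, lab_trans h1.1 h2.1, mul_assoc]⟩
  le_antisymm u v h1 h2 := by
    have e : u.pt = v.pt := h1.1.antisymm h2.1
    refine Cov.ext e ?_
    rw [h1.2, e, lab_self, one_mul]

theorem Cov.le_def {u v : Cov Z} : u ≤ v ↔ u.pt ≤ v.pt ∧ v.gp = lab u.pt v.pt * u.gp := Iff.rfl

theorem Cov.eq_of_le {u v : Cov Z} (h : u ≤ v) (e : u.pt = v.pt) : u = v := by
  refine Cov.ext e ?_
  rw [h.2, e, lab_self, one_mul]

theorem Cov.pt_lt {u v : Cov Z} (h : u < v) : u.pt < v.pt :=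
  lt_of_le_of_ne h.le.1 (fun e => h.ne (Cov.eq_of_le h.le e))

theorem Cov.lt_of {u v : Cov Z} (h : u ≤ v) (e : u.pt ≠ v.pt) : u < v :=
  lt_of_le_of_ne h (fun e' => e (by rw [e']))

instance : H1 (Cov Z) := ⟨fun _ _ _ h1 h2 => H1.no3 _ _ _ (Cov.pt_lt h1) (Cov.pt_lt h2)⟩

theorem Cov.cmp_iff {u v : Cov Z} :
    Cmp u v ↔ Cmp u.pt v.pt ∧ v.gp = lab u.pt v.pt * u.gp := by
  constructor
  · rintro (h | h)
    · exact ⟨Or.inl h.1, h.2⟩
    · refine ⟨Or.inr h.1, ?_⟩
      rw [h.2, ← mul_assoc, lab_mul_lab, one_mul]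
  · rintro ⟨h | h, e⟩
    · exact Or.inl ⟨h, e⟩
    · refine Or.inr ⟨h, ?_⟩
      rw [e, ← mul_assoc, lab_mul_lab, one_mul]

/-- Membership in the component of `(x0, 1)`. -/
def InC (x0 : Z) (u : Cov Z) : Prop := R x0 u.pt u.gp

theorem InC.of_cmp {x0 : Z} {u v : Cov Z} (h : InC x0 u) (hc : Cmp u v) : InC x0 v := by
  rw [Cov.cmp_iff] at hc
  exact (R.step h hc.1).of_eq hc.2.symm

omit [PartialOrder Z] [H1 Z] in
theorem finite_ball [Finite Z] (N : ℕ) : {u : Cov Z | nrm u.gp ≤ N}.Finite := by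
  have h := (Set.finite_univ (α := Z)).prod (finite_nrm_le (Z := Z) N)
  refine (h.image (fun p => (⟨p.1, p.2⟩ : Cov Z))).subset ?_
  intro u hu
  exact ⟨(u.pt, u.gp), ⟨trivial, hu⟩, rfl⟩

/-- The point of the cover described by a word. -/
def tw (x0 : Z) (l : List (Let Z)) : Cov Z := ⟨endp x0 l, FreeGroup.mk l⟩

/-- Truncation to the first `n` steps. -/
noncomputable def tr (x0 : Z) (n : ℕ) (u : Cov Z) : Cov Z :=
  tw x0 ((wd u.gp).drop (nrm u.gp - n))

omit [H1 Z] in
theorem tw_wd {x0 : Z} {u : Cov Z} (h : InC x0 u) : tw x0 (wd u.gp) = u :=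
  Cov.ext (R.wk h).endp_eq (mk_wd _)

omit [PartialOrder Z] [H1 Z] in
theorem tr_zero (x0 : Z) (u : Cov Z) : tr x0 0 u = ⟨x0, 1⟩ := by
  unfold tr
  rw [Nat.sub_zero, nrm, List.drop_length]; rfl

omit [H1 Z] in
theorem tr_of_le {x0 : Z} {u : Cov Z} (h : InC x0 u) {n : ℕ} (hn : nrm u.gp ≤ n) :
    tr x0 n u = u := by
  unfold tr
  rw [Nat.sub_eq_zero_of_le hn, List.drop_zero, tw_wd h]

omit [H1 Z] in
theorem tr_inC {x0 : Z} {u : Cov Z} (h : InC x0 u) (n : ℕ) : InC x0 (tr x0 n u) :=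
  ((R.wk h).drop _).r

omit [PartialOrder Z] [H1 Z] in
theorem tr_nrm (x0 : Z) (u : Cov Z) (n : ℕ) : nrm (tr x0 n u).gp ≤ nrm u.gp := by
  refine (nrm_mk_le _).trans ?_
  rw [List.length_drop]; unfold nrm; omega

theorem tw_step {x0 x : Z} {a : Let Z} {l : List (Let Z)} (h : Wk x0 (a :: l) x) :
    (a.2 = true → tw x0 l ≤ tw x0 (a :: l)) ∧ (a.2 = false → tw x0 (a :: l) ≤ tw x0 l) := by
  cases h with
  | @up l y _ h hlt =>
    refine ⟨fun _ => ⟨?_, ?_⟩, fun h => by simp at h⟩
    · change endp x0 l ≤ x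
      rw [h.endp_eq]; exact hlt.le
    · change FreeGroup.mk _ = lab (endp x0 l) x * FreeGroup.mk l
      rw [h.endp_eq, mk_cons _ l, mk_true, lab_lt hlt]
  | @down l y _ h hlt =>
    refine ⟨fun h => by simp at h, fun _ => ⟨?_, ?_⟩⟩
    · change x ≤ endp x0 l
      rw [h.endp_eq]; exact hlt.le
    · change FreeGroup.mk _ = lab x (endp x0 l) * FreeGroup.mk _
      rw [h.endp_eq, mk_cons _ l, mk_false, lab_lt hlt, mul_inv_cancel_left]

omit [PartialOrder Z] [H1 Z] in
theorem tr_child {x0 : Z} {u v : Cov Z} {a : Let Z} (e : wd v.gp = a :: wd u.gp) {n : ℕ}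
    (hn : n ≤ nrm u.gp) : tr x0 n v = tr x0 n u := by
  unfold tr
  have : nrm v.gp - n = (nrm u.gp - n) + 1 := by
    unfold nrm at *; rw [e, List.length_cons]; omega
  rw [this, e, List.drop_succ_cons]

theorem tr_mono {x0 : Z} {u v : Cov Z} (h : InC x0 u) (huv : u ≤ v) (n : ℕ) :
    tr x0 n u ≤ tr x0 n v := by
  have hv : InC x0 v := h.of_cmp (Or.inl huv)
  rcases huv.eq_or_lt with rfl | hlt
  · exact le_rfl
  have e := huv.2
  rw [lab_lt (Cov.pt_lt hlt), ← mk_true] at e
  rcases wd_letter_mul (u.pt, v.pt) true u.gp with e1 | e1 <;> rw [← e] at e1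
  · by_cases hn : n ≤ nrm u.gp
    · rw [tr_child e1 hn]
    · have : nrm v.gp = nrm u.gp + 1 := by unfold nrm; rw [e1, List.length_cons]
      rw [tr_of_le h (by omega), tr_of_le hv (by omega)]; exact huv
  · by_cases hn : n ≤ nrm v.gp
    · rw [tr_child e1 hn]
    · have : nrm u.gp = nrm v.gp + 1 := by unfold nrm; rw [e1, List.length_cons]
      rw [tr_of_le h (by omega), tr_of_le hv (by omega)]; exact huv

theorem tr_succ {x0 : Z} (h0 : IsMin x0) {u : Cov Z} (h : InC x0 u) (n : ℕ) :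
    (Even n → tr x0 n u ≤ tr x0 (n + 1) u) ∧ (¬ Even n → tr x0 (n + 1) u ≤ tr x0 n u) := by
  by_cases hn : nrm u.gp ≤ n
  · rw [tr_of_le h hn, tr_of_le h (by omega)]
    exact ⟨fun _ => le_rfl, fun _ => le_rfl⟩
  have hk : nrm u.gp - (n + 1) < (wd u.gp).length := by unfold nrm at *; omega
  have e := List.drop_eq_getElem_cons hk
  have e2 : nrm u.gp - (n + 1) + 1 = nrm u.gp - n := by omega
  rw [e2] at e
  have hw := (R.wk h).drop (nrm u.gp - (n + 1))
  unfold tr
  rw [e] at hw ⊢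
  have hl : ((wd u.gp).drop (nrm u.gp - n)).length = n := by
    rw [List.length_drop]; unfold nrm at *; omega
  generalize (wd u.gp)[nrm u.gp - (n + 1)] = a at *
  generalize (wd u.gp).drop (nrm u.gp - n) = l at *
  have hs := tw_step hw
  have hp := hw.tail.parity h0
  rw [hl] at hp
  generalize endp x0 (a :: l) = x at *
  cases hw with
  | up h1 hlt =>
    rw [h1.endp_eq] at hp
    exact ⟨fun _ => hs.1 rfl, fun hn => absurd hlt (hp.2 hn).not_lt⟩
  | down h1 hlt =>
    rw [h1.endp_eq] at hp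
    exact ⟨fun hn => absurd hlt (hp.1 hn).not_lt, fun _ => hs.2 rfl⟩

/-- Along a fence of `n` steps the group part moves by a product of at most `n` labels. -/
theorem fence_bound (u : ℕ → Cov Z) (a n : ℕ)
    (h : ∀ i, a ≤ i → i < a + n → Cmp (u i) (u (i + 1))) :
    nrm ((u (a + n)).gp * ((u a).gp)⁻¹) ≤ n ∧
      R (u a).pt (u (a + n)).pt ((u (a + n)).gp * ((u a).gp)⁻¹) := by
  induction n with
  | zero => exact ⟨by simp [nrm_one], R.refl.of_eq (by simp)⟩
  | succ n ih =>
    obtain ⟨h1, h2⟩ := ih (fun i hi hi' => h i hi (by omega))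
    have hc := Cov.cmp_iff.1 (h (a + n) (by omega) (by omega))
    rw [← Nat.add_assoc, hc.2, mul_assoc]
    exact ⟨(nrm_mul_le _ _).trans (by have := nrm_lab (u (a + n)).pt (u (a + n + 1)).pt; omega),
      h2.step hc.1⟩

/-- A fence whose ends are as far apart as possible has no pause and no backtracking. -/
theorem tight (u : ℕ → Cov Z) (n : ℕ) (h : ∀ i, i < n → Cmp (u i) (u (i + 1)))
    (hn : n ≤ nrm ((u n).gp * ((u 0).gp)⁻¹)) :
    (∀ i, i < n → (u i).pt ≠ (u (i + 1)).pt) ∧ (∀ i, i + 2 ≤ n → (u i).pt ≠ (u (i + 2)).pt) := by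
  have key : ∀ i k, i + k ≤ n → 0 < k → (u (i + k)).gp = (u i).gp → False := by
    intro i k hik hk e
    have h1 := (fence_bound u 0 i (fun j _ hj => h j (by omega))).1
    have h2 := (fence_bound u (i + k) (n - (i + k)) (fun j _ hj => h j (by omega))).1
    rw [Nat.zero_add] at h1
    rw [Nat.add_sub_cancel' hik, e] at h2
    have h3 := nrm_mul_le ((u n).gp * ((u i).gp)⁻¹) ((u i).gp * ((u 0).gp)⁻¹)
    rw [mul_assoc, inv_mul_cancel_left] at h3
    omega
  constructor
  · intro i hi e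
    refine key i 1 hi one_pos ?_
    rw [(Cov.cmp_iff.1 (h i hi)).2, e, lab_self, one_mul]
  · intro i hi e
    refine key i 2 hi two_pos ?_
    have h1 := (Cov.cmp_iff.1 (h i (by omega))).2
    have h2 := (Cov.cmp_iff.1 (h (i + 1) (by omega))).2
    rw [show i + 2 = i + 1 + 1 from rfl] at e ⊢
    rw [h2, h1, ← e, ← mul_assoc, lab_mul_lab, one_mul]

/-- Comparable strictly ordered monotone maps into a height one set are locally constant. -/
theorem iso_lemma {A Y : Type} [PartialOrder A] [PartialOrder Y] [H1 Y] {f g : A → Y}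
    (hf : Monotone f) (hg : Monotone g) (h : ∀ z, f z < g z) {z z' : A} (hz : z ≤ z') :
    f z = f z' ∧ g z = g z' := by
  constructor
  · by_contra hc
    exact H1.no3 _ _ _ (lt_of_le_of_ne (hf hz) hc) (h z')
  · by_contra hc
    exact H1.no3 _ _ _ (h z) (lt_of_le_of_ne (hg hz) hc)

/-- Twisted powers. -/
def Nn (α : Z → Z) (a : FG Z) : ℕ → FG Z
  | 0 => 1
  | n + 1 => fm α (Nn α a n) * a

omit [PartialOrder Z] [H1 Z] in
theorem Nn_id (a : FG Z) (n : ℕ) : Nn (fun x => x) a n = a ^ n := by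
  induction n with
  | zero => rfl
  | succ n ih => rw [Nn, ih, fm_id, pow_succ]

omit [PartialOrder Z] [H1 Z] in
theorem Nn_conj (α : Z → Z) (a b : FG Z) (n : ℕ) :
    Nn α (fm α b * a * b⁻¹) n = fm (α^[n]) b * Nn α a n * b⁻¹ := by
  induction n with
  | zero => simp [Nn, fm_id b, show fm (id : Z → Z) b = b from fm_id b]
  | succ n ih =>
    rw [Nn, ih, Nn, Function.iterate_succ', ← fm_comp]
    simp only [map_mul, map_inv]
    group

omit [PartialOrder Z] [H1 Z] in
theorem nrm_Nn_of_red {α : Z → Z} (hα : Function.Injective α) {l : List (Let Z)} {c : Let Z}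
    (h : FreeGroup.IsReduced (l ++ [c]))
    (h2 : FreeGroup.IsReduced ([lm α c] ++ (l ++ [c]))) (n : ℕ) :
    nrm (Nn α (FreeGroup.mk (l ++ [c])) n) = n * (l.length + 1) := by
  have key : ∀ n, ∃ w, wd (Nn α (FreeGroup.mk (l ++ [c])) (n + 1)) = w ++ [c] ∧
      w.length + 1 = (n + 1) * (l.length + 1) := by
    intro n
    induction n with
    | zero => exact ⟨l, by rw [Nn, Nn, map_one, one_mul, wd_mk h], by simp⟩
    | succ n ih =>
      obtain ⟨w, e, hw⟩ := ih
      have hr := wd_red (Nn α (FreeGroup.mk (l ++ [c])) (n + 1))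
      rw [e] at hr
      have hr2 := red_map hα hr
      rw [List.map_append, List.map_singleton] at hr2
      have hr3 := FreeGroup.IsReduced.append_overlap hr2 h2 (by simp)
      refine ⟨w.map (lm α) ++ [lm α c] ++ l, ?_, ?_⟩
      · rw [Nn, ← mk_wd (Nn α (FreeGroup.mk (l ++ [c])) (n + 1)), e, fm_mk, FreeGroup.mul_mk,
          List.map_append, List.map_singleton, wd_mk hr3, List.append_assoc _ l]
      · simp only [List.length_append, List.length_map, List.length_singleton]
        rw [Nat.succ_mul (n + 1), ← hw]; omega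
  cases n with
  | zero => simp [Nn, nrm_one]
  | succ n =>
    obtain ⟨w, e, hw⟩ := key n
    rw [nrm, e, List.length_append, List.length_singleton, hw]

omit [H1 Z] in
theorem homog {α : Z → Z} (hα : StrictMono α) (hi : Function.Injective α) (k : ℕ) :
    ∀ {x : Z} {a : FG Z}, nrm a ≤ k → R x (α x) a →
      ∃ y b, R x y b ∧ ∀ n, nrm (Nn α (fm α b * a * b⁻¹) n) = n * nrm (fm α b * a * b⁻¹) := by
  induction k using Nat.strong_induction_on with
  | _ k ih =>
  intro x a hk h
  have hw := h.wk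
  have hr := wd_red a
  have hm := mk_wd a
  rcases List.eq_nil_or_concat (wd a) with e | ⟨l, c, e⟩
  · have : a = 1 := by rw [← hm, e]; rfl
    subst this
    refine ⟨x, 1, R.refl, fun n => ?_⟩
    have : ∀ n, Nn α (1 : FG Z) n = 1 := by
      intro n
      induction n with
      | zero => rfl
      | succ n ih => rw [Nn, ih, map_one, one_mul]
    simp [this, nrm_one]
  rw [List.concat_eq_append] at e
  rw [e] at hw hr hm
  by_cases h2 : FreeGroup.IsReduced ([lm α c] ++ (l ++ [c]))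
  · refine ⟨x, 1, R.refl, fun n => ?_⟩
    rw [map_one, one_mul, inv_one, mul_one]
    have := nrm_Nn_of_red hi hr h2 n
    rw [hm] at this
    rw [this, nrm, e, List.length_append, List.length_singleton]
  · have hc := hw.drop l.length
    rw [List.drop_left] at hc
    cases l with
    | nil =>
      exfalso
      apply h2
      simp only [List.nil_append, List.singleton_append, FreeGroup.isReduced_cons_cons]
      exact ⟨fun _ => rfl, FreeGroup.IsReduced.singleton⟩
    | cons d l =>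
      simp only [List.singleton_append, List.cons_append, FreeGroup.isReduced_cons_cons,
        List.nil_append] at h2 hr
      have h3 : (lm α c).1 = d.1 ∧ (lm α c).2 ≠ d.2 := by
        by_contra hcc
        apply h2
        refine ⟨fun h1 => ?_, hr⟩
        by_contra h3
        exact hcc ⟨h1, h3⟩
      have h4 : d = ((lm α c).1, !(lm α c).2) := by
        obtain ⟨d1, d2⟩ := d
        obtain ⟨h5, h6⟩ := h3
        simp only at h5 h6
        rw [h5]
        cases d2 <;> cases hh : (lm α c).2 <;> simp_all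
      have h5 : fm α (FreeGroup.mk [c]) * a * (FreeGroup.mk [c])⁻¹ = FreeGroup.mk l := by
        rw [← hm, List.cons_append, mk_cons d, ← FreeGroup.mul_mk, fm_mk, List.map_singleton]
        conv_lhs => rw [h4, mk_not]
        change FreeGroup.mk [lm α c] * ((FreeGroup.mk [lm α c])⁻¹ * _) * _ = _
        rw [mul_inv_cancel_left, mul_inv_cancel_right]
      have hb := hc.r
      have h6 : R (endp x [c]) (α (endp x [c])) (FreeGroup.mk l) := by
        rw [← h5]
        exact ((hb.symm.trans h).trans (hb.map hα)).of_eq (by group)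
      have h7 : nrm (FreeGroup.mk l : FG Z) < k := by
        have := nrm_mk_le l
        rw [nrm, e] at hk
        simp at hk; omega
      obtain ⟨y, b, hb1, hb2⟩ := ih _ h7 le_rfl h6
      refine ⟨y, b * FreeGroup.mk [c], hb.trans hb1, ?_⟩
      have h8 : fm α (b * FreeGroup.mk [c]) * a * (b * FreeGroup.mk [c])⁻¹
          = fm α b * FreeGroup.mk l * b⁻¹ := by
        rw [← h5, map_mul]; group
      rw [h8]; exact hb2

omit [H1 Z] in
/-- A lift of a fixed point free automorphism of finite order has infinite order. -/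
theorem Nn_ne_one {α : Z → Z} (hα : StrictMono α) (hi : Function.Injective α) {e : ℕ}
    (he : 0 < e) (hid : ∀ x, α^[e] x = x) (hfix : ∀ x, α x ≠ x) {x : Z} {a : FG Z}
    (h : R x (α x) a) : Nn α a e ≠ 1 := by
  intro h1
  obtain ⟨y, b, hb1, hb2⟩ := homog hα hi _ le_rfl h
  have h2 := hb2 e
  rw [Nn_conj, h1, fm_congr hid, fm_id, mul_one, mul_inv_cancel, nrm_one] at h2
  have h3 : nrm (fm α b * a * b⁻¹) = 0 := by
    rcases Nat.mul_eq_zero.1 h2.symm with h | h
    · omega
    · exact h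
  rw [nrm_eq_zero] at h3
  have h4 : R y (α y) (fm α b * a * b⁻¹) :=
    ((hb1.symm.trans h).trans (hb1.map hα)).of_eq (by group)
  rw [h3] at h4
  exact hfix y h4.eq_of_one.symm

omit [H1 Z] in
/-- Homogeneity of the displacement of loops. -/
theorem homog_pow {x : Z} {a : FG Z} (h : R x x a) :
    ∃ y b, R y y (b * a * b⁻¹) ∧ ∀ e, e * nrm (b * a * b⁻¹) ≤ nrm (a ^ e) := by
  obtain ⟨y, b, hb1, hb2⟩ := homog (α := fun x => x) strictMono_id Function.injective_id _ le_rfl h
  rw [fm_id] at hb2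
  refine ⟨y, b, ((hb1.symm.trans h).trans hb1).of_eq (by group), fun e => ?_⟩
  have key : ∀ k, k * (e * nrm (b * a * b⁻¹)) ≤ k * nrm (a ^ e) + 2 * nrm b := by
    intro k
    have h1 := hb2 (k * e)
    rw [Nn_id, conj_pow, Nat.mul_comm k e, pow_mul] at h1
    have h2 := nrm_mul_le (b * (a ^ e) ^ k) b⁻¹
    have h3 := nrm_mul_le b ((a ^ e) ^ k)
    have h4 := nrm_pow_le (a ^ e) k
    rw [nrm_inv] at h2
    rw [← Nat.mul_assoc, Nat.mul_comm k e, ← h1]
    omega
  by_contra hc
  have h5 := key (2 * nrm b + 1)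
  have h6 : (2 * nrm b + 1) * (nrm (a ^ e) + 1) ≤ (2 * nrm b + 1) * (e * nrm (b * a * b⁻¹)) :=
    Nat.mul_le_mul_left _ (by omega)
  rw [Nat.mul_add] at h6
  omega

end Pool.Agent.Lib.MP_6152be_co.CX
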