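import Pool.Agent.Lib.MP_6152be_co.CX.Final

set_option autoImplicit false

/-! Explicit holonomies that satisfy the finite conditions. -/

namespace Pool.Agent.Lib.MP_6152be_co.CX

open Classical in
/-- The holonomy along the half edge from `p` towards `q` is `H p q`. -/
noncomputable def rho0 (H : Fin 4 → Fin 4 → PV) (c : MM × MM) : PV :=
  if h : ∃ e : Fin 4 × Fin 4, e.1 ≠ e.2 ∧ c = (vx 0 e.1, pt 0 e.1 e.2 1) then
    H h.choose.1 h.choose.2 else 1

theorem rho0_eq (H : Fin 4 → Fin 4 → PV) {p q : Fin 4} (h : p ≠ q) :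
    rho0 H (vx 0 p, pt 0 p q 1) = H p q := by
  have h1 : ∃ e : Fin 4 × Fin 4, e.1 ≠ e.2 ∧
      ((vx 0 p, pt 0 p q 1) : MM × MM) = (vx 0 e.1, pt 0 e.1 e.2 1) := ⟨(p, q), h, rfl⟩
  rw [rho0, dif_pos h1]
  obtain ⟨h2, h3⟩ := h1.choose_spec
  generalize h1.choose = e at h2 h3
  have e1 := vx_inj (congrArg Prod.fst h3)
  rcases pt_eq_pt h h2 one_pos (LL_two 0) (LL_pos 0) (congrArg Prod.snd h3) with
    ⟨a1, a2, -⟩ | ⟨a1, -, -⟩
  · rw [a1, a2]
  · exact absurd (e1.trans a1) h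

/-- The holonomy homomorphism. -/
noncomputable def rhoH (H : Fin 4 → Fin 4 → PV) : FG MM →* PV := FreeGroup.lift (rho0 H)

theorem rhoH_lab (H : Fin 4 → Fin 4 → PV) {p q : Fin 4} (h : p ≠ q) :
    rhoH H (lab (vx 0 p) (pt 0 p q 1)) = H p q := by
  have : (vx 0 p : MM) < pt 0 p q 1 :=
    lt_iff_up.2 ⟨p, q, 0, h, LL_pos 0, rfl, (pt_zero _ _).symm, rfl⟩
  rw [lab_lt this, rhoH, FreeGroup.lift_apply_of, rho0_eq H h]

theorem rhoH_seg (H : Fin 4 → Fin 4 → PV) {p q : Fin 4} (h : p ≠ q) :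
    rhoH H (seg 0 p q (LL 0)) = (H q p)⁻¹ * H p q := by
  change rhoH H (lab (pt 0 p q 1) (pt 0 p q (LL 0)) * (lab (pt 0 p q 0) (pt 0 p q 1) * 1)) = _
  rw [mul_one, map_mul, pt_zero, rhoH_lab H h, pt_last h, lab_symm, map_inv, pt_flip h (LL_pos 0)]
  exact congrArg (fun t => t⁻¹ * H p q) (rhoH_lab H h.symm)

/-- The holonomy around a triangle. -/
def TH (H : Fin 4 → Fin 4 → PV) (p q s : Fin 4) : PV :=
  (H p s)⁻¹ * H s p * ((H s q)⁻¹ * H q s) * ((H q p)⁻¹ * H p q)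

theorem rhoH_tri (H : Fin 4 → Fin 4 → PV) {p q s : Fin 4} (h1 : p ≠ q) (h2 : p ≠ s)
    (h3 : q ≠ s) : rhoH H (tri 0 p q s) = TH H p q s := by
  rw [tri_eq h1 h2 h3, map_mul, map_mul, rhoH_seg H h1, rhoH_seg H h3, rhoH_seg H h2.symm, TH]

/-- The value of a positive word. -/
def ev {G : Type} [Monoid G] (g : Fin 3 → G) : List (Fin 3) → G
  | [] => 1
  | k :: l => g k * ev g l

theorem map_ev {G G' : Type} [Monoid G] [Monoid G'] (f : G →* G') (g : Fin 3 → G)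
    (l : List (Fin 3)) : f (ev g l) = ev (fun k => f (g k)) l := by
  induction l with
  | nil => exact map_one _
  | cons k l ih => rw [ev, ev, map_mul, ih]

/-- Three triangles at the base vertex. -/
noncomputable def gens : Fin 3 → FG MM := ![tri 0 0 1 2, tri 0 0 2 3, tri 0 0 3 1]

theorem ev_R (l : List (Fin 3)) : R x0 x0 (ev gens l) := by
  induction l with
  | nil => exact R.refl
  | cons k l ih =>
    refine ih.trans ?_
    fin_cases k <;> exact tri_R (by decide) (by decide) (by decide)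

/-- The holonomies around the images of the three triangles. -/
def gT (H : Fin 4 → Fin 4 → PV) (a b c d : Fin 4) : Fin 3 → PV :=
  ![TH H a b c, TH H a c d, TH H a d b]

theorem rho_ev (H : Fin 4 → Fin 4 → PV) (σ : Equiv.Perm (Fin 4)) (l : List (Fin 3)) :
    rhoH H (pm 0 σ (ev gens l)) = ev (gT H (σ 0) (σ 1) (σ 2) (σ 3)) l := by
  rw [map_ev, map_ev]
  congr 1
  funext k
  fin_cases k
  all_goals
    simp only [gens, gT, Fin.zero_eta, Fin.mk_one, Fin.reduceFinMk, Matrix.cons_val]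
    rw [pm_tri σ (by decide) (by decide) (by decide), rhoH_tri H (σ.injective.ne (by decide))
      (σ.injective.ne (by decide)) (σ.injective.ne (by decide))]

theorem hyp_of (H : Bool → Fin 4 → Fin 4 → PV) (t : Bool → Equiv.Perm (Fin 4))
    (w1 w2 : List (Fin 3)) (u : Bool → List (List (Fin 3)))
    (h1 : ∀ b v, ev (gT (H b) (t b 0) (t b 1) (t b 2) (t b 3)) w1 v = finRotate 6 v)
    (h2 : ∀ b v, ev (gT (H b) (t b 0) (t b 1) (t b 2) (t b 3)) w2 v = Equiv.swap 0 1 v)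
    (h3 : ∀ b p q s, p ≠ q → p ≠ s → q ≠ s →
      ∀ v, TH (H b) p q s (TH (H b) p q s v) ≠ v ∧ (TH (H b) p q s ^ 6) v = v)
    (h4 : ∀ b, ∀ l ∈ u b, ev (gT (H b) (t b 0) (t b 1) (t b 2) (t b 3)) l 0 = 0)
    (h5 : ∀ b b' (p q r s : Fin 4), [p, q, r, s].Nodup → ∀ v,
      (∀ l ∈ u b, ev (gT (H b') (t b' p) (t b' q) (t b' r) (t b' s)) l v = v) →
        b = b' ∧ [p, q, r, s] = [0, 1, 2, 3] ∧ v = 0) :
    Hyp fun b => (rhoH (H b)).comp (pm 0 (t b)) := by
  have c1 : ∀ σ : PV, ∃ δ, R x0 x0 δ ∧ ∀ b, (rhoH (H b)).comp (pm 0 (t b)) δ = σ := by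
    let S : Subgroup PV :=
      { carrier := {σ | ∃ δ, R x0 x0 δ ∧ ∀ b, (rhoH (H b)).comp (pm 0 (t b)) δ = σ}
        mul_mem' := by
          rintro _ _ ⟨δ, a1, a2⟩ ⟨δ', a3, a4⟩
          exact ⟨δ * δ', a3.trans a1, fun b => by rw [map_mul, a2, a4]⟩
        one_mem' := ⟨1, R.refl, fun b => map_one _⟩
        inv_mem' := by
          rintro _ ⟨δ, a1, a2⟩
          exact ⟨δ⁻¹, a1.symm, fun b => by rw [map_inv, a2]⟩ }
    have h := Equiv.Perm.closure_cycle_adjacent_swap (isCycle_finRotate (n := 4))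
      (support_finRotate (n := 4)) 0
    have h' : Subgroup.closure {finRotate 6, Equiv.swap 0 (finRotate 6 0)} ≤ S := by
      rw [Subgroup.closure_le]
      rintro _ (rfl | rfl)
      · exact ⟨_, ev_R w1, fun b => (rho_ev _ _ _).trans (Equiv.ext (h1 b))⟩
      · exact ⟨_, ev_R w2, fun b => (rho_ev _ _ _).trans (Equiv.ext (h2 b))⟩
    intro σ
    exact h' (h ▸ Subgroup.mem_top σ)
  refine ⟨c1, fun b p q s a1 a2 a3 => ?_, fun b b' σ ω h => ?_⟩
  · have b1 := (t b).injective.ne a1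
    have b2 := (t b).injective.ne a2
    have b3 := (t b).injective.ne a3
    rw [MonoidHom.comp_apply, pm_tri _ a1 a2 a3, rhoH_tri _ b1 b2 b3]
    exact ⟨fun v => (h3 b _ _ _ b1 b2 b3 v).1, Equiv.ext fun v => (h3 b _ _ _ b1 b2 b3 v).2⟩
  · obtain ⟨rfl, e0, e4⟩ := h5 b b' (σ 0) (σ 1) (σ 2) (σ 3)
      (List.Nodup.map (l := [0, 1, 2, 3]) σ.injective (by decide))
      (ω 0) fun l hl => by
        have := h _ (ev_R l)
        rw [MonoidHom.comp_apply, MonoidHom.comp_apply, ← pm_mul, rho_ev, rho_ev] at this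
        simp only [Equiv.Perm.mul_apply] at this
        rw [this]
        simp [h4 b l hl]
    have e : σ = 1 := by
      simp only [List.cons.injEq, and_true] at e0
      obtain ⟨e0, e1, e2, e3⟩ := e0
      ext i
      fin_cases i <;> simp [e0, e1, e2, e3]
    refine ⟨rfl, e, Equiv.ext fun x => ?_⟩
    obtain ⟨δ, a1, a2⟩ := c1 (Equiv.swap 0 x)
    have := congrArg (fun π : PV => π (ω 0)) (h δ a1)
    simp only [e, pm_one, a2, Equiv.Perm.mul_apply, Equiv.Perm.coe_inv,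
      Equiv.symm_apply_apply] at this
    simpa [e4] using this.symm

/-- First holonomy. -/
def pA : Bool → PV
  | false => ⟨![5, 0, 3, 4, 1, 2], ![1, 4, 5, 2, 3, 0], by decide, by decide⟩
  | true => ⟨![5, 2, 4, 1, 0, 3], ![4, 3, 1, 5, 2, 0], by decide, by decide⟩

/-- Second holonomy. -/
def pB : Bool → PV
  | false => ⟨![2, 0, 1, 5, 3, 4], ![1, 2, 0, 4, 5, 3], by decide, by decide⟩
  | true => ⟨![2, 4, 3, 5, 0, 1], ![4, 5, 0, 2, 1, 3], by decide, by decide⟩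

/-- Third holonomy. -/
def pC : Bool → PV
  | false => ⟨![5, 0, 3, 4, 2, 1], ![1, 5, 4, 2, 3, 0], by decide, by decide⟩
  | true => ⟨![4, 2, 5, 0, 1, 3], ![3, 4, 1, 5, 0, 2], by decide, by decide⟩

/-- The holonomies of the half edges. -/
def HH (b : Bool) (p q : Fin 4) : PV :=
  if p = 1 ∧ q = 2 then pA b else if p = 2 ∧ q = 3 then pB b else if p = 3 ∧ q = 1 then pC b else 1

/-- The rotation of the base graph. -/
def nu : Equiv.Perm (Fin 4) := ⟨![1, 2, 3, 0], ![3, 0, 1, 2], by decide, by decide⟩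

/-- The twist used for the second factor. -/
def tQ : Bool → Equiv.Perm (Fin 4)
  | false => 1
  | true => nu

theorem hyp_P : Hyp fun b => (rhoH (HH b)).comp (pm 0 1) :=
  hyp_of HH (fun _ => 1) [0, 0, 1, 1, 1, 2, 0, 1, 1, 0, 0, 0, 0]
    [1, 1, 1, 2, 0, 0, 2, 1, 0, 1, 0, 2, 0]
    (fun b => if b then [[0, 1, 0, 1, 1], [0, 0, 0, 2, 2], [2, 0, 0]]
      else [[1, 1, 2, 1, 2], [0, 1, 0, 0]])
    (by decide +kernel) (by decide +kernel) (by decide +kernel) (by decide +kernel)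
    (by decide +kernel)

theorem hyp_Q : Hyp fun b => (rhoH (HH b)).comp (pm 0 (tQ b)) :=
  hyp_of HH tQ [0, 0, 2, 0, 2, 2, 2, 1, 1, 0, 0, 0, 0] [1, 0, 1, 1, 2, 1, 0, 2, 0, 1, 2, 0, 0]
    (fun b => if b then [[1, 0, 2, 1, 2, 0], [1, 1, 2, 1, 2, 1]]
      else [[1, 1, 2, 1, 2], [0, 1, 0, 0]])
    (by decide +kernel) (by decide +kernel) (by decide +kernel) (by decide +kernel)
    (by decide +kernel)

end Pool.Agent.Lib.MP_6152be_co.CX
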