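import Pool.Agent.Lib.MP_6152be_co.CX.CL2

set_option autoImplicit false

/-! The twisted products have the connected fixed point property. -/

namespace Pool.Agent.Lib.MP_6152be_co.CX

variable {I J : Type} {D : Dat I J}

theorem no_lift (H : Hyp D.ρ) (W : Ultrafilter I) {B : PP D → MM}
    (hB : ∀ z, ∀ᶠ i in (W : Filter I), B z = z.m i) {γ : PP D → FG MM} (hγ : Lifts B γ) :
    False := by
  have hm := PH.lim1_mono (J := J) W
  obtain ⟨c, hc⟩ := (cH I J).lift_unique (lifts_of_mono hm)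
    ((hγ.comp (t := fun y : PH I J => proj D y.1) fun _ _ h => proj_mono D h).congr fun y => by
      obtain ⟨i, e1, e2⟩ := ((hB (proj D y.1)).and (PH.lim1 W y)).exists
      rw [e1, ← e2]; rfl)
  have a1 : (0 : Fin 4) ≠ 1 := by decide
  have a2 : (0 : Fin 4) ≠ 2 := by decide
  have a3 : (1 : Fin 4) ≠ 2 := by decide
  obtain ⟨g, hg⟩ := exists_gel D (fun _ => tri 0 0 1 2) (fun _ => tri_R a1 a2 a3)
    ⟨_, fun _ => le_rfl⟩
  have e1 := hc (g.act (cH I J).a0)
  have e2 : ulim W (g.act (cH I J).a0).1.1 = ⟨(ulim W (cH I J).a0.1.1).pt,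
      (ulim W (cH I J).a0.1.1).gp * tri 0 0 1 2⟩ := by
    refine ulim_eq ?_
    filter_upwards [PH.lim1 W (cH I J).a0] with i e
    simp only [Gel.act, hg, e]
  simp only [g.proj_act, e2] at e1
  rw [hc, mul_left_inj, left_eq_mul] at e1
  refine (H.c2 true 0 1 2 a1 a2 a3).1.ne_one ?_
  rw [e1, map_one]

theorem ultra_unique {W W' : Ultrafilter I} {B : PP D → MM}
    (h : ∀ z, ∀ᶠ i in (W : Filter I), B z = z.m i)
    (h' : ∀ z, ∀ᶠ i in (W' : Filter I), B z = z.m i) : W' = W := by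
  refine Ultrafilter.coe_le_coe.1 fun S hS => ?_
  let z : PP D := ⟨ind S x0 fun _ => vx 0 1, fun _ => f0⟩
  obtain ⟨i, e1, e2⟩ := ((h z).and hS).exists
  filter_upwards [h' z] with i' e3
  by_contra hc
  rw [e1] at e3
  simp only [z, ind_mem e2, ind_not hc] at e3
  exact absurd (vx_inj e3) (by decide)

theorem normalize {Z : Type} [PartialOrder Z] [H1 Z] {x : Z} {N : ℕ}
    (hx : ∀ y, ∃ g, R x y g ∧ nrm g ≤ N) (hs : ∀ z : PP D, ∃ y, Bl N y ∧ proj D y = z)
    {f : PP D → Z} (hf : Monotone f) {γ : PP D → FG Z} (h : Lifts f γ) :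
    ∃ γ', Lifts f γ' ∧ ∀ z, R x (f z) (γ' z) ∧ nrm (γ' z) ≤ N + N := by
  obtain ⟨g, hg1, hg2⟩ := hx (f (proj D bas))
  refine ⟨_, h.mul_const ((γ (proj D bas))⁻¹ * g), fun z => ?_⟩
  obtain ⟨y, hy, rfl⟩ := hs z
  obtain ⟨h1, h2⟩ := (cS I J N).lift_base (f := fun y : PS I J N => f (proj D y.1))
    (fun _ _ h => hf (proj_mono D h))
    (h.comp (t := fun y : PS I J N => proj D y.1) fun _ _ h => proj_mono D h) ⟨y, hy⟩
    (N := N) (Subtype.ext (trR_of_le hy le_rfl))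
  rw [← mul_assoc]
  exact ⟨hg1.trans h2, (nrm_mul_le _ _).trans (Nat.add_le_add h1 hg2)⟩

theorem lim_ball {K Z : Type} [PartialOrder Z] [Finite Z] [Inhabited Z] {x : Z} {N : ℕ}
    {w : K → Cov Z} (h : ∀ k, InC x (w k) ∧ nrm (w k).gp ≤ N) (W : Ultrafilter K) :
    ∀ᶠ k in (W : Filter K), w k = ulim W w :=
  ulim_spec (finite_ball N) (Filter.Eventually.of_forall fun k => (h k).2)

theorem cfpp_PP (H : Hyp D.ρ) (hU : ∀ i, ∃ j, D.U j = pure i) : CFPP (PP D) := by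
  classical
  intro φ hφ
  obtain ⟨N0, s, hs, hx, hf⟩ := exists_sec D
  have hs' : ∀ z : PP D, ∃ y, Bl N0 y ∧ proj D y = z := fun z => ⟨_, hs z⟩
  let Bj : J → PP D → MM := fun j z => ulim (D.U j) (φ z).m
  have hBj : ∀ j z, ∀ᶠ i in (D.U j : Filter I), (φ z).m i = Bj j z := fun j z => ulim_fin _ _
  have mBj : ∀ j, Monotone (Bj j) := fun j z z' h => by
    obtain ⟨i, e1, e2⟩ := ((hBj j z).and (hBj j z')).exists
    rw [← e1, ← e2]; exact (hφ h).1 i
  have aBj : ∀ j z z', z ≤ z' →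
      D.ρ (D.τ j) (lab (Bj j z) (Bj j z')) • (φ z).a j ≤ (φ z').a j := fun j z z' h => by
    obtain ⟨i, e1, e2, e3⟩ := ((hBj j z).and ((hBj j z').and ((hφ h).2 j))).exists
    rwa [← e1, ← e2]
  have CL := fun j => classify H (D.τ j) (mBj j) (aBj j)
  let NS : Set I := {i | ∃ γ, Lifts (fun z => (φ z).m i) γ}
  have c1 : ∀ i, ∃ γ : PP D → FG MM, (∀ z, nrm (γ z) ≤ N0 + N0) ∧
      (i ∈ NS → Lifts (fun z => (φ z).m i) γ ∧ ∀ z, R x0 ((φ z).m i) (γ z)) := by
    intro i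
    by_cases hi : i ∈ NS
    · obtain ⟨γ, hγ⟩ := hi
      obtain ⟨γ', h1, h2⟩ := normalize hx hs' (fun _ _ h => (hφ h).1 i) hγ
      exact ⟨γ', fun z => (h2 z).2, fun _ => ⟨h1, fun z => (h2 z).1⟩⟩
    · exact ⟨fun _ => 1, fun _ => Nat.zero_le _, fun h => absurd h hi⟩
  choose γ hγ1 hγ2 using c1
  have c2 : ∀ i, ∃ V : Ultrafilter I, i ∉ NS → ∀ z, ∀ᶠ i' in (V : Filter I), (φ z).m i = z.m i' := by
    intro i
    obtain ⟨j, hj⟩ := hU i
    have e : ∀ z, Bj j z = (φ z).m i := fun z => by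
      have := hBj j z
      rw [hj] at this
      exact (Filter.eventually_pure.1 this).symm
    rcases CL j with ⟨⟨γ, h⟩, -⟩ | ⟨W, -, h⟩
    · exact ⟨pure i, fun hi => absurd ⟨γ, h.congr e⟩ hi⟩
    · refine ⟨W.bind D.U, fun _ z => (ev_bind _ _ _).2 ((h z).mono fun j' h' => ?_)⟩
      simpa only [e] using h'.2
  choose V hV using c2
  let γj : J → PP D → FG MM := fun j z => ulim (D.U j) fun i => γ i z
  have hγj : ∀ j z, ∀ᶠ i in (D.U j : Filter I), γ i z = γj j z := fun j z =>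
    ulim_spec (finite_nrm_le (N0 + N0)) (Filter.Eventually.of_forall fun i => hγ1 i z)
  have lγj : ∀ j, NS ∈ D.U j → Lifts (Bj j) (γj j) := fun j hj z z' h => by
    obtain ⟨i, e0, e1, e2, e3, e4⟩ := (Filter.Eventually.and hj ((hBj j z).and ((hBj j z').and
      ((hγj j z).and (hγj j z'))))).exists
    rw [← e1, ← e2, ← e3, ← e4]
    exact (hγ2 i e0).1 z z' h
  let Ψ : J → PP D → FF := fun j z => (D.ρ (D.τ j) (γj j z))⁻¹ • (φ z).a j
  have c3 : ∀ j, ∃ κ : PP D → FG FF, NS ∈ D.U j →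
      Lifts (Ψ j) κ ∧ ∀ z, R f0 (Ψ j z) (κ z) ∧ nrm (κ z) ≤ N0 + N0 := by
    intro j
    by_cases hj : NS ∈ D.U j
    · rcases CL j with ⟨-, h⟩ | ⟨W, -, h⟩
      · obtain ⟨κ, hκ⟩ := h _ (lγj j hj)
        obtain ⟨κ', h1⟩ := normalize hf hs' (psi_mono _ (aBj j) (lγj j hj)) hκ
        exact ⟨κ', fun _ => h1⟩
      · exact (no_lift H (W.bind D.U)
          (fun z => (ev_bind _ _ _).2 ((h z).mono fun _ h' => h'.2)) (lγj j hj)).elim
    · exact ⟨fun _ => 1, fun h => absurd h hj⟩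
  choose κ hκ using c3
  have c4 : ∀ j, ∃ W : Ultrafilter J, NS ∉ D.U j → (∀ᶠ j' in (W : Filter J), D.τ j' = D.τ j) ∧
      (∀ z, ∀ᶠ j' in (W : Filter J), (φ z).a j = z.a j') ∧ W.bind D.U = (D.U j).bind V := by
    intro j
    by_cases hj : NS ∈ D.U j
    · exact ⟨pure j, fun h => absurd hj h⟩
    have e : ∀ z, ∀ᶠ i in ((D.U j).bind V : Filter I), Bj j z = z.m i := fun z => by
      rw [ev_bind]
      filter_upwards [Ultrafilter.compl_mem_iff_notMem.2 hj, hBj j z] with i e1 e2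
      rw [← e2]; exact hV i e1 z
    rcases CL j with ⟨⟨γ, h⟩, -⟩ | ⟨W, h1, h⟩
    · exact (no_lift H _ e h).elim
    · exact ⟨W, fun _ => ⟨h1, fun z => (h z).mono fun _ h' => h'.1,
        ultra_unique e fun z => (ev_bind _ _ _).2 ((h z).mono fun _ h' => h'.2)⟩⟩
  choose W hW using c4
  let F1 : Raw I J → I → Cov MM := fun y i =>
    if i ∈ NS then ⟨(φ (proj D y)).m i, γ i (proj D y)⟩ else ulim (V i) y.1
  let F2 : Raw I J → J → Cov FF := fun y j =>
    if NS ∈ D.U j then ⟨Ψ j (proj D y), κ j (proj D y)⟩ else ulim (W j) y.2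
  have hF : ∀ y, Bl (N0 + N0) y → Bl (N0 + N0) (F1 y, F2 y) := by
    intro y hy
    refine ⟨fun i => ?_, fun j => ?_⟩
    · by_cases hi : i ∈ NS
      · simp only [F1, if_pos hi]
        exact ⟨(hγ2 i hi).2 _, hγ1 i _⟩
      · simp only [F1, if_neg hi]
        obtain ⟨i', e⟩ := (lim_ball hy.1 (V i)).exists
        rw [← e]; exact hy.1 i'
    · by_cases hj : NS ∈ D.U j
      · simp only [F2, if_pos hj]
        exact (hκ j hj).2 _
      · simp only [F2, if_neg hj]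
        obtain ⟨j', e⟩ := (lim_ball hy.2 (W j)).exists
        rw [← e]; exact hy.2 j'
  have mF : ∀ y y', Bl (N0 + N0) y → Bl (N0 + N0) y' → y ≤ y' →
      ((F1 y, F2 y) : Raw I J) ≤ (F1 y', F2 y') := by
    intro y y' hy hy' h
    have h' := proj_mono D h
    refine ⟨fun i => ?_, fun j => ?_⟩
    · by_cases hi : i ∈ NS
      · simp only [F1, if_pos hi]
        exact ⟨(hφ h').1 i, (hγ2 i hi).1 _ _ h'⟩
      · simp only [F1, if_neg hi]
        obtain ⟨i', e, e'⟩ := ((lim_ball hy.1 (V i)).and (lim_ball hy'.1 (V i))).exists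
        rw [← e, ← e']; exact h.1 i'
    · by_cases hj : NS ∈ D.U j
      · simp only [F2, if_pos hj]
        exact ⟨psi_mono _ (aBj j) (lγj j hj) h', (hκ j hj).1 _ _ h'⟩
      · simp only [F2, if_neg hj]
        obtain ⟨j', e, e'⟩ := ((lim_ball hy.2 (W j)).and (lim_ball hy'.2 (W j))).exists
        rw [← e, ← e']; exact h.2 j'
  have pF : ∀ y, Bl (N0 + N0) y → proj D (F1 y, F2 y) = φ (proj D y) := by
    intro y hy
    refine PP.ext (funext fun i => ?_) (funext fun j => ?_)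
    · change (F1 y i).pt = _
      by_cases hi : i ∈ NS
      · simp only [F1, if_pos hi]
      · simp only [F1, if_neg hi]
        obtain ⟨i', e, e'⟩ := ((lim_ball hy.1 (V i)).and (hV i hi (proj D y))).exists
        rw [← e, e']; rfl
    · change hol D j (fun i => (F1 y i).gp) • (F2 y j).pt = _
      by_cases hj : NS ∈ D.U j
      · rw [hol_eq D (c := γj j (proj D y)) (by
          filter_upwards [hj, hγj j (proj D y)] with i e1 e2
          simp only [F1, if_pos e1, e2])]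
        simp only [F2, if_pos hj, Ψ, smul_inv_smul]
      · obtain ⟨w1, w2, w3⟩ := hW j hj
        have l1 := lim_ball hy.1 ((D.U j).bind V)
        rw [hol_eq D (c := (ulim ((D.U j).bind V) y.1).gp) (by
          filter_upwards [Ultrafilter.compl_mem_iff_notMem.2 hj, (ev_bind _ _ _).1 l1] with i e1 e2
          simp only [F1, if_neg e1, ulim_eq e2])]
        rw [← w3] at l1 ⊢
        obtain ⟨j', e1, e2, e3, e4⟩ := (w1.and ((w2 (proj D y)).and ((lim_ball hy.2 (W j)).and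
          ((ev_bind _ _ _).1 l1)))).exists
        simp only [F2, if_neg hj]
        rw [e2, ← e3, ← e1]
        change _ = hol D j' _ • _
        rw [hol_eq D (c := (ulim ((W j).bind D.U) y.1).gp) (e4.mono fun i e => by rw [e])]
  let F : PS I J (N0 + N0) → PS I J (N0 + N0) := fun y => ⟨(F1 y.1, F2 y.1), hF _ y.2⟩
  refine isConn_transfer (cfpp_PS I J _ F fun y y' h => mF _ _ y.2 y'.2 h)
    (fun y => proj D y.1) (fun y hy => ?_) (fun _ _ _ _ h => proj_mono D h) (fun z hz => ?_)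
  · have := pF _ y.2
    change proj D (F y).1 = _ at this
    rw [hy] at this
    exact this.symm
  have hz' : φ z = z := hz
  obtain ⟨w, hw1, hw2⟩ := exists_fixed_ulim (finite_ball (N0 + N0))
    (fun i => {u : Cov MM | (InC x0 u ∧ nrm u.gp ≤ N0 + N0) ∧ u.pt = z.m i})
    (fun i u hu => hu.1.2) (fun i => by
      obtain ⟨g, h1, h2⟩ := hx (z.m i)
      exact ⟨⟨z.m i, g⟩, ⟨h1, h2.trans (Nat.le_add_right _ _)⟩, rfl⟩)
    (fun w i => if i ∈ NS then ⟨z.m i, γ i z⟩ else ulim (V i) w)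
    (fun i => by
      by_cases hi : i ∈ NS
      · exact Or.inl ⟨_, fun w _ => if_pos hi⟩
      · exact Or.inr ⟨_, fun w _ => if_neg hi⟩)
    (fun w hw i => by
      by_cases hi : i ∈ NS
      · simp only [if_pos hi]
        have := (hγ2 i hi).2 z
        rw [hz'] at this
        exact ⟨⟨this, hγ1 i z⟩, rfl⟩
      · simp only [if_neg hi]
        obtain ⟨i', e, e'⟩ := ((lim_ball (fun k => (hw k).1) (V i)).and (hV i hi z)).exists
        rw [← e]
        rw [hz'] at e'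
        exact ⟨(hw i').1, (hw i').2.trans e'.symm⟩)
  let T : J → Set (Cov FF) := fun j =>
    {u | (InC f0 u ∧ nrm u.gp ≤ N0 + N0) ∧ hol D j (fun i => (w i).gp) • u.pt = z.a j}
  have hT : ∀ a, (∀ j, a j ∈ T j) → Bl (N0 + N0) (w, a) ∧ proj D (w, a) = z ∧ F1 (w, a) = w := by
    intro a ha
    have e : proj D (w, a) = z := PP.ext (funext fun i => (hw1 i).2) (funext fun j => (ha j).2)
    refine ⟨⟨fun i => (hw1 i).1, fun j => (ha j).1⟩, e, ?_⟩
    simp only [F1, e, hz']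
    exact hw2
  obtain ⟨a, ha1, ha2⟩ := exists_fixed_ulim (finite_ball (N0 + N0)) T
    (fun j u hu => hu.1.2) (fun j => by
      obtain ⟨g, h1, h2⟩ := hf ((hol D j fun i => (w i).gp)⁻¹ • z.a j)
      exact ⟨⟨_, g⟩, ⟨h1, h2.trans (Nat.le_add_right _ _)⟩, smul_inv_smul _ _⟩)
    (fun a => F2 (w, a))
    (fun j => by
      by_cases hj : NS ∈ D.U j
      · exact Or.inl ⟨⟨Ψ j z, κ j z⟩, fun a ha => by simp only [F2, if_pos hj, (hT a ha).2.1]⟩
      · exact Or.inr ⟨_, fun a _ => if_neg hj⟩)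
    (fun a ha j => by
      obtain ⟨h1, h2, h3⟩ := hT a ha
      have h4 := pF _ h1
      rw [h2, hz', h3] at h4
      exact ⟨(hF _ h1).2 j, congrFun (congrArg PP.a h4) j⟩)
  obtain ⟨h1, h2, h3⟩ := hT a ha1
  exact ⟨⟨(w, a), h1⟩, Subtype.ext (Prod.ext h3 ha2), by rw [h2]; exact Cmp.rfl⟩

end Pool.Agent.Lib.MP_6152be_co.CX
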