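import Mathlib

set_option autoImplicit false

/-! Ordered sets of height one, labels in a free group, walks and the covering ordered set. -/

namespace Pool.Agent.Lib.MP_6152be_co.CX

/-- The free group on pairs of points. -/
abbrev FG (Z : Type) := FreeGroup (Z × Z)

/-- Letters of words of `FG Z`. -/
abbrev Let (Z : Type) := (Z × Z) × Bool

/-- No chain with three elements. -/
class H1 (Z : Type) [PartialOrder Z] : Prop where
  no3 : ∀ x y z : Z, x < y → y < z → False

/-- Comparability. -/
def Cmp {Z : Type} [PartialOrder Z] (x y : Z) : Prop := x ≤ y ∨ y ≤ x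

theorem Cmp.symm {Z : Type} [PartialOrder Z] {x y : Z} (h : Cmp x y) : Cmp y x := Or.symm h

theorem Cmp.rfl {Z : Type} [PartialOrder Z] {x : Z} : Cmp x x := Or.inl le_rfl

/-- The reduced word of a group element. -/
noncomputable def wd {Z : Type} (g : FG Z) : List (Let Z) :=
  @FreeGroup.toWord _ (Classical.decEq _) g

/-- The length of the reduced word. -/
noncomputable def nrm {Z : Type} (g : FG Z) : ℕ := (wd g).length

section words
variable {Z : Type}

theorem mk_wd (g : FG Z) : FreeGroup.mk (wd g) = g := by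
  classical
  unfold wd
  exact @FreeGroup.mk_toWord _ (Classical.decEq _) g

theorem wd_red (g : FG Z) : FreeGroup.IsReduced (wd g) :=
  @FreeGroup.isReduced_toWord _ (Classical.decEq _) g

theorem wd_mk {l : List (Let Z)} (h : FreeGroup.IsReduced l) : wd (FreeGroup.mk l) = l := by
  unfold wd
  rw [@FreeGroup.toWord_mk _ _ (Classical.decEq _)]
  exact @FreeGroup.IsReduced.reduce_eq _ _ (Classical.decEq _) h

theorem wd_inj : Function.Injective (wd : FG Z → List (Let Z)) :=
  @FreeGroup.toWord_injective _ (Classical.decEq _)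

theorem wd_one : wd (1 : FG Z) = [] := rfl

theorem nrm_one : nrm (1 : FG Z) = 0 := rfl

theorem nrm_mul_le (g h : FG Z) : nrm (g * h) ≤ nrm g + nrm h :=
  @FreeGroup.norm_mul_le _ (Classical.decEq _) g h

theorem nrm_inv (g : FG Z) : nrm g⁻¹ = nrm g :=
  @FreeGroup.norm_inv_eq _ (Classical.decEq _) g

theorem nrm_eq_zero {g : FG Z} : nrm g = 0 ↔ g = 1 :=
  @FreeGroup.norm_eq_zero _ (Classical.decEq _) g

theorem nrm_of (a : Z × Z) : nrm (FreeGroup.of a : FG Z) = 1 := rfl

theorem nrm_mk_le (l : List (Let Z)) : nrm (FreeGroup.mk l : FG Z) ≤ l.length :=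
  @FreeGroup.norm_mk_le _ l (Classical.decEq _)

theorem nrm_pow_le (g : FG Z) (n : ℕ) : nrm (g ^ n) ≤ n * nrm g := by
  induction n with
  | zero => simp [nrm_one]
  | succ n ih =>
    rw [pow_succ, Nat.succ_mul]
    exact (nrm_mul_le _ _).trans (by omega)

theorem mk_cons (a : Let Z) (l : List (Let Z)) :
    (FreeGroup.mk (a :: l) : FG Z) = FreeGroup.mk [a] * FreeGroup.mk l := by
  rw [FreeGroup.mul_mk]; rfl

theorem mk_true (a : Z × Z) : (FreeGroup.mk [(a, true)] : FG Z) = FreeGroup.of a := rfl

theorem mk_false (a : Z × Z) : (FreeGroup.mk [(a, false)] : FG Z) = (FreeGroup.of a)⁻¹ := by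
  rw [← mk_true, FreeGroup.inv_mk]; rfl

theorem mk_not (a : Z × Z) (b : Bool) :
    (FreeGroup.mk [(a, !b)] : FG Z) = (FreeGroup.mk [(a, b)])⁻¹ := by
  cases b
  · simp only [Bool.not_false, mk_true, mk_false, inv_inv]
  · simp only [Bool.not_true, mk_true, mk_false]

theorem red_tail {a : Let Z} {l : List (Let Z)} (h : FreeGroup.IsReduced (a :: l)) :
    FreeGroup.IsReduced l := List.IsChain.tail h

theorem red_drop {l : List (Let Z)} (h : FreeGroup.IsReduced l) (k : ℕ) :
    FreeGroup.IsReduced (l.drop k) := List.IsChain.drop h k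

/-- Multiplying by one letter on the left either adds the letter or cancels the first one. -/
theorem wd_letter_mul (a : Z × Z) (b : Bool) (g : FG Z) :
    wd (FreeGroup.mk [(a, b)] * g) = (a, b) :: wd g ∨
      wd g = (a, !b) :: wd (FreeGroup.mk [(a, b)] * g) := by
  by_cases h : FreeGroup.IsReduced ((a, b) :: wd g)
  · left
    rw [← wd_mk h, mk_cons (a, b) (wd g), mk_wd]
  · right
    have hr := wd_red g
    have hm := mk_wd g
    cases hl : wd g with
    | nil => rw [hl] at h; exact absurd FreeGroup.IsReduced.singleton h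
    | cons c l =>
      rw [hl] at h hr hm
      rw [FreeGroup.isReduced_cons_cons] at h
      have h2 : a = c.1 ∧ b ≠ c.2 := by
        by_contra hc
        apply h
        refine ⟨fun h1 => ?_, hr⟩
        by_contra h3
        exact hc ⟨h1, h3⟩
      obtain ⟨c1, c2⟩ := c
      obtain ⟨rfl, h3⟩ := h2
      have h4 : c2 = !b := by cases b <;> cases c2 <;> simp_all
      subst h4
      rw [← hm, mk_cons (a, !b) l, mk_not, mul_inv_cancel_left, wd_mk (red_tail hr)]

theorem finite_nrm_le [Finite Z] (N : ℕ) : {g : FG Z | nrm g ≤ N}.Finite := by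
  have h := List.finite_length_le (Let Z) N
  exact (h.preimage (f := wd) wd_inj.injOn)

/-- In a free group no non-trivial element is conjugate to its inverse. -/
theorem eq_one_of_conj_inv {a u : FG Z} (h : a * u = u * a⁻¹) : a = 1 := by
  have h1 : (a * u * a⁻¹) ^ 2 = u ^ 2 := by
    have h2 : a⁻¹ * u = u * a := by
      have : u = a⁻¹ * (u * a⁻¹) := by rw [← h]; group
      calc a⁻¹ * u = a⁻¹ * (a * u * a) := by rw [h]; group
        _ = u * a := by group
    calc (a * u * a⁻¹) ^ 2 = (a * u) * u * a⁻¹ := by rw [pow_two]; group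
      _ = u * (a⁻¹ * u) * a⁻¹ := by rw [h]; group
      _ = u ^ 2 := by rw [h2, pow_two]; group
  have h3 : a * u * a⁻¹ = u := pow_left_injective (by norm_num : (2 : ℕ) ≠ 0) h1
  have h4 : a ^ 2 = 1 ^ 2 := by
    have h5 : u * a⁻¹ * a⁻¹ = u := by rw [← h]; exact h3
    have h6 : a⁻¹ * a⁻¹ = 1 := by
      have := congrArg (fun t => u⁻¹ * t) h5
      simpa [mul_assoc] using this
    have h7 : a * a = 1 := by
      have := congrArg (fun t => t⁻¹) h6
      simpa using this
    rw [pow_two, h7]; simp
  exact pow_left_injective (by norm_num : (2 : ℕ) ≠ 0) h4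

/-- The map of free groups induced by a map of points. -/
def fm {Y : Type} (α : Z → Y) : FG Z →* FG Y := FreeGroup.map (Prod.map α α)

/-- The map of letters induced by a map of points. -/
def lm {Y : Type} (α : Z → Y) (c : Let Z) : Let Y := (Prod.map α α c.1, c.2)

theorem fm_mk {Y : Type} (α : Z → Y) (l : List (Let Z)) :
    fm α (FreeGroup.mk l) = FreeGroup.mk (l.map (lm α)) := FreeGroup.map.mk

theorem fm_of {Y : Type} (α : Z → Y) (x y : Z) :
    fm α (FreeGroup.of (x, y)) = FreeGroup.of (α x, α y) := FreeGroup.map.of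

theorem fm_comp {Y W : Type} (α : Z → Y) (β : Y → W) (g : FG Z) :
    fm β (fm α g) = fm (β ∘ α) g := by
  unfold fm
  rw [FreeGroup.map.comp]; rfl

theorem fm_id (g : FG Z) : fm (fun x => x) g = g := FreeGroup.map.id g

theorem fm_congr {Y : Type} {α β : Z → Y} (h : ∀ x, α x = β x) (g : FG Z) : fm α g = fm β g := by
  rw [funext h]

theorem nrm_fm_le {Y : Type} (α : Z → Y) (g : FG Z) : nrm (fm α g) ≤ nrm g := by
  conv_lhs => rw [← mk_wd g, fm_mk]
  exact (nrm_mk_le _).trans (by simp [nrm])

theorem red_map {Y : Type} {α : Z → Y} (hα : Function.Injective α) {l : List (Let Z)}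
    (h : FreeGroup.IsReduced l) : FreeGroup.IsReduced (l.map (lm α)) := by
  unfold FreeGroup.IsReduced at *
  rw [List.isChain_map]
  refine h.imp ?_
  intro a b hab h1
  apply hab
  exact (hα.prodMap hα) h1

end words

section lab
variable {Z : Type} [PartialOrder Z]

open Classical in
/-- The label of a step between comparable points. -/
noncomputable def lab (x y : Z) : FG Z :=
  if x < y then FreeGroup.of (x, y) else if y < x then (FreeGroup.of (y, x))⁻¹ else 1

theorem lab_self (x : Z) : lab x x = 1 := by simp [lab]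

theorem lab_lt {x y : Z} (h : x < y) : lab x y = FreeGroup.of (x, y) := by simp [lab, h]

theorem lab_gt {x y : Z} (h : y < x) : lab x y = (FreeGroup.of (y, x))⁻¹ := by
  simp [lab, h, not_lt_of_gt h]

theorem lab_symm (x y : Z) : lab y x = (lab x y)⁻¹ := by
  by_cases h : x < y
  · rw [lab_lt h, lab_gt h]
  · by_cases h' : y < x
    · rw [lab_lt h', lab_gt h', inv_inv]
    · simp [lab, h, h']

theorem lab_mul_lab (x y : Z) : lab y x * lab x y = 1 := by
  rw [lab_symm x y, inv_mul_cancel]

theorem nrm_lab (x y : Z) : nrm (lab x y) ≤ 1 := by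
  by_cases h : x < y
  · rw [lab_lt h, nrm_of]
  · by_cases h' : y < x
    · rw [lab_gt h', nrm_inv, nrm_of]
    · simp [lab, h, h', nrm_one]

theorem lab_trans [H1 Z] {x y z : Z} (h1 : x ≤ y) (h2 : y ≤ z) :
    lab x z = lab y z * lab x y := by
  rcases h1.eq_or_lt with rfl | h1
  · rw [lab_self, mul_one]
  · rcases h2.eq_or_lt with rfl | h2
    · rw [lab_self, one_mul]
    · exact (H1.no3 _ _ _ h1 h2).elim

theorem fm_lab {Y : Type} [PartialOrder Y] {α : Z → Y} (hα : StrictMono α) {x y : Z}
    (h : Cmp x y) : fm α (lab x y) = lab (α x) (α y) := by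
  rcases h with h | h
  · rcases h.eq_or_lt with rfl | h
    · rw [lab_self, lab_self, map_one]
    · rw [lab_lt h, lab_lt (hα h), fm_of]
  · rcases h.eq_or_lt with rfl | h
    · rw [lab_self, lab_self, map_one]
    · rw [lab_gt h, lab_gt (hα h), map_inv, fm_of]

/-- `R x y g`: `g` is the product of the labels along some fence from `x` to `y`. -/
inductive R (x0 : Z) : Z → FG Z → Prop
  | refl : R x0 x0 1
  | step {x y : Z} {g : FG Z} : R x0 x g → Cmp x y → R x0 y (lab x y * g)

theorem R.of_eq {x y : Z} {g h : FG Z} (H : R x y g) (e : g = h) : R x y h := e ▸ H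

theorem R.single {x y : Z} (h : Cmp x y) : R x y (lab x y) :=
  (R.step R.refl h).of_eq (mul_one _)

theorem R.trans {x y z : Z} {g h : FG Z} (h1 : R x y g) (h2 : R y z h) : R x z (h * g) := by
  induction h2 with
  | refl => exact h1.of_eq (one_mul _).symm
  | step _ hc ih => exact (ih.step hc).of_eq (mul_assoc _ _ _).symm

theorem R.symm {x y : Z} {g : FG Z} (h : R x y g) : R y x g⁻¹ := by
  induction h with
  | refl => exact R.refl.of_eq inv_one.symm
  | step _ hc ih =>
    exact ((R.single hc.symm).trans ih).of_eq (by rw [mul_inv_rev, ← lab_symm])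

theorem R.map {Y : Type} [PartialOrder Y] {α : Z → Y} (hα : StrictMono α) {x y : Z} {g : FG Z}
    (h : R x y g) : R (α x) (α y) (fm α g) := by
  induction h with
  | refl => exact R.refl.of_eq (map_one _).symm
  | step _ hc ih =>
    refine (ih.step (hc.imp (fun h => hα.monotone h) (fun h => hα.monotone h))).of_eq ?_
    rw [map_mul, fm_lab hα hc]

theorem R.pow {x : Z} {g : FG Z} (h : R x x g) (n : ℕ) : R x x (g ^ n) := by
  induction n with
  | zero => exact R.refl.of_eq (pow_zero _).symm
  | succ n ih => exact (h.trans ih).of_eq (pow_succ _ _).symm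

/-- Words that describe a walk with strict steps; the head of the list is the last step. -/
inductive Wk (x0 : Z) : List (Let Z) → Z → Prop
  | nil : Wk x0 [] x0
  | up {l : List (Let Z)} {x y : Z} : Wk x0 l x → x < y → Wk x0 (((x, y), true) :: l) y
  | down {l : List (Let Z)} {x y : Z} : Wk x0 l x → y < x → Wk x0 (((y, x), false) :: l) y

theorem Wk.r {x0 x : Z} {l : List (Let Z)} (h : Wk x0 l x) : R x0 x (FreeGroup.mk l) := by
  induction h with
  | nil => exact R.refl
  | up _ hlt ih => exact (ih.step (Or.inl hlt.le)).of_eq (by rw [mk_cons, mk_true, lab_lt hlt])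
  | down _ hlt ih => exact (ih.step (Or.inr hlt.le)).of_eq (by rw [mk_cons, mk_false, lab_gt hlt])

theorem R.wk {x0 x : Z} {g : FG Z} (h : R x0 x g) : Wk x0 (wd g) x := by
  induction h with
  | refl => exact Wk.nil
  | @step x y g _ hc ih =>
    have key : x = y ∨ x < y ∨ y < x := by
      rcases hc with h | h
      · exact h.eq_or_lt.imp id Or.inl
      · exact h.eq_or_lt.imp Eq.symm Or.inr
    rcases key with rfl | h | h
    · rwa [lab_self, one_mul]
    · rw [lab_lt h, ← mk_true]
      rcases wd_letter_mul (x, y) true g with e | e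
      · rw [e]; exact ih.up h
      · rw [e] at ih
        cases ih with
        | down h1 _ => exact h1
    · rw [lab_gt h, ← mk_false]
      rcases wd_letter_mul (y, x) false g with e | e
      · rw [e]; exact ih.down h
      · rw [e] at ih
        cases ih with
        | up h1 _ => exact h1

theorem R.eq_of_one {x y : Z} (h : R x y 1) : x = y := by
  have := h.wk
  rw [wd_one] at this
  cases this; rfl

/-- The end point of a walk. -/
def endp (x0 : Z) : List (Let Z) → Z
  | [] => x0
  | (c, true) :: _ => c.2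
  | (c, false) :: _ => c.1

theorem Wk.endp_eq {x0 x : Z} {l : List (Let Z)} (h : Wk x0 l x) : endp x0 l = x := by
  cases h <;> rfl

theorem Wk.tail {x0 x : Z} {a : Let Z} {l : List (Let Z)} (h : Wk x0 (a :: l) x) :
    Wk x0 l (endp x0 l) := by
  cases h with
  | up h _ => rwa [h.endp_eq]
  | down h _ => rwa [h.endp_eq]

theorem Wk.drop {x0 x : Z} {l : List (Let Z)} (h : Wk x0 l x) (k : ℕ) :
    Wk x0 (l.drop k) (endp x0 (l.drop k)) := by
  induction k generalizing l x with
  | zero => simpa [h.endp_eq] using h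
  | succ k ih =>
    cases l with
    | nil => simpa [endp] using Wk.nil
    | cons a l => simpa using ih h.tail

theorem Wk.parity [H1 Z] {x0 x : Z} (h0 : IsMin x0) {l : List (Let Z)} (h : Wk x0 l x) :
    (Even l.length → IsMin x) ∧ (¬ Even l.length → IsMax x) := by
  induction h with
  | nil => exact ⟨fun _ => h0, fun h => absurd (by simp) h⟩
  | @up l x y _ hlt ih =>
    have he : Even l.length := by
      by_contra hc
      exact (ih.2 hc).not_lt hlt
    refine ⟨fun h => ?_, fun _ => ?_⟩
    · rw [List.length_cons, Nat.even_add_one] at h; exact absurd he h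
    · rw [isMax_iff_forall_not_lt]
      exact fun z hz => H1.no3 _ _ _ hlt hz
  | @down l x y _ hlt ih =>
    have he : ¬ Even l.length := fun hc => (ih.1 hc).not_lt hlt
    refine ⟨fun _ => ?_, fun h => ?_⟩
    · rw [isMin_iff_forall_not_lt]
      exact fun z hz => H1.no3 _ _ _ hz hlt
    · rw [List.length_cons, Nat.even_add_one] at h; exact absurd he h

end lab

end Pool.Agent.Lib.MP_6152be_co.CX
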