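import Pool.Agent.Lib.MP_6152be_co.CX.Cover

set_option autoImplicit false

/-! Subdivided complete graphs as ordered sets of height one. -/

namespace Pool.Agent.Lib.MP_6152be_co.CX

/-- At least four elements. -/
class Big (V : Type) : Prop where
  ex : ∀ p q s : V, ∃ t, t ≠ p ∧ t ≠ q ∧ t ≠ s

/-- The length of an edge. -/
def LL (K : ℕ) : ℕ := 2 * K + 2

theorem LL_pos (K : ℕ) : 0 < LL K := by unfold LL; omega

theorem LL_two (K : ℕ) : 2 ≤ LL K := by unfold LL; omega

theorem LL_even (K : ℕ) : LL K % 2 = 0 := by unfold LL; omega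

variable {V : Type} [DecidableEq V] {K : ℕ}

/-- Weights of the point at distance `y` from `p` on the edge from `p` to `q`. -/
def ptf (K : ℕ) (p q : V) (y : ℕ) : V → ℕ := fun v =>
  if p = q then (if v = p then LL K else 0)
  else if v = p then LL K - y else if v = q then min y (LL K) else 0

/-- The complete graph on `V` with every edge subdivided into `2 * K + 2` edges. -/
def SG (V : Type) [DecidableEq V] (K : ℕ) : Type := {f : V → ℕ // ∃ p q y, f = ptf K p q y}

/-- The point at distance `y` from `p` on the edge from `p` to `q`. -/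
def pt (K : ℕ) (p q : V) (y : ℕ) : SG V K := ⟨ptf K p q y, p, q, y, rfl⟩

/-- The vertex `p`. -/
def vx (K : ℕ) (p : V) : SG V K := pt K p p 0

theorem pt_ext {x y : SG V K} (h : ∀ v, x.1 v = y.1 v) : x = y := Subtype.ext (funext h)

theorem pt_val {p q : V} (h : p ≠ q) {y : ℕ} (hy : y ≤ LL K) (v : V) :
    (pt K p q y).1 v = if v = p then LL K - y else if v = q then y else 0 := by
  simp only [pt, ptf, if_neg h, min_eq_left hy]

theorem vx_val (p v : V) : (vx K p).1 v = if v = p then LL K else 0 := by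
  simp [vx, pt, ptf]

theorem pt_zero (p q : V) : pt K p q 0 = vx K p := by
  refine pt_ext fun v => ?_
  rw [vx_val]
  simp only [pt, ptf]
  split_ifs <;> simp

theorem pt_flip {p q : V} (h : p ≠ q) {y : ℕ} (hy : y ≤ LL K) :
    pt K p q y = pt K q p (LL K - y) := by
  refine pt_ext fun v => ?_
  rw [pt_val h hy, pt_val h.symm (Nat.sub_le _ _)]
  by_cases h1 : v = p
  · have h2 : v ≠ q := by rw [h1]; exact h
    simp [h1, h]
  · by_cases h2 : v = q
    · simp [h2, h.symm]; omega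
    · simp [h1, h2]

theorem pt_last {p q : V} (h : p ≠ q) : pt K p q (LL K) = vx K q := by
  rw [pt_flip h le_rfl, Nat.sub_self, pt_zero]

theorem vx_eq_pt {a p q : V} (h : p ≠ q) {y : ℕ} (hy : y ≤ LL K) (e : vx K a = pt K p q y) :
    (y = 0 ∧ p = a) ∨ (y = LL K ∧ q = a) := by
  have h1 := congrArg (fun x => x.1 a) e
  simp only [vx_val, pt_val h hy, if_true] at h1
  have := LL_pos K
  split_ifs at h1 with h2 h3
  · left; exact ⟨by omega, h2.symm⟩
  · right; exact ⟨h1.symm, h3.symm⟩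
  · omega

theorem vx_inj {a b : V} (e : vx K a = vx K b) : a = b := by
  have h1 := congrArg (fun x => x.1 a) e
  simp only [vx_val, if_true] at h1
  have := LL_pos K
  split_ifs at h1 with h2
  · exact h2
  · omega

theorem pt_eq_pt {p q p' q' : V} (h : p ≠ q) (h' : p' ≠ q') {y y' : ℕ} (h0 : 0 < y)
    (hy : y < LL K) (hy' : y' ≤ LL K) (e : pt K p q y = pt K p' q' y') :
    (p' = p ∧ q' = q ∧ y' = y) ∨ (p' = q ∧ q' = p ∧ y' = LL K - y) := by
  have h1 := congrArg (fun x => x.1 p) e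
  have h2 := congrArg (fun x => x.1 q) e
  simp only [pt_val h hy.le, pt_val h' hy', if_true, if_neg h.symm] at h1 h2
  split_ifs at h1 h2 with h3 h4 h5 h6 h7 h8 h9
  all_goals first
    | omega
    | (exfalso; apply h; simp_all; done)
    | (left; exact ⟨by simp_all, by simp_all, by omega⟩)
    | (right; exact ⟨by simp_all, by simp_all, by omega⟩)

theorem exists_rep [Big V] (x : SG V K) : ∃ p q y, p ≠ q ∧ y ≤ LL K ∧ x = pt K p q y := by
  obtain ⟨f, p, q, y, rfl⟩ := x
  change ∃ p' q' y', p' ≠ q' ∧ y' ≤ LL K ∧ pt K p q y = pt K p' q' y'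
  by_cases h : p = q
  · obtain ⟨t, ht, -⟩ := Big.ex p p p
    refine ⟨p, t, 0, ht.symm, Nat.zero_le _, ?_⟩
    rw [pt_zero]
    refine pt_ext fun v => ?_
    simp [pt, vx, ptf, h]
  · refine ⟨p, q, min y (LL K), h, min_le_right _ _, pt_ext fun v => ?_⟩
    simp only [pt, ptf, if_neg h]
    split_ifs <;> omega

instance [Finite V] [Big V] : Finite (SG V K) :=
  Finite.of_surjective (fun c : V × V × Fin (LL K + 1) => pt K c.1 c.2.1 c.2.2) fun x => by
    obtain ⟨p, q, y, -, hy, rfl⟩ := exists_rep x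
    exact ⟨(p, q, ⟨y, by omega⟩), rfl⟩

/-- The strict order: a point at even position lies below its neighbours. -/
def Up (x y : SG V K) : Prop :=
  ∃ p q t, p ≠ q ∧ t < LL K ∧ t % 2 = 0 ∧ x = pt K p q t ∧ y = pt K p q (t + 1)

/-- All weights are even. -/
def Par (x : SG V K) : Prop := ∀ v, x.1 v % 2 = 0

theorem par_pt {p q : V} (h : p ≠ q) {y : ℕ} (hy : y ≤ LL K) : Par (pt K p q y) ↔ y % 2 = 0 := by
  constructor
  · intro hp
    have := hp q
    rwa [pt_val h hy, if_neg h.symm, if_pos rfl] at this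
  · intro hp v
    rw [pt_val h hy]
    have := LL_even K
    split_ifs <;> omega

theorem Up.par {x y : SG V K} (h : Up x y) : Par x ∧ ¬ Par y := by
  obtain ⟨p, q, t, h, ht, he, rfl, rfl⟩ := h
  rw [par_pt h ht.le, par_pt h ht]
  omega

instance : PartialOrder (SG V K) where
  le x y := x = y ∨ Up x y
  le_refl x := Or.inl rfl
  le_trans x y z h1 h2 := by
    rcases h1 with rfl | h1
    · exact h2
    · rcases h2 with rfl | h2
      · exact Or.inr h1
      · exact absurd h2.par.1 h1.par.2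
  le_antisymm x y h1 h2 := by
    rcases h1 with rfl | h1
    · rfl
    · rcases h2 with rfl | h2
      · rfl
      · exact absurd h2.par.1 h1.par.2

theorem lt_iff_up {x y : SG V K} : x < y ↔ Up x y := by
  rw [lt_iff_le_and_ne]
  constructor
  · rintro ⟨h | h, h'⟩
    · exact absurd h h'
    · exact h
  · intro h
    exact ⟨Or.inr h, fun e => h.par.2 (e ▸ h.par.1)⟩

instance : H1 (SG V K) :=
  ⟨fun _ _ _ h1 h2 => (lt_iff_up.1 h1).par.2 (lt_iff_up.1 h2).par.1⟩

theorem isMin_vx (p : V) : IsMin (vx K p) := by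
  rw [isMin_iff_forall_not_lt]
  intro y hy
  apply (lt_iff_up.1 hy).par.2
  intro v
  rw [vx_val]
  have := LL_even K
  split_ifs <;> omega

/-- Strict comparability. -/
def Adj {Z : Type} [PartialOrder Z] (x y : Z) : Prop := x < y ∨ y < x

theorem Adj.cmp {Z : Type} [PartialOrder Z] {x y : Z} (h : Adj x y) : Cmp x y :=
  h.imp le_of_lt le_of_lt

theorem Cmp.adj {Z : Type} [PartialOrder Z] {x y : Z} (h : Cmp x y) (hne : x ≠ y) : Adj x y :=
  h.imp (fun h => lt_of_le_of_ne h hne) (fun h => lt_of_le_of_ne h hne.symm)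

theorem adj_iff {x y : SG V K} :
    Adj x y ↔ ∃ p q t, p ≠ q ∧ t < LL K ∧ x = pt K p q t ∧ y = pt K p q (t + 1) := by
  have := LL_even K
  constructor
  · rintro (h | h)
    · obtain ⟨p, q, t, h, ht, -, e1, e2⟩ := lt_iff_up.1 h
      exact ⟨p, q, t, h, ht, e1, e2⟩
    · obtain ⟨p, q, t, h, ht, -, e1, e2⟩ := lt_iff_up.1 h
      refine ⟨q, p, LL K - (t + 1), h.symm, by omega, ?_, ?_⟩
      · rw [e2, pt_flip h ht]
      · rw [e1, pt_flip h ht.le]; congr 1; omega
  · rintro ⟨p, q, t, h, ht, e1, e2⟩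
    by_cases he : t % 2 = 0
    · exact Or.inl (lt_iff_up.2 ⟨p, q, t, h, ht, he, e1, e2⟩)
    · refine Or.inr (lt_iff_up.2 ⟨q, p, LL K - (t + 1), h.symm, by omega, by omega, ?_, ?_⟩)
      · rw [e2, pt_flip h ht]
      · rw [e1, pt_flip h ht.le]; congr 1; omega

theorem adj_pt {p q : V} (h : p ≠ q) {t : ℕ} (ht : t < LL K) :
    Adj (pt K p q t) (pt K p q (t + 1)) := adj_iff.2 ⟨p, q, t, h, ht, rfl, rfl⟩

theorem nb_inner {p q : V} (h : p ≠ q) {t : ℕ} (ht : t + 1 < LL K) {y : SG V K}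
    (ha : Adj (pt K p q (t + 1)) y) : y = pt K p q (t + 2) ∨ y = pt K p q t := by
  obtain ⟨p', q', t', h', ht', e1, rfl⟩ := adj_iff.1 ha
  rcases pt_eq_pt h h' (Nat.succ_pos _) ht ht'.le e1 with ⟨rfl, rfl, rfl⟩ | ⟨rfl, rfl, rfl⟩
  · left; rfl
  · right; rw [pt_flip h' ht']; congr 1; omega

theorem nb_vx {p : V} {y : SG V K} (ha : Adj (vx K p) y) : ∃ q, p ≠ q ∧ y = pt K p q 1 := by
  obtain ⟨p', q', t', h', ht', e1, rfl⟩ := adj_iff.1 ha
  rcases vx_eq_pt h' ht'.le e1 with ⟨rfl, rfl⟩ | ⟨h1, -⟩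
  · exact ⟨q', h', rfl⟩
  · omega

theorem ptf_perm (σ : Equiv.Perm V) (p q : V) (y : ℕ) :
    ptf K p q y ∘ σ.symm = ptf K (σ p) (σ q) y := by
  funext v
  simp only [Function.comp, ptf, Equiv.symm_apply_eq, EmbeddingLike.apply_eq_iff_eq]

instance : MulAction (Equiv.Perm V) (SG V K) where
  smul σ x := ⟨x.1 ∘ σ.symm, by
    obtain ⟨p, q, y, e⟩ := x.2
    exact ⟨σ p, σ q, y, by rw [e, ptf_perm]⟩⟩
  one_smul _ := rfl
  mul_smul _ _ _ := rfl

theorem smul_pt (σ : Equiv.Perm V) (p q : V) (y : ℕ) :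
    σ • pt K p q y = pt K (σ p) (σ q) y := Subtype.ext (ptf_perm σ p q y)

theorem smul_vx (σ : Equiv.Perm V) (p : V) : σ • vx K p = vx K (σ p) := smul_pt σ p p 0

theorem smul_strictMono (σ : Equiv.Perm V) : StrictMono (fun x : SG V K => σ • x) := by
  intro x y hxy
  obtain ⟨p, q, t, h, ht, he, rfl, rfl⟩ := lt_iff_up.1 hxy
  exact lt_iff_up.2 ⟨σ p, σ q, t, σ.injective.ne h, ht, he, smul_pt _ _ _ _, smul_pt _ _ _ _⟩

theorem smul_mono (σ : Equiv.Perm V) {x y : SG V K} (h : x ≤ y) : σ • x ≤ σ • y :=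
  (smul_strictMono σ).monotone h

theorem perm_eq_of_smul {σ σ' : Equiv.Perm V} (h : ∀ x : SG V K, σ • x = σ' • x) : σ = σ' := by
  ext p
  have := h (vx K p)
  rw [smul_vx, smul_vx] at this
  exact vx_inj this

/-- No fixed point and no cycle of length two. -/
def Good (σ : Equiv.Perm V) : Prop := ∀ v, σ (σ v) ≠ v

theorem Good.smul_ne [Big V] {σ : Equiv.Perm V} (hσ : Good σ) (x : SG V K) : σ • x ≠ x := by
  obtain ⟨p, q, y, h, hy, rfl⟩ := exists_rep x
  have h1 : ∀ v, σ v ≠ v := fun v e => hσ v (by rw [e, e])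
  intro e
  rcases Nat.eq_zero_or_pos y with rfl | h0
  · rw [pt_zero, smul_vx] at e
    exact h1 _ (vx_inj e)
  rcases hy.eq_or_lt with rfl | hy'
  · rw [pt_last h, smul_vx] at e
    exact h1 _ (vx_inj e)
  rw [smul_pt] at e
  rcases pt_eq_pt h (σ.injective.ne h) h0 hy' hy e.symm with ⟨e1, -⟩ | ⟨e1, e2, -⟩
  · exact h1 _ e1
  · exact hσ p (by rw [e1, e2])

theorem Good.conj {σ σ' : Equiv.Perm V} (hσ : Good σ) (h : IsConj σ σ') : Good σ' := by
  obtain ⟨c, rfl⟩ := isConj_iff.1 h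
  intro v e
  apply hσ (c⁻¹ v)
  have := congrArg (fun t => c⁻¹ t) e
  simpa using this

theorem Good.inv {σ : Equiv.Perm V} (hσ : Good σ) : Good σ⁻¹ := by
  intro v e
  apply hσ v
  conv_lhs => rw [← e]
  simp

theorem Good.ne_one [Nonempty V] {σ : Equiv.Perm V} (hσ : Good σ) : σ ≠ 1 := by
  rintro rfl
  exact hσ (Classical.arbitrary V) rfl

/-- The map of free groups induced by a permutation of the vertices. -/
def pm (K : ℕ) (σ : Equiv.Perm V) : FG (SG V K) →* FG (SG V K) := fm (fun x => σ • x)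

theorem pm_one (g : FG (SG V K)) : pm K 1 g = g := fm_id g

theorem pm_mul (σ σ' : Equiv.Perm V) (g : FG (SG V K)) : pm K (σ * σ') g = pm K σ (pm K σ' g) := by
  unfold pm
  rw [fm_comp]; rfl

theorem pm_lab (σ : Equiv.Perm V) {x y : SG V K} (h : Cmp x y) :
    pm K σ (lab x y) = lab (σ • x) (σ • y) := fm_lab (smul_strictMono σ) h

theorem R.pm (σ : Equiv.Perm V) {x y : SG V K} {g : FG (SG V K)} (h : R x y g) :
    R (σ • x) (σ • y) (pm K σ g) := h.map (smul_strictMono σ)

theorem pm_inj (σ : Equiv.Perm V) {g h : FG (SG V K)} (e : pm K σ g = pm K σ h) : g = h := by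
  have := congrArg (pm K σ⁻¹) e
  rwa [← pm_mul, ← pm_mul, inv_mul_cancel, pm_one, pm_one] at this

/-- A locally injective map that preserves adjacency is induced by a permutation. -/
theorem vertex_map [Finite V] [Big V] (f : SG V K → SG V K)
    (h1 : ∀ p q y, p ≠ q → y < LL K → Adj (f (pt K p q y)) (f (pt K p q (y + 1))))
    (h2 : ∀ p q y, p ≠ q → y + 2 ≤ LL K → f (pt K p q y) ≠ f (pt K p q (y + 2)))
    (h3 : ∀ p q s, p ≠ q → p ≠ s → q ≠ s → f (pt K p q 1) ≠ f (pt K p s 1)) :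
    ∃ σ : Equiv.Perm V, ∀ x, f x = σ • x := by
  have hL := LL_pos K
  have hv : ∀ p, ∃ a, f (vx K p) = vx K a := by
    intro p
    obtain ⟨a, b, y, hab, hy, e⟩ := exists_rep (f (vx K p))
    rcases Nat.eq_zero_or_pos y with rfl | h0
    · exact ⟨a, by rw [e, pt_zero]⟩
    rcases hy.eq_or_lt with rfl | hy'
    · exact ⟨b, by rw [e, pt_last hab]⟩
    exfalso
    obtain ⟨t, rfl⟩ : ∃ t, y = t + 1 := ⟨y - 1, by omega⟩
    obtain ⟨q1, hq1, -⟩ := Big.ex p p p
    obtain ⟨q2, hq2, hq21, -⟩ := Big.ex p q1 q1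
    obtain ⟨q3, hq3, hq31, hq32⟩ := Big.ex p q1 q2
    have key : ∀ q, q ≠ p → f (pt K p q 1) = pt K a b (t + 2) ∨ f (pt K p q 1) = pt K a b t := by
      intro q hq
      have := h1 p q 0 hq.symm hL
      rw [pt_zero, e] at this
      exact nb_inner hab hy' this
    have a1 := h3 p q2 q1 hq2.symm hq1.symm hq21
    have a2 := h3 p q3 q1 hq3.symm hq1.symm hq31
    have a3 := h3 p q3 q2 hq3.symm hq2.symm hq32
    rcases key q1 hq1 with k1 | k1 <;> rcases key q2 hq2 with k2 | k2 <;>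
      rcases key q3 hq3 with k3 | k3 <;> simp_all
  choose ω hω using hv
  have he : ∀ p q, p ≠ q → ω p ≠ ω q ∧ ∀ y, y ≤ LL K → f (pt K p q y) = pt K (ω p) (ω q) y := by
    intro p q hpq
    have h0 := h1 p q 0 hpq hL
    rw [pt_zero, hω] at h0
    obtain ⟨b, hb, e1⟩ := nb_vx h0
    have key : ∀ y, y + 1 ≤ LL K → f (pt K p q y) = pt K (ω p) b y ∧
        f (pt K p q (y + 1)) = pt K (ω p) b (y + 1) := by
      intro y
      induction y with
      | zero => exact fun _ => ⟨by rw [pt_zero, pt_zero, hω], e1⟩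
      | succ y ih =>
        intro hy
        obtain ⟨i1, i2⟩ := ih (by omega)
        refine ⟨i2, ?_⟩
        have h4 := h1 p q (y + 1) hpq hy
        rw [i2] at h4
        rcases nb_inner hb hy h4 with h5 | h5
        · exact h5
        · exact absurd (i1.trans h5.symm) (h2 p q y hpq hy)
    have h6 := (key (LL K - 1) (by omega)).2
    rw [Nat.sub_add_cancel hL, pt_last hpq, pt_last hb, hω] at h6
    rw [vx_inj h6]
    refine ⟨hb, fun y hy => ?_⟩
    cases y with
    | zero => exact (key 0 hL).1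
    | succ y => exact (key y hy).2
  have hinj : Function.Injective ω := fun p q e => by
    by_contra hc
    exact (he p q hc).1 e
  refine ⟨Equiv.ofBijective ω (Finite.injective_iff_bijective.1 hinj), fun x => ?_⟩
  obtain ⟨p, q, y, hpq, hy, rfl⟩ := exists_rep x
  rw [smul_pt, (he p q hpq).2 y hy]; rfl

end Pool.Agent.Lib.MP_6152be_co.CX
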