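import Pool.Agent.Lib.MP_6152be_co.CX.Geo

set_option autoImplicit false

/-! Loops in subdivided complete graphs: triangles generate, and the girth. -/

namespace Pool.Agent.Lib.MP_6152be_co.CX

section wp
variable {Z : Type} [PartialOrder Z]

/-- The product of the labels along the first `n` steps of a sequence. -/
noncomputable def wp (x : ℕ → Z) : ℕ → FG Z
  | 0 => 1
  | n + 1 => lab (x n) (x (n + 1)) * wp x n

theorem wp_succ (x : ℕ → Z) (n : ℕ) : wp x (n + 1) = lab (x n) (x (n + 1)) * wp x n := rfl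

theorem wp_R {x : ℕ → Z} {n : ℕ} (h : ∀ i, i < n → Cmp (x i) (x (i + 1))) :
    R (x 0) (x n) (wp x n) := by
  induction n with
  | zero => exact R.refl
  | succ n ih => exact (ih fun i hi => h i (by omega)).step (h n (by omega))

theorem wp_congr {x x' : ℕ → Z} {n : ℕ} (h : ∀ i, i ≤ n → x i = x' i) : wp x n = wp x' n := by
  induction n with
  | zero => rfl
  | succ n ih => rw [wp, wp, ih fun i hi => h i (by omega), h n (by omega), h (n + 1) le_rfl]

theorem wp_add (x : ℕ → Z) (m n : ℕ) : wp x (m + n) = wp (fun i => x (m + i)) n * wp x m := by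
  induction n with
  | zero => simp [wp]
  | succ n ih => rw [← Nat.add_assoc, wp, wp, ih, mul_assoc, Nat.add_assoc]

theorem fm_wp {Y : Type} [PartialOrder Y] {α : Z → Y} (hα : StrictMono α) {x : ℕ → Z} {n : ℕ}
    (h : ∀ i, i < n → Cmp (x i) (x (i + 1))) : fm α (wp x n) = wp (fun i => α (x i)) n := by
  induction n with
  | zero => exact map_one _
  | succ n ih => rw [wp, wp, map_mul, ih fun i hi => h i (by omega), fm_lab hα (h n (by omega))]

theorem Wk.cons_adj {x0 x : Z} {a : Let Z} {l : List (Let Z)} (h : Wk x0 (a :: l) x) :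
    Adj (endp x0 l) x ∧ FreeGroup.mk [a] = lab (endp x0 l) x := by
  cases h with
  | up h hlt => rw [h.endp_eq]; exact ⟨Or.inl hlt, by rw [mk_true, lab_lt hlt]⟩
  | down h hlt => rw [h.endp_eq]; exact ⟨Or.inr hlt, by rw [mk_false, lab_gt hlt]⟩

theorem Wk.nb {x0 x : Z} {a b : Let Z} {l : List (Let Z)} (h : Wk x0 (a :: b :: l) x)
    (hr : FreeGroup.IsReduced (a :: b :: l)) : x ≠ endp x0 l := by
  intro e
  have h1 := h.cons_adj.2
  have h2 := h.tail.cons_adj.2
  have h3 : (FreeGroup.mk (a :: b :: l) : FG Z) = FreeGroup.mk l := by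
    rw [mk_cons a, mk_cons b l, h1, h2, ← e, ← mul_assoc, lab_mul_lab, one_mul]
  have h4 := nrm_mk_le l
  rw [← h3, nrm, wd_mk hr] at h4
  simp only [List.length_cons] at h4
  omega

end wp

variable {V : Type} [DecidableEq V] {K : ℕ}

/-- The walk along the edges given by a sequence of vertices. -/
def vp (K : ℕ) (v : ℕ → V) (n : ℕ) : SG V K := pt K (v (n / LL K)) (v (n / LL K + 1)) (n % LL K)

theorem vp_eq (v : ℕ → V) (k : ℕ) {t : ℕ} (ht : t < LL K) :
    vp K v (k * LL K + t) = pt K (v k) (v (k + 1)) t := by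
  have hL := LL_pos K
  have h1 : (k * LL K + t) / LL K = k := by
    rw [Nat.add_comm, Nat.add_mul_div_right _ _ hL, Nat.div_eq_of_lt ht, Nat.zero_add]
  have h2 : (k * LL K + t) % LL K = t := by
    rw [Nat.add_comm, Nat.add_mul_mod_self_right, Nat.mod_eq_of_lt ht]
  rw [vp, h1, h2]

theorem vp_eq' {v : ℕ → V} {k : ℕ} (h : v k ≠ v (k + 1)) {t : ℕ} (ht : t ≤ LL K) :
    vp K v (k * LL K + t) = pt K (v k) (v (k + 1)) t := by
  rcases ht.eq_or_lt with rfl | ht
  · rw [pt_last h, ← Nat.succ_mul, ← Nat.add_zero (Nat.succ k * LL K), vp_eq v _ (LL_pos K),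
      pt_zero]
  · exact vp_eq v k ht

theorem exists_kt (K n : ℕ) : ∃ k t, t < LL K ∧ n = k * LL K + t :=
  ⟨n / LL K, n % LL K, Nat.mod_lt _ (LL_pos K), by rw [Nat.mul_comm, Nat.div_add_mod]⟩

theorem vp_adj {v : ℕ → V} (h : ∀ k, v k ≠ v (k + 1)) (n : ℕ) :
    Adj (vp K v n) (vp K v (n + 1)) := by
  obtain ⟨k, t, ht, rfl⟩ := exists_kt K n
  rw [Nat.add_assoc, vp_eq v k ht, vp_eq' (h k) ht]
  exact adj_pt (h k) ht

/-- The periodic sequence `p, q, s, p, q, s, ...`. -/
def tv (p q s : V) (k : ℕ) : V := if k % 3 = 0 then p else if k % 3 = 1 then q else s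

omit [DecidableEq V] in
theorem tv_nb {p q s : V} (h1 : p ≠ q) (h2 : p ≠ s) (h3 : q ≠ s) (k : ℕ) :
    tv p q s k ≠ tv p q s (k + 1) ∧ tv p q s k ≠ tv p q s (k + 2) := by
  have : k % 3 = 0 ∨ k % 3 = 1 ∨ k % 3 = 2 := by omega
  rcases this with h | h | h
  · have a1 : (k + 1) % 3 = 1 := by omega
    have a2 : (k + 2) % 3 = 2 := by omega
    simp [tv, h, a1, a2, h1, h2]
  · have a1 : (k + 1) % 3 = 2 := by omega
    have a2 : (k + 2) % 3 = 0 := by omega
    simp [tv, h, a1, a2, h1.symm, h3]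
  · have a1 : (k + 1) % 3 = 0 := by omega
    have a2 : (k + 2) % 3 = 1 := by omega
    simp [tv, h, a1, a2, h2.symm, h3.symm]

/-- The periodic walk around the triangle `p q s`. -/
def tp (K : ℕ) (p q s : V) : ℕ → SG V K := vp K (tv p q s)

/-- The loop around the triangle `p q s`. -/
noncomputable def tri (K : ℕ) (p q s : V) : FG (SG V K) := wp (tp K p q s) (3 * LL K)

/-- The walk along the edge from `p` to the point at distance `t`. -/
noncomputable def seg (K : ℕ) (p q : V) (t : ℕ) : FG (SG V K) := wp (pt K p q) t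

theorem tp_adj {p q s : V} (h1 : p ≠ q) (h2 : p ≠ s) (h3 : q ≠ s) (n : ℕ) :
    Adj (tp K p q s n) (tp K p q s (n + 1)) := vp_adj (fun k => (tv_nb h1 h2 h3 k).1) n

theorem tp_zero (p q s : V) : tp K p q s 0 = vx K p := by
  simp [tp, vp, tv, pt_zero]

theorem tp_first {p q : V} (h : p ≠ q) (s : V) {t : ℕ} (ht : t ≤ LL K) :
    tp K p q s t = pt K p q t := by
  have := vp_eq' (K := K) (v := tv p q s) (k := 0) (by simpa [tv] using h) ht
  rw [Nat.zero_mul, Nat.zero_add] at this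
  exact this

theorem tp_second (p : V) {q s : V} (h : q ≠ s) {t : ℕ} (ht : t ≤ LL K) :
    tp K p q s (LL K + t) = pt K q s t := by
  have := vp_eq' (K := K) (v := tv p q s) (k := 1) (by simpa [tv] using h) ht
  rw [Nat.one_mul] at this
  exact this

theorem tp_third {p s : V} (q : V) (h : p ≠ s) {t : ℕ} (ht : t ≤ LL K) :
    tp K p q s (LL K + LL K + t) = pt K s p t := by
  have := vp_eq' (K := K) (v := tv p q s) (k := 2) (by simpa [tv] using h.symm) ht
  rw [Nat.two_mul] at this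
  exact this

theorem tp_per (p q s : V) (n : ℕ) : tp K p q s (3 * LL K + n) = tp K p q s n := by
  obtain ⟨k, t, ht, rfl⟩ := exists_kt K n
  rw [tp, ← Nat.add_assoc, ← Nat.add_mul, vp_eq _ _ ht, vp_eq _ _ ht]
  have h1 : (3 + k) % 3 = k % 3 := by omega
  have h2 : (3 + k + 1) % 3 = (k + 1) % 3 := by omega
  simp only [tv, h1, h2]

theorem wp_tp_per (p q s : V) (n : ℕ) :
    wp (tp K p q s) (3 * LL K + n) = wp (tp K p q s) n * tri K p q s := by
  rw [wp_add, tri]
  congr 1
  exact wp_congr fun i _ => tp_per p q s i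

theorem tp_mul (p q s : V) (e : ℕ) : tp K p q s (e * (3 * LL K)) = vx K p := by
  induction e with
  | zero => rw [Nat.zero_mul, tp_zero]
  | succ e ih => rw [Nat.succ_mul, Nat.add_comm, tp_per, ih]

theorem wp_tp_mul (p q s : V) (e : ℕ) : wp (tp K p q s) (e * (3 * LL K)) = tri K p q s ^ e := by
  induction e with
  | zero => rw [Nat.zero_mul, pow_zero]; rfl
  | succ e ih => rw [Nat.succ_mul, Nat.add_comm, wp_tp_per, ih, pow_succ]

theorem wp_tp_R {p q s : V} (h1 : p ≠ q) (h2 : p ≠ s) (h3 : q ≠ s) (n : ℕ) :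
    R (vx K p) (tp K p q s n) (wp (tp K p q s) n) := by
  rw [← tp_zero p q s]
  exact wp_R fun i _ => (tp_adj h1 h2 h3 i).cmp

theorem tri_R {p q s : V} (h1 : p ≠ q) (h2 : p ≠ s) (h3 : q ≠ s) :
    R (vx K p) (vx K p) (tri K p q s) := by
  have := wp_tp_R (K := K) h1 h2 h3 (1 * (3 * LL K))
  rwa [tp_mul, wp_tp_mul, pow_one] at this

theorem tri_eq {p q s : V} (h1 : p ≠ q) (h2 : p ≠ s) (h3 : q ≠ s) :
    tri K p q s = seg K s p (LL K) * seg K q s (LL K) * seg K p q (LL K) := by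
  rw [tri, show 3 * LL K = LL K + LL K + LL K by omega, wp_add, wp_add, mul_assoc]
  congr 1
  · exact wp_congr fun i hi => tp_third q h2 hi
  · congr 1
    · exact wp_congr fun i hi => tp_second p h3 hi
    · exact wp_congr fun i hi => tp_first h1 s hi

theorem seg_R {p q : V} (h : p ≠ q) {t : ℕ} (ht : t ≤ LL K) :
    R (vx K p) (pt K p q t) (seg K p q t) := by
  rw [← pt_zero p q]
  exact wp_R fun i hi => (adj_pt h (by omega)).cmp

theorem seg_flip {p q : V} (h : p ≠ q) {t : ℕ} (ht : t ≤ LL K) :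
    seg K q p (LL K - t) = seg K p q t * seg K q p (LL K) := by
  induction t with
  | zero => rw [Nat.sub_zero]; exact (one_mul _).symm
  | succ t ih =>
    have h1 := ih (by omega)
    have e : LL K - t = (LL K - (t + 1)) + 1 := by omega
    rw [e, seg, wp_succ, ← e, ← pt_flip h ht, ← pt_flip h (by omega)] at h1
    change _ = lab _ _ * seg K p q t * _
    rw [mul_assoc, ← h1, ← mul_assoc, lab_mul_lab, one_mul, seg]

theorem seg_inv {p q : V} (h : p ≠ q) : seg K q p (LL K) = (seg K p q (LL K))⁻¹ := by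
  have := seg_flip (K := K) h le_rfl
  rw [Nat.sub_self] at this
  exact eq_inv_of_mul_eq_one_right this.symm

theorem tri_rev {p q s : V} (h1 : p ≠ q) (h2 : p ≠ s) (h3 : q ≠ s) :
    tri K p s q = (tri K p q s)⁻¹ := by
  rw [tri_eq h1 h2 h3, tri_eq h2 h1 h3.symm, seg_inv h1, seg_inv h3, seg_inv h2.symm]
  group

theorem pm_tri (σ : Equiv.Perm V) {p q s : V} (h1 : p ≠ q) (h2 : p ≠ s) (h3 : q ≠ s) :
    pm K σ (tri K p q s) = tri K (σ p) (σ q) (σ s) := by
  rw [pm, tri, fm_wp (smul_strictMono σ) fun i _ => (tp_adj h1 h2 h3 i).cmp, tri]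
  refine wp_congr fun i _ => ?_
  simp only [tp, vp, smul_pt, tv]
  congr 1 <;> split_ifs <;> rfl

theorem exists_lifts [Finite V] [Big V] (p0 : V) :
    ∃ (k : SG V K → FG (SG V K)) (N : ℕ), ∀ x, R (vx K p0) x (k x) ∧ nrm (k x) ≤ N := by
  have h : ∀ x : SG V K, ∃ g, R (vx K p0) x g := by
    intro x
    obtain ⟨p, q, y, hpq, hy, rfl⟩ := exists_rep x
    by_cases hp : p0 = p
    · subst hp
      exact ⟨_, seg_R hpq hy⟩
    · have := seg_R (K := K) hp le_rfl
      rw [pt_last hp] at this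
      exact ⟨_, this.trans (seg_R hpq hy)⟩
  choose k hk using h
  obtain ⟨N, hN⟩ := (Set.finite_range (fun x => nrm (k x))).bddAbove
  exact ⟨k, N, fun x => ⟨hk x, hN ⟨x, rfl⟩⟩⟩

/-- The loops at a vertex are generated by the triangles at that vertex. -/
theorem loop_induction [Big V] (p0 : V) (Q : FG (SG V K) → Prop) (h1 : Q 1)
    (hmul : ∀ q s g, p0 ≠ q → p0 ≠ s → q ≠ s → Q g → Q (tri K p0 q s * g))
    {g : FG (SG V K)} (hg : R (vx K p0) (vx K p0) g) : Q g := by
  let τ : V → FG (SG V K) := fun p => if p0 = p then 1 else seg K p0 p (LL K)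
  let Qr : V → V → ℕ → FG (SG V K) → Prop := fun p q t g => Q ((τ p)⁻¹ * (seg K p q t)⁻¹ * g)
  have flip : ∀ p q t g, p ≠ q → t ≤ LL K → Qr p q t g → Qr q p (LL K - t) g := by
    intro p q t g hpq ht h
    have e : (τ q)⁻¹ * (seg K q p (LL K - t))⁻¹ * g =
        ((τ q)⁻¹ * seg K p q (LL K) * τ p) * ((τ p)⁻¹ * (seg K p q t)⁻¹ * g) := by
      rw [seg_flip hpq ht, seg_inv hpq]; group
    change Q _
    rw [e]
    by_cases hp : p0 = p
    · subst hp
      simpa [Qr, τ, hpq] using h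
    · by_cases hq : p0 = q
      · subst hq
        have : (τ p0)⁻¹ * seg K p p0 (LL K) * τ p = 1 := by
          simp [τ, hp, seg_inv hp]
        rw [this, one_mul]; exact h
      · have : (τ q)⁻¹ * seg K p q (LL K) * τ p = tri K p0 p q := by
          simp only [τ, if_neg hp, if_neg hq]
          rw [tri_eq hp hq hpq, seg_inv hq]
        rw [this]; exact hmul p q _ hp hq hpq h
  have vtx : ∀ p q g p' q' t', p' ≠ q' → t' ≤ LL K → vx K p = pt K p' q' t' → Qr p q 0 g →
      Qr p' q' t' g := by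
    intro p q g p' q' t' h' ht' e h
    rcases vx_eq_pt h' ht' e with ⟨rfl, rfl⟩ | ⟨rfl, rfl⟩
    · exact h
    · exact flip q' p' 0 g h'.symm (Nat.zero_le _) h
  have rep : ∀ p q t g p' q' t', p ≠ q → t ≤ LL K → p' ≠ q' → t' ≤ LL K →
      pt K p q t = pt K p' q' t' → Qr p q t g → Qr p' q' t' g := by
    intro p q t g p' q' t' h ht h' ht' e hq
    rcases Nat.eq_zero_or_pos t with rfl | h0
    · exact vtx p q g p' q' t' h' ht' (by rw [← e, pt_zero]) hq
    rcases ht.eq_or_lt with rfl | ht1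
    · have := flip p q _ g h le_rfl hq
      rw [Nat.sub_self] at this
      exact vtx q p g p' q' t' h' ht' (by rw [← e, pt_last h]) this
    rcases pt_eq_pt h h' h0 ht1 ht' e with ⟨rfl, rfl, rfl⟩ | ⟨rfl, rfl, rfl⟩
    · exact hq
    · exact flip _ _ _ g h ht hq
  have key : ∀ x g, R (vx K p0) x g →
      ∀ p q t, p ≠ q → t ≤ LL K → x = pt K p q t → Qr p q t g := by
    intro x g h
    induction h with
    | refl =>
      intro p q t hpq ht e
      refine vtx p0 p0 1 p q t hpq ht e ?_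
      simpa [Qr, τ, seg, wp] using h1
    | @step x y g _ hc ih =>
      intro p q t hpq ht e
      by_cases hxy : x = y
      · rw [hxy, lab_self, one_mul]
        exact ih p q t hpq ht (hxy.trans e)
      obtain ⟨p', q', t', h', ht', e1, e2⟩ := adj_iff.1 (hc.adj hxy)
      refine rep p' q' (t' + 1) _ p q t h' ht' hpq ht (e2.symm.trans e) ?_
      have := ih p' q' t' h' ht'.le e1
      change Q _ at this ⊢
      rw [seg, wp_succ, ← e1, ← e2, ← seg]
      convert this using 1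
      group
  obtain ⟨q, hq, -⟩ := Big.ex p0 p0 p0
  have := key _ g hg p0 q 0 hq.symm (Nat.zero_le _) (pt_zero _ _).symm
  simpa [Qr, τ, seg, wp] using this

theorem walk_struct [Big V] {x0 : SG V K} (l : List (Let (SG V K))) :
    ∀ (a : Let (SG V K)) (x : SG V K), Wk x0 (a :: l) x → FreeGroup.IsReduced (a :: l) →
      ∃ (v : ℕ → V) (y0 : ℕ), (∀ k, v k ≠ v (k + 1) ∧ v k ≠ v (k + 2)) ∧ y0 < LL K ∧
        x = vp K v y0 ∧ endp x0 l = vp K v (y0 + 1) ∧ x0 = vp K v (y0 + (l.length + 1)) ∧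
        (FreeGroup.mk (a :: l))⁻¹ = wp (fun i => vp K v (y0 + i)) (l.length + 1) := by
  have hL := LL_pos K
  induction l with
  | nil =>
    intro a x h _
    obtain ⟨h1, h2⟩ := h.cons_adj
    obtain ⟨p, q, t, hpq, ht, e1, e2⟩ := adj_iff.1 h1.symm
    obtain ⟨s, hs1, hs2, -⟩ := Big.ex p q q
    have e3 : x = tp K p q s t := by rw [tp_first hpq s ht.le, e1]
    have e4 : x0 = tp K p q s (t + 1) := by rw [tp_first hpq s ht, ← e2]; rfl
    refine ⟨tv p q s, t, tv_nb hpq hs1.symm hs2.symm, ht, e3, e4, e4, ?_⟩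
    rw [h2, ← lab_symm]
    change lab x x0 = lab (tp K p q s t) (tp K p q s (t + 1)) * 1
    rw [← e3, ← e4, mul_one]
  | cons b l ih =>
    intro a x h hr
    obtain ⟨v, y0, hv, hy0, e1, e2, e3, e4⟩ := ih b _ h.tail (red_tail hr)
    obtain ⟨h1, h2⟩ := h.cons_adj
    have h3 := h.nb hr
    rw [e2] at h3
    have fin : ∀ (v' : ℕ → V) (y1 : ℕ), x = vp K v' y1 →
        (∀ i, vp K v' (y1 + 1 + i) = vp K v (y0 + i)) →
        endp x0 (b :: l) = vp K v' (y1 + 1) ∧ x0 = vp K v' (y1 + ((b :: l).length + 1)) ∧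
        (FreeGroup.mk (a :: b :: l))⁻¹ =
          wp (fun i => vp K v' (y1 + i)) ((b :: l).length + 1) := by
      intro v' y1 f1 f2
      have f3 : endp x0 (b :: l) = vp K v' (y1 + 1) := by rw [e1]; exact (f2 0).symm
      refine ⟨f3, ?_, ?_⟩
      · rw [e3, ← f2, List.length_cons]; congr 1; omega
      · rw [mk_cons a, mul_inv_rev, e4, h2, ← lab_symm, List.length_cons,
          Nat.add_comm (l.length + 1) 1, wp_add _ 1]
        refine congrArg₂ (· * ·) (wp_congr fun i _ => ?_) ?_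
        · rw [← f2, Nat.add_assoc]
        · change _ = lab (vp K v' y1) (vp K v' (y1 + 1)) * 1
          rw [← f1, ← f3, mul_one]
    have z0 := vp_eq (K := K) v 0 hy0
    have z1 := vp_eq' (K := K) (k := 0) (hv 0).1 (t := y0 + 1) hy0
    rw [Nat.zero_mul, Nat.zero_add] at z0 z1
    rw [e1, z0] at h1
    rw [z1] at h3
    cases y0 with
    | zero =>
      rw [pt_zero] at h1
      obtain ⟨c, hc, e5⟩ := nb_vx h1
      have hc1 : c ≠ v 1 := by
        rintro rfl
        exact h3 e5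
      let v' : ℕ → V := fun k => Nat.casesOn k c v
      have hv' : ∀ k, v' k ≠ v' (k + 1) ∧ v' k ≠ v' (k + 2) := by
        intro k
        cases k with
        | zero => exact ⟨hc.symm, hc1⟩
        | succ k => exact hv k
      have f1 : x = vp K v' (LL K - 1) := by
        have := vp_eq (K := K) v' 0 (t := LL K - 1) (by omega)
        rw [Nat.zero_mul, Nat.zero_add] at this
        rw [this, e5, pt_flip hc hL]; rfl
      refine ⟨v', LL K - 1, hv', by omega, f1, fin v' _ f1 fun i => ?_⟩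
      obtain ⟨k, t, ht, rfl⟩ := exists_kt K i
      rw [Nat.sub_add_cancel hL, Nat.zero_add, vp_eq _ _ ht, ← Nat.add_assoc,
        Nat.add_comm (LL K), ← Nat.succ_mul, vp_eq _ _ ht]
    | succ t =>
      have f1 : x = vp K v t := by
        have := vp_eq (K := K) v 0 (t := t) (by omega)
        rw [Nat.zero_mul, Nat.zero_add] at this
        rw [this]
        exact (nb_inner (hv 0).1 hy0 h1).resolve_left h3
      exact ⟨v, t, hv, by omega, f1, fin v _ f1 fun i => rfl⟩

theorem vp_closed {v : ℕ → V} (hv : ∀ k, v k ≠ v (k + 1) ∧ v k ≠ v (k + 2)) {y0 n : ℕ}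
    (hy0 : y0 < LL K) (hn : 0 < n) (hn' : n ≤ 3 * LL K) (e : vp K v y0 = vp K v (y0 + n)) :
    n = 3 * LL K ∧ v 3 = v 0 ∧ (0 < y0 → v 4 = v 1) := by
  obtain ⟨k, t, ht, e1⟩ := exists_kt K (y0 + n)
  have z0 := vp_eq (K := K) v 0 hy0
  rw [Nat.zero_mul, Nat.zero_add] at z0
  rw [e1, z0, vp_eq _ _ ht] at e
  have hk : k < 4 := by
    by_contra hc
    have : 4 * LL K ≤ k * LL K := Nat.mul_le_mul_right _ (by omega)
    omega
  have a0 := hv 0
  have a1 := hv 1
  have a2 := hv 2
  simp only [Nat.zero_add, Nat.reduceAdd] at a0 a1 a2 e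
  rcases Nat.eq_zero_or_pos y0 with rfl | h0
  · rw [pt_zero] at e
    rcases vx_eq_pt (hv k).1 ht.le e with ⟨rfl, e2⟩ | ⟨e2, -⟩
    · interval_cases k
      · omega
      · exact absurd e2.symm a0.1
      · exact absurd e2.symm a0.2
      · exact ⟨by omega, e2, fun h => absurd h (lt_irrefl _)⟩
    · omega
  · rcases pt_eq_pt a0.1 (hv k).1 h0 hy0 ht.le e with ⟨e2, e3, rfl⟩ | ⟨e2, e3, -⟩
    · interval_cases k
      · omega
      · exact absurd e2.symm a0.1
      · exact absurd e2.symm a0.2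
      · exact ⟨by omega, e2, fun _ => e3⟩
    · interval_cases k
      · exact absurd e2 a0.1
      · exact absurd e3.symm a0.2
      · exact absurd e2.symm a1.1
      · exact absurd e2.symm a1.2

/-- Non-trivial loops have length at least that of a triangle, with equality only for
conjugates of triangles. -/
theorem girth [Big V] {x : SG V K} {g : FG (SG V K)} (h : R x x g) (h1 : g ≠ 1)
    (hn : nrm g ≤ 3 * LL K) :
    nrm g = 3 * LL K ∧ ∃ p q s, p ≠ q ∧ p ≠ s ∧ q ≠ s ∧ IsConj (tri K p q s) g := by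
  have hw := h.symm.wk
  have hr := wd_red g⁻¹
  have hm := mk_wd g⁻¹
  rw [← nrm_inv] at hn ⊢
  rw [nrm] at hn ⊢
  cases hl : wd g⁻¹ with
  | nil =>
    rw [hl] at hm
    exact absurd (inv_eq_one.1 hm.symm) h1
  | cons a l =>
    rw [hl] at hw hr hm hn
    obtain ⟨v, y0, hv, hy0, e1, -, e3, e4⟩ := walk_struct l a x hw hr
    rw [List.length_cons] at hn ⊢
    obtain ⟨c1, c2, c3⟩ := vp_closed hv hy0 (Nat.succ_pos _) hn (e1.symm.trans e3)
    refine ⟨c1, v 0, v 1, v 2, (hv 0).1, (hv 0).2, (hv 1).1, ?_⟩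
    rw [hm, inv_inv, show l.length + 1 = 3 * LL K from c1] at e4
    have e5 : g = wp (fun i => tp K (v 0) (v 1) (v 2) (y0 + i)) (3 * LL K) := by
      rw [e4]
      refine wp_congr fun i hi => ?_
      obtain ⟨k, t, ht, e6⟩ := exists_kt K (y0 + i)
      rw [tp, e6, vp_eq _ _ ht, vp_eq _ _ ht]
      have hk : k < 4 := by
        by_contra hc
        have : 4 * LL K ≤ k * LL K := Nat.mul_le_mul_right _ (by omega)
        omega
      interval_cases k
      · rfl
      · rfl
      · simp [tv, c2]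
      · rcases Nat.eq_zero_or_pos y0 with rfl | h0
        · have : t = 0 := by omega
          rw [this, pt_zero, pt_zero]; simp [tv, c2]
        · simp [tv, c2, c3 h0]
    have e7 := wp_add (tp K (v 0) (v 1) (v 2)) y0 (3 * LL K)
    rw [← e5, Nat.add_comm, wp_tp_per] at e7
    exact isConj_iff.2 ⟨wp (tp K (v 0) (v 1) (v 2)) y0, by rw [e7, mul_inv_cancel_right]⟩

theorem girth_le [Big V] {x : SG V K} {g : FG (SG V K)} (h : R x x g) (h1 : g ≠ 1) :
    3 * LL K ≤ nrm g := by
  by_contra hc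
  have := (girth h h1 (by omega)).1
  omega

theorem girth_pow [Big V] {x : SG V K} {g : FG (SG V K)} (h : R x x g) (h1 : g ≠ 1) (e : ℕ) :
    e * (3 * LL K) ≤ nrm (g ^ e) ∧ (0 < e → nrm (g ^ e) ≤ e * (3 * LL K) →
      ∃ p q s, p ≠ q ∧ p ≠ s ∧ q ≠ s ∧ IsConj (tri K p q s) g) := by
  obtain ⟨y, b, hb1, hb2⟩ := homog_pow h
  have h2 : b * g * b⁻¹ ≠ 1 := by
    intro e
    apply h1
    have := congrArg (fun t => b⁻¹ * t * b) e
    simpa [mul_assoc] using this
  have h3 := girth_le hb1 h2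
  refine ⟨(Nat.mul_le_mul_left _ h3).trans (hb2 e), fun he h4 => ?_⟩
  obtain ⟨-, p, q, s, a1, a2, a3, a4⟩ :=
    girth hb1 h2 (Nat.le_of_mul_le_mul_left ((hb2 e).trans h4) he)
  exact ⟨p, q, s, a1, a2, a3, a4.trans (isConj_iff.2 ⟨b⁻¹, by group⟩)⟩

end Pool.Agent.Lib.MP_6152be_co.CX
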