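import Pool.Agent.Lib.MP_6152be_co.CX.Loops
import Pool.Agent.Lib.MP_6152be_co.CX.Contr

set_option autoImplicit false

/-! The twisted products, their covers and the deck transformations. -/

namespace Pool.Agent.Lib.MP_6152be_co.CX

instance : Big (Fin 4) := ⟨by decide⟩

instance : Big (Fin 6) := ⟨by decide⟩

/-- The base graph. -/
abbrev MM := SG (Fin 4) 0

/-- The fibre graph. -/
abbrev FF := SG (Fin 6) 6

/-- Permutations of the vertices of the fibre graph. -/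
abbrev PV := Equiv.Perm (Fin 6)

/-- The base point of the base graph. -/
def x0 : MM := vx 0 0

/-- The base point of the fibre graph. -/
def f0 : FF := vx 6 0

instance : Inhabited MM := ⟨x0⟩

instance : Inhabited FF := ⟨f0⟩

instance {Z : Type} [Inhabited Z] : Inhabited (Cov Z) := ⟨⟨default, 1⟩⟩

/-- An ultrafilter and a type for each slot, and a holonomy for each type. -/
structure Dat (I J : Type) where
  U : J → Ultrafilter I
  τ : J → Bool
  ρ : Bool → FG MM →* PV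

variable {I J : Type}

/-- The twisted product. -/
@[ext] structure PP (D : Dat I J) where
  m : I → MM
  a : J → FF

instance (D : Dat I J) : PartialOrder (PP D) where
  le z z' := (∀ i, z.m i ≤ z'.m i) ∧
    ∀ j, ∀ᶠ i in (D.U j : Filter I), D.ρ (D.τ j) (lab (z.m i) (z'.m i)) • z.a j ≤ z'.a j
  le_refl z := ⟨fun _ => le_rfl, fun j => Filter.Eventually.of_forall fun i => by
    rw [lab_self, map_one, one_smul]⟩
  le_trans z z' z'' h1 h2 := ⟨fun i => (h1.1 i).trans (h2.1 i), fun j => by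
    filter_upwards [h1.2 j, h2.2 j] with i e1 e2
    rw [lab_trans (h1.1 i) (h2.1 i), map_mul, mul_smul]
    exact (smul_mono _ e1).trans e2⟩
  le_antisymm z z' h1 h2 := by
    have e : z.m = z'.m := funext fun i => (h1.1 i).antisymm (h2.1 i)
    refine PP.ext e (funext fun j => ?_)
    obtain ⟨i, e1, e2⟩ := ((h1.2 j).and (h2.2 j)).exists
    rw [e, lab_self, map_one, one_smul] at e1 e2
    exact e1.antisymm e2

theorem PP.le_def {D : Dat I J} {z z' : PP D} : z ≤ z' ↔ (∀ i, z.m i ≤ z'.m i) ∧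
    ∀ j, ∀ᶠ i in (D.U j : Filter I), D.ρ (D.τ j) (lab (z.m i) (z'.m i)) • z.a j ≤ z'.a j :=
  Iff.rfl

/-- Families of points of the covers. -/
abbrev Raw (I J : Type) := (I → Cov MM) × (J → Cov FF)

/-- All coordinates lie in the ball of radius `N` of the component of the base point. -/
def Bl (N : ℕ) (z : Raw I J) : Prop :=
  (∀ i, InC x0 (z.1 i) ∧ nrm (z.1 i).gp ≤ N) ∧ ∀ j, InC f0 (z.2 j) ∧ nrm (z.2 j).gp ≤ N

theorem Bl.mono {N N' : ℕ} {z : Raw I J} (h : Bl N z) (hN : N ≤ N') : Bl N' z :=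
  ⟨fun i => ⟨(h.1 i).1, (h.1 i).2.trans hN⟩, fun j => ⟨(h.2 j).1, (h.2 j).2.trans hN⟩⟩

/-- Coordinatewise truncation. -/
noncomputable def trR (n : ℕ) (z : Raw I J) : Raw I J :=
  (fun i => tr x0 n (z.1 i), fun j => tr f0 n (z.2 j))

/-- The base family. -/
def bas : Raw I J := (fun _ => ⟨x0, 1⟩, fun _ => ⟨f0, 1⟩)

theorem bl_bas (N : ℕ) : Bl N (bas : Raw I J) :=
  ⟨fun _ => ⟨R.refl, Nat.zero_le _⟩, fun _ => ⟨R.refl, Nat.zero_le _⟩⟩

theorem Bl.trR {N : ℕ} {z : Raw I J} (h : Bl N z) (n : ℕ) : Bl N (trR n z) :=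
  ⟨fun i => ⟨tr_inC (h.1 i).1 n, (tr_nrm _ _ _).trans (h.1 i).2⟩,
    fun j => ⟨tr_inC (h.2 j).1 n, (tr_nrm _ _ _).trans (h.2 j).2⟩⟩

theorem trR_mono {N : ℕ} {z z' : Raw I J} (h : Bl N z) (hle : z ≤ z') (n : ℕ) :
    trR n z ≤ trR n z' :=
  ⟨fun i => tr_mono (h.1 i).1 (hle.1 i) n, fun j => tr_mono (h.2 j).1 (hle.2 j) n⟩

theorem trR_zero (z : Raw I J) : trR 0 z = bas :=
  Prod.ext (funext fun _ => tr_zero _ _) (funext fun _ => tr_zero _ _)

theorem trR_of_le {N : ℕ} {z : Raw I J} (h : Bl N z) {n : ℕ} (hn : N ≤ n) : trR n z = z :=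
  Prod.ext (funext fun i => tr_of_le (h.1 i).1 ((h.1 i).2.trans hn))
    (funext fun j => tr_of_le (h.2 j).1 ((h.2 j).2.trans hn))

theorem trR_succ {N : ℕ} {z : Raw I J} (h : Bl N z) (n : ℕ) :
    (Even n → trR n z ≤ trR (n + 1) z) ∧ (¬ Even n → trR (n + 1) z ≤ trR n z) :=
  ⟨fun hn => ⟨fun i => (tr_succ (isMin_vx _) (h.1 i).1 n).1 hn,
    fun j => (tr_succ (isMin_vx _) (h.2 j).1 n).1 hn⟩,
   fun hn => ⟨fun i => (tr_succ (isMin_vx _) (h.1 i).1 n).2 hn,
    fun j => (tr_succ (isMin_vx _) (h.2 j).1 n).2 hn⟩⟩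

/-- Bounded families. -/
abbrev PH (I J : Type) := {z : Raw I J // ∃ N, Bl N z}

/-- Families in the balls of radius `N`. -/
abbrev PS (I J : Type) (N : ℕ) := {z : Raw I J // Bl N z}

/-- The contraction of the set of bounded families. -/
noncomputable def cH (I J : Type) : Contr (PH I J) where
  r n z := ⟨trR n z.1, z.2.imp fun _ h => h.trR n⟩
  a0 := ⟨bas, 0, bl_bas 0⟩
  mono n z _ hle := by
    obtain ⟨N, h⟩ := z.2
    exact trR_mono h hle n
  zero z := Subtype.ext (trR_zero _)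
  succ n := by
    by_cases hn : Even n
    · exact Or.inl fun z => by obtain ⟨N, h⟩ := z.2; exact (trR_succ h n).1 hn
    · exact Or.inr fun z => by obtain ⟨N, h⟩ := z.2; exact (trR_succ h n).2 hn
  ev z := z.2.imp fun _ h _ hn => Subtype.ext (trR_of_le h hn)

/-- The contraction of a product of balls. -/
noncomputable def cS (I J : Type) (N : ℕ) : Contr (PS I J N) where
  r n z := ⟨trR n z.1, z.2.trR n⟩
  a0 := ⟨bas, bl_bas N⟩
  mono n z _ hle := trR_mono z.2 hle n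
  zero z := Subtype.ext (trR_zero _)
  succ n := by
    by_cases hn : Even n
    · exact Or.inl fun z => (trR_succ z.2 n).1 hn
    · exact Or.inr fun z => (trR_succ z.2 n).2 hn
  ev z := ⟨N, fun _ hn => Subtype.ext (trR_of_le z.2 hn)⟩

theorem cfpp_PS (I J : Type) (N : ℕ) : CFPP (PS I J N) := by
  have c1 : ∀ c : Set (PS I J N), IsChain (· ≤ ·) c → ∀ i,
      IsChain (· ≤ ·) ((fun z : PS I J N => z.1.1 i) '' c) := fun c hc i =>
    hc.image_of_map_rel _ _ _ (fun _ _ h => h.1 i)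
  have c2 : ∀ c : Set (PS I J N), IsChain (· ≤ ·) c → ∀ j,
      IsChain (· ≤ ·) ((fun z : PS I J N => z.1.2 j) '' c) := fun c hc j =>
    hc.image_of_map_rel _ _ _ (fun _ _ h => h.2 j)
  refine cfpp_of_contr (cS I J N) N (fun z => Subtype.ext (trR_of_le z.2 le_rfl)) ?_ ?_
  · intro c hc hne
    choose s hs hs' using fun i => chain_max (c1 c hc i) (hne.image _)
    choose t ht ht' using fun j => chain_max (c2 c hc j) (hne.image _)
    refine ⟨⟨(s, t), fun i => ?_, fun j => ?_⟩, fun z hz => ⟨fun i => hs' i _ ⟨z, hz, rfl⟩,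
      fun j => ht' j _ ⟨z, hz, rfl⟩⟩, fun y hy => ⟨fun i => ?_, fun j => ?_⟩⟩
    · obtain ⟨z, -, e⟩ := hs i
      change InC x0 (s i) ∧ nrm (s i).gp ≤ N
      rw [← e]; exact z.2.1 i
    · obtain ⟨z, -, e⟩ := ht j
      change InC f0 (t j) ∧ nrm (t j).gp ≤ N
      rw [← e]; exact z.2.2 j
    · obtain ⟨z, hz, e⟩ := hs i
      exact e.symm.le.trans ((hy hz).1 i)
    · obtain ⟨z, hz, e⟩ := ht j
      exact e.symm.le.trans ((hy hz).2 j)
  · intro c hc hne
    choose s hs hs' using fun i => chain_min (c1 c hc i) (hne.image _)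
    choose t ht ht' using fun j => chain_min (c2 c hc j) (hne.image _)
    refine ⟨⟨(s, t), fun i => ?_, fun j => ?_⟩, fun z hz => ⟨fun i => hs' i _ ⟨z, hz, rfl⟩,
      fun j => ht' j _ ⟨z, hz, rfl⟩⟩, fun y hy => ⟨fun i => ?_, fun j => ?_⟩⟩
    · obtain ⟨z, -, e⟩ := hs i
      change InC x0 (s i) ∧ nrm (s i).gp ≤ N
      rw [← e]; exact z.2.1 i
    · obtain ⟨z, -, e⟩ := ht j
      change InC f0 (t j) ∧ nrm (t j).gp ≤ N
      rw [← e]; exact z.2.2 j
    · obtain ⟨z, hz, e⟩ := hs i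
      exact ((hy hz).1 i).trans e.le
    · obtain ⟨z, hz, e⟩ := ht j
      exact ((hy hz).2 j).trans e.le

variable (D : Dat I J)

/-- The holonomy seen by slot `j`. -/
noncomputable def hol (j : J) (w : I → FG MM) : PV := ulim (D.U j) (fun i => D.ρ (D.τ j) (w i))

theorem hol_spec (j : J) (w : I → FG MM) :
    ∀ᶠ i in (D.U j : Filter I), D.ρ (D.τ j) (w i) = hol D j w := ulim_fin _ _

theorem hol_eq {j : J} {w : I → FG MM} {c : FG MM} (h : ∀ᶠ i in (D.U j : Filter I), w i = c) :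
    hol D j w = D.ρ (D.τ j) c := ulim_eq (h.mono fun i e => by rw [e])

theorem hol_mul (j : J) (w w' : I → FG MM) :
    hol D j (fun i => w i * w' i) = hol D j w * hol D j w' := by
  refine ulim_eq ?_
  filter_upwards [hol_spec D j w, hol_spec D j w'] with i e1 e2
  rw [map_mul, e1, e2]

theorem hol_inv (j : J) (w : I → FG MM) : hol D j (fun i => (w i)⁻¹) = (hol D j w)⁻¹ := by
  refine ulim_eq ?_
  filter_upwards [hol_spec D j w] with i e1
  rw [map_inv, e1]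

theorem hol_one (j : J) : hol D j (fun _ => 1) = 1 := by
  rw [hol_eq D (c := 1) (Filter.Eventually.of_forall fun _ => rfl), map_one]

/-- The covering map. -/
noncomputable def proj (z : Raw I J) : PP D :=
  ⟨fun i => (z.1 i).pt, fun j => hol D j (fun i => (z.1 i).gp) • (z.2 j).pt⟩

theorem proj_mono : Monotone (proj D) := by
  intro z z' h
  refine ⟨fun i => (h.1 i).1, fun j => ?_⟩
  filter_upwards [hol_spec D j (fun i => (z.1 i).gp), hol_spec D j (fun i => (z'.1 i).gp)]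
    with i e1 e2
  change _ • hol D j _ • _ ≤ hol D j _ • _
  rw [← e1, ← e2, (h.1 i).2, map_mul, mul_smul]
  exact smul_mono _ (smul_mono _ (h.2 j).1)

theorem exists_sec : ∃ (N : ℕ) (s : PP D → Raw I J), (∀ z, Bl N (s z) ∧ proj D (s z) = z) ∧
    (∀ x : MM, ∃ g, R x0 x g ∧ nrm g ≤ N) ∧ ∀ x : FF, ∃ g, R f0 x g ∧ nrm g ≤ N := by
  obtain ⟨k, N, hk⟩ := exists_lifts (K := 0) (0 : Fin 4)
  obtain ⟨k', N', hk'⟩ := exists_lifts (K := 6) (0 : Fin 6)
  refine ⟨max N N', fun z => (fun i => ⟨z.m i, k (z.m i)⟩, fun j =>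
    ⟨(hol D j (fun i => k (z.m i)))⁻¹ • z.a j, k' ((hol D j (fun i => k (z.m i)))⁻¹ • z.a j)⟩),
    fun z => ⟨⟨fun i => ⟨(hk _).1, (hk _).2.trans (le_max_left _ _)⟩,
      fun j => ⟨(hk' _).1, (hk' _).2.trans (le_max_right _ _)⟩⟩, ?_⟩,
    fun x => ⟨_, (hk x).1, (hk x).2.trans (le_max_left _ _)⟩,
    fun x => ⟨_, (hk' x).1, (hk' x).2.trans (le_max_right _ _)⟩⟩
  exact PP.ext rfl (funext fun j => smul_inv_smul _ _)

theorem exists_up {N : ℕ} {y : Raw I J} (hy : Bl N y) {z' : PP D} (h : proj D y ≤ z') :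
    ∃ y', Bl (N + 1) y' ∧ y ≤ y' ∧ proj D y' = z' := by
  let w : I → FG MM := fun i => lab (y.1 i).pt (z'.m i) * (y.1 i).gp
  let x : J → FF := fun j => (hol D j w)⁻¹ • z'.a j
  have h1 : ∀ i, y.1 i ≤ ⟨z'.m i, w i⟩ := fun i => ⟨h.1 i, rfl⟩
  have h2 : ∀ j, y.2 j ≤ ⟨x j, lab (y.2 j).pt (x j) * (y.2 j).gp⟩ := by
    intro j
    refine ⟨?_, rfl⟩
    obtain ⟨i, e1, e2, e3⟩ := ((h.2 j).and ((hol_spec D j w).and
      (hol_spec D j (fun i => (y.1 i).gp)))).exists
    have := smul_mono (hol D j w)⁻¹ e1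
    change _ • _ • hol D j _ • _ ≤ x j at this
    rw [← e3, ← mul_smul (D.ρ _ _), ← map_mul] at this
    change _ • D.ρ _ (w i) • _ ≤ _ at this
    rwa [e2, inv_smul_smul] at this
  refine ⟨(fun i => ⟨z'.m i, w i⟩, fun j => ⟨x j, lab (y.2 j).pt (x j) * (y.2 j).gp⟩),
    ⟨fun i => ⟨(hy.1 i).1.of_cmp (Or.inl (h1 i)), ?_⟩,
     fun j => ⟨(hy.2 j).1.of_cmp (Or.inl (h2 j)), ?_⟩⟩, ⟨h1, h2⟩, ?_⟩
  · refine (nrm_mul_le _ _).trans ?_
    have := nrm_lab (y.1 i).pt (z'.m i)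
    have := (hy.1 i).2
    omega
  · refine (nrm_mul_le _ _).trans ?_
    have := nrm_lab (y.2 j).pt (x j)
    have := (hy.2 j).2
    omega
  · exact PP.ext rfl (funext fun j => smul_inv_smul _ _)

/-- Deck transformations of the covering map. -/
structure Gel where
  δ : I → FG MM
  η : J → FG FF
  hδ : ∀ i, R x0 x0 (δ i)
  hη : ∀ j, R f0 ((hol D j δ)⁻¹ • f0) (η j)
  bd : ∃ N, (∀ i, nrm (δ i) ≤ N) ∧ ∀ j, nrm (η j) ≤ N

variable {D}

/-- The action of a deck transformation. -/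
noncomputable def Gel.act (g : Gel D) (z : PH I J) : PH I J :=
  ⟨(fun i => ⟨(z.1.1 i).pt, (z.1.1 i).gp * g.δ i⟩,
    fun j => ⟨(hol D j g.δ)⁻¹ • (z.1.2 j).pt, pm 6 (hol D j g.δ)⁻¹ (z.1.2 j).gp * g.η j⟩), by
    obtain ⟨N, hN⟩ := z.2
    obtain ⟨N', h1, h2⟩ := g.bd
    refine ⟨N + N', fun i => ⟨(g.hδ i).trans (hN.1 i).1, ?_⟩,
      fun j => ⟨(g.hη j).trans (R.pm _ (hN.2 j).1), ?_⟩⟩
    · exact (nrm_mul_le _ _).trans (Nat.add_le_add (hN.1 i).2 (h1 i))
    · exact (nrm_mul_le _ _).trans (Nat.add_le_add ((nrm_fm_le _ _).trans (hN.2 j).2) (h2 j))⟩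

theorem Gel.act_mono (g : Gel D) : Monotone g.act := by
  intro z z' h
  refine ⟨fun i => ⟨(h.1 i).1, ?_⟩, fun j => ⟨smul_mono _ (h.2 j).1, ?_⟩⟩
  · change _ * _ = _ * (_ * _)
    rw [(h.1 i).2, mul_assoc]; rfl
  · change _ * _ = _ * (_ * _)
    rw [(h.2 j).2, map_mul, pm_lab _ (Or.inl (h.2 j).1), mul_assoc]; rfl

theorem Gel.proj_act (g : Gel D) (z : PH I J) : proj D (g.act z).1 = proj D z.1 := by
  refine PP.ext rfl (funext fun j => ?_)
  change hol D j (fun i => _ * _) • _ • _ = _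
  rw [hol_mul, mul_smul, smul_inv_smul]; rfl

theorem Gel.act_congr {g g' : Gel D} (h1 : g.δ = g'.δ) (h2 : g.η = g'.η) : g.act = g'.act := by
  funext z
  unfold Gel.act
  simp only [h1, h2]

/-- The product of deck transformations. -/
noncomputable def Gel.mul (g g' : Gel D) : Gel D where
  δ := fun i => g.δ i * g'.δ i
  η := fun j => pm 6 (hol D j g'.δ)⁻¹ (g.η j) * g'.η j
  hδ i := (g'.hδ i).trans (g.hδ i)
  hη j := by
    rw [hol_mul, mul_inv_rev, mul_smul]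
    exact (g'.hη j).trans (R.pm _ (g.hη j))
  bd := by
    obtain ⟨N, h1, h2⟩ := g.bd
    obtain ⟨N', h1', h2'⟩ := g'.bd
    exact ⟨N + N', fun i => (nrm_mul_le _ _).trans (Nat.add_le_add (h1 i) (h1' i)),
      fun j => (nrm_mul_le _ _).trans (Nat.add_le_add ((nrm_fm_le _ _).trans (h2 j)) (h2' j))⟩

theorem Gel.act_mul (g g' : Gel D) (z : PH I J) : (g.mul g').act z = g'.act (g.act z) := by
  refine Subtype.ext (Prod.ext (funext fun i => Cov.ext rfl ?_) (funext fun j => Cov.ext ?_ ?_))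
  · exact (mul_assoc _ _ _).symm
  · change (hol D j (fun i => _ * _))⁻¹ • _ = _
    rw [hol_mul, mul_inv_rev, mul_smul]; rfl
  · change pm 6 (hol D j (fun i => _ * _))⁻¹ _ * (_ * _) = pm 6 _ (_ * _) * _
    rw [hol_mul, mul_inv_rev, pm_mul, map_mul, mul_assoc]

variable (D) in
/-- Deck transformations of the fibres. -/
def Gel.fib (η : J → FG FF) (h : ∀ j, R f0 f0 (η j)) (bd : ∃ N, ∀ j, nrm (η j) ≤ N) : Gel D where
  δ := fun _ => 1
  η := η
  hδ _ := R.refl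
  hη j := by rw [hol_one, inv_one, one_smul]; exact h j
  bd := bd.imp fun _ h => ⟨fun _ => Nat.zero_le _, h⟩

theorem Gel.act_of_one {g : Gel D} (h : g.δ = fun _ => 1) (z : PH I J) :
    (g.act z).1 = (z.1.1, fun j => ⟨(z.1.2 j).pt, (z.1.2 j).gp * g.η j⟩) := by
  unfold Gel.act
  simp only [h, hol_one, inv_one, one_smul, pm_one, mul_one]

theorem Gel.R_of_one {g : Gel D} (h : g.δ = fun _ => 1) (j : J) : R f0 f0 (g.η j) := by
  have := g.hη j
  rwa [h, hol_one, inv_one, one_smul] at this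

variable (D) in
/-- The identity. -/
def Gel.one : Gel D := Gel.fib D (fun _ => 1) (fun _ => R.refl) ⟨0, fun _ => le_rfl⟩

theorem Gel.act_one (z : PH I J) : (Gel.one D).act z = z := by
  refine Subtype.ext ?_
  rw [Gel.act_of_one rfl]
  simp [Gel.one, Gel.fib]

variable (D) in
theorem exists_gel (δ : I → FG MM) (h : ∀ i, R x0 x0 (δ i)) (bd : ∃ N, ∀ i, nrm (δ i) ≤ N) :
    ∃ g : Gel D, g.δ = δ := by
  obtain ⟨k, N', hk⟩ := exists_lifts (K := 6) (0 : Fin 6)
  obtain ⟨N, hN⟩ := bd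
  exact ⟨⟨δ, fun j => k _, h, fun j => (hk _).1, max N N', fun i => (hN i).trans (le_max_left _ _),
    fun j => (hk _).2.trans (le_max_right _ _)⟩, rfl⟩

theorem Gel.factor {g g' : Gel D} (h : g.δ = g'.δ) :
    ∃ f : Gel D, f.δ = (fun _ => 1) ∧ ∀ z, g'.act z = f.act (g.act z) := by
  have h1 : ∀ j, R f0 f0 ((g.η j)⁻¹ * g'.η j) := fun j => (g'.hη j).trans (h ▸ (g.hη j).symm)
  obtain ⟨N, -, h2⟩ := g.bd
  obtain ⟨N', -, h2'⟩ := g'.bd
  refine ⟨Gel.fib D _ h1 ⟨N + N', fun j => (nrm_mul_le _ _).trans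
    (Nat.add_le_add ((nrm_inv _).le.trans (h2 j)) (h2' j))⟩, rfl, fun z => ?_⟩
  rw [← Gel.act_mul]
  refine congrFun (Gel.act_congr ?_ ?_) z
  · funext i; simp [Gel.mul, Gel.fib, h]
  · funext j; simp [Gel.mul, Gel.fib, hol_one, pm_one]

theorem exists_gel_of_proj {z z' : PH I J} (h : proj D z.1 = proj D z'.1) :
    ∃ g : Gel D, g.act z = z' := by
  obtain ⟨N, hN⟩ := z.2
  obtain ⟨N', hN'⟩ := z'.2
  have e1 : ∀ i, (z.1.1 i).pt = (z'.1.1 i).pt := fun i => congrFun (congrArg PP.m h) i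
  let δ : I → FG MM := fun i => ((z.1.1 i).gp)⁻¹ * (z'.1.1 i).gp
  have e2 : ∀ j, (hol D j δ)⁻¹ • (z.1.2 j).pt = (z'.1.2 j).pt := by
    intro j
    have : hol D j _ • _ = hol D j _ • _ := congrFun (congrArg PP.a h) j
    rw [hol_mul, hol_inv, mul_inv_rev, inv_inv, mul_smul, this, inv_smul_smul]
  refine ⟨⟨δ, fun j => (pm 6 (hol D j δ)⁻¹ (z.1.2 j).gp)⁻¹ * (z'.1.2 j).gp, fun i => ?_, fun j => ?_,
    N + N', fun i => ?_, fun j => ?_⟩, ?_⟩
  · exact R.trans (hN'.1 i).1 (e1 i ▸ R.symm (hN.1 i).1)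
  · exact R.trans (hN'.2 j).1 (e2 j ▸ (R.pm _ (hN.2 j).1).symm)
  · exact (nrm_mul_le _ _).trans (Nat.add_le_add ((nrm_inv _).le.trans (hN.1 i).2) (hN'.1 i).2)
  · exact (nrm_mul_le _ _).trans (Nat.add_le_add
      ((nrm_inv _).le.trans ((nrm_fm_le _ _).trans (hN.2 j).2)) (hN'.2 j).2)
  · refine Subtype.ext (Prod.ext (funext fun i => Cov.ext (e1 i) ?_)
      (funext fun j => Cov.ext (e2 j) ?_))
    · exact mul_inv_cancel_left _ _
    · exact mul_inv_cancel_left _ _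

theorem exists_gel_pow (g : Gel D) (n : ℕ) :
    ∃ g' : Gel D, g'.δ = (fun i => g.δ i ^ n) ∧ ∀ z, g'.act z = g.act^[n] z := by
  induction n with
  | zero => exact ⟨Gel.one D, by funext i; simp [Gel.one, Gel.fib], Gel.act_one⟩
  | succ n ih =>
    obtain ⟨g', h1, h2⟩ := ih
    refine ⟨g'.mul g, ?_, fun z => ?_⟩
    · funext i; simp [Gel.mul, h1, pow_succ]
    · rw [Gel.act_mul, h2, Function.iterate_succ_apply']

open Classical in
/-- The family equal to `c` on `S` and to `d` elsewhere. -/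
noncomputable def ind {X Y : Type} (S : Set X) (c : Y) (d : X → Y) : X → Y :=
  fun x => if x ∈ S then c else d x

theorem ind_mem {X Y : Type} {S : Set X} {c : Y} {d : X → Y} {x : X} (h : x ∈ S) :
    ind S c d x = c := by simp [ind, h]

theorem ind_not {X Y : Type} {S : Set X} {c : Y} {d : X → Y} {x : X} (h : x ∉ S) :
    ind S c d x = d x := by simp [ind, h]

theorem ind_prop {X Y : Type} (S : Set X) {c : Y} {d : X → Y} (Q : Y → Prop) (h1 : Q c)
    (h2 : ∀ x, Q (d x)) (x : X) : Q (ind S c d x) := by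
  by_cases h : x ∈ S
  · rwa [ind_mem h]
  · rw [ind_not h]; exact h2 x

theorem ind_rel {X Y : Type} (S : Set X) {c c' : Y} {d d' : X → Y} (Q : Y → Y → Prop)
    (h1 : Q c c') (h2 : ∀ x, Q (d x) (d' x)) (x : X) : Q (ind S c d x) (ind S c' d' x) := by
  by_cases h : x ∈ S
  · rwa [ind_mem h, ind_mem h]
  · rw [ind_not h, ind_not h]; exact h2 x

/-- Bounded families of loops are generated by triangles on subsets. -/
theorem fam_induction {X V : Type} [DecidableEq V] [Finite V] [Big V] {K : ℕ} (p0 : V)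
    (Q : (X → FG (SG V K)) → Prop) (h1 : Q fun _ => 1)
    (hmul : ∀ δ δ', Q δ → Q δ' → Q fun x => δ x * δ' x)
    (hgen : ∀ S q s, p0 ≠ q → p0 ≠ s → q ≠ s → Q (ind S (tri K p0 q s) fun _ => 1))
    (δ : X → FG (SG V K)) (hδ : ∀ x, R (vx K p0) (vx K p0) (δ x)) (N : ℕ)
    (hN : ∀ x, nrm (δ x) ≤ N) : Q δ := by
  have h2 : ∀ S g, R (vx K p0) (vx K p0) g → Q (ind S g fun _ => 1) := by
    intro S g hg
    refine loop_induction p0 (fun g => Q (ind S g fun _ => 1)) ?_ ?_ hg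
    · convert h1 using 1
      funext x; simp [ind]
    · intro q s g a1 a2 a3 h
      convert hmul _ _ (hgen S q s a1 a2 a3) h using 1
      funext x
      by_cases hx : x ∈ S <;> simp [ind, hx]
  have h3 : ∀ B : Set (FG (SG V K)), B.Finite → ∀ δ : X → FG (SG V K),
      (∀ x, R (vx K p0) (vx K p0) (δ x)) → (∀ x, δ x ∈ B ∨ δ x = 1) → Q δ := by
    intro B hB
    induction B, hB using Set.Finite.induction_on with
    | empty =>
      intro δ _ h
      convert h1 using 1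
      funext x; exact (h x).resolve_left (Set.notMem_empty _)
    | @insert v B _ _ ih =>
      intro δ hδ h
      by_cases hv : ∃ x, δ x = v
      · obtain ⟨x1, hx1⟩ := hv
        have h4 := ih (ind {x | δ x = v} 1 δ) (ind_prop _ (R _ _) R.refl hδ) (fun x => by
          by_cases hx : δ x = v
          · right; exact ind_mem hx
          · rw [ind_not (S := {x | δ x = v}) hx]
            exact (h x).imp (fun h => h.resolve_left hx) id)
        convert hmul _ _ (h2 {x | δ x = v} v (hx1 ▸ hδ x1)) h4 using 1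
        funext x
        by_cases hx : δ x = v <;> simp [ind, hx]
      · exact ih δ hδ fun x => (h x).imp (fun h => h.resolve_left fun e => hv ⟨x, e⟩) id
  exact h3 _ (finite_nrm_le N) δ hδ fun x => Or.inl (hN x)

/-- Overwrite the fibre coordinates in `S`. -/
noncomputable def setF (S : Set J) (u : Cov FF) (hu : InC f0 u) (z : PH I J) : PH I J :=
  ⟨(z.1.1, ind S u z.1.2), by
    obtain ⟨N, hN⟩ := z.2
    have h := hN.mono (le_max_left N (nrm u.gp))
    exact ⟨_, h.1, ind_prop S (fun u' => InC f0 u' ∧ nrm u'.gp ≤ _) ⟨hu, le_max_right _ _⟩ h.2⟩⟩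

/-- Overwrite the base coordinates in `S`. -/
noncomputable def setM (S : Set I) (u : Cov MM) (hu : InC x0 u) (z : PH I J) : PH I J :=
  ⟨(ind S u z.1.1, z.1.2), by
    obtain ⟨N, hN⟩ := z.2
    have h := hN.mono (le_max_left N (nrm u.gp))
    exact ⟨_, ind_prop S (fun u' => InC x0 u' ∧ nrm u'.gp ≤ _) ⟨hu, le_max_right _ _⟩ h.1, h.2⟩⟩

theorem setF_le (S : Set J) {u u' : Cov FF} (hu : InC f0 u) (hu' : InC f0 u') (h : u ≤ u')
    {z z' : PH I J} (hz : z ≤ z') : setF S u hu z ≤ setF S u' hu' z' :=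
  ⟨hz.1, ind_rel S (· ≤ ·) h hz.2⟩

theorem setM_le (S : Set I) {u u' : Cov MM} (hu : InC x0 u) (hu' : InC x0 u') (h : u ≤ u')
    {z z' : PH I J} (hz : z ≤ z') : setM S u hu z ≤ setM S u' hu' z' :=
  ⟨ind_rel S (· ≤ ·) h hz.1, hz.2⟩

end Pool.Agent.Lib.MP_6152be_co.CX
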