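import Pool.Agent.Lib.MP_6152be_co.CX.Data

set_option autoImplicit false

/-! The two factors and the monotone self-map of their product without fixed point. -/

namespace Pool.Agent.Lib.MP_6152be_co.CX

/-- Near slots see one coordinate; far slots see a limit along a shifted free ultrafilter. -/
noncomputable def UU : ℕ ⊕ ℕ → Ultrafilter ℕ
  | Sum.inl d => pure d
  | Sum.inr k => (Filter.hyperfilter ℕ).map (· - k)

/-- The data with near slots of type `t` and far slots of the other type. -/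
noncomputable def dat (t : Bool) (ρ : Bool → FG MM →* PV) : Dat ℕ (ℕ ⊕ ℕ) :=
  ⟨UU, Sum.elim (fun _ => t) (fun _ => !t), ρ⟩

variable {t : Bool} {ρ : Bool → FG MM →* PV}

theorem cfpp_dat (H : Hyp ρ) : CFPP (PP (dat t ρ)) :=
  cfpp_PP (D := dat t ρ) H fun i => ⟨Sum.inl i, rfl⟩

/-- Shift the near slots up and the far slots down, and write `(x, f)` in the first near slot. -/
def shift (x : MM) (f : FF) (z : PP (dat t ρ)) : PP (dat t ρ) where
  m d := Nat.casesOn d x z.m
  a j := match j with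
    | Sum.inl 0 => f
    | Sum.inl (d + 1) => z.a (Sum.inl d)
    | Sum.inr k => z.a (Sum.inr (k + 1))

theorem shift_le {x x' : MM} {f f' : FF} {z z' : PP (dat t ρ)} (hx : x ≤ x')
    (hf : ρ t (lab x x') • f ≤ f') (hz : z ≤ z') : shift x f z ≤ shift x' f' z' := by
  refine ⟨fun d => ?_, fun j => ?_⟩
  · cases d with
    | zero => exact hx
    | succ d => exact hz.1 d
  · rcases j with (_ | d) | k
    · exact Filter.eventually_pure.2 hf
    · exact Filter.eventually_pure.2 (Filter.eventually_pure.1 (hz.2 (Sum.inl d)))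
    · have h1 : ∀ᶠ n in (Filter.hyperfilter ℕ : Filter ℕ), ρ (!t)
          (lab (z.m (n - (k + 1))) (z'.m (n - (k + 1)))) • z.a (Sum.inr (k + 1)) ≤
          z'.a (Sum.inr (k + 1)) := hz.2 (Sum.inr (k + 1))
      have h2 : ∀ᶠ n in (Filter.hyperfilter ℕ : Filter ℕ), k + 1 ≤ n :=
        Nat.hyperfilter_le_atTop (Filter.eventually_ge_atTop (k + 1))
      change ∀ᶠ n in (Filter.hyperfilter ℕ : Filter ℕ), ρ (!t)
          (lab ((shift x f z).m (n - k)) ((shift x' f' z').m (n - k))) • z.a (Sum.inr (k + 1)) ≤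
          z'.a (Sum.inr (k + 1))
      filter_upwards [h1, h2] with n e1 e2
      rw [show n - k = n - (k + 1) + 1 by omega]
      exact e1

/-- The limit of the base coordinates. -/
noncomputable def ex (z : PP (dat t ρ)) : MM := ulim (Filter.hyperfilter ℕ) z.m

theorem ex_le {z z' : PP (dat t ρ)} (h : z ≤ z') :
    ex z ≤ ex z' ∧ ρ (!t) (lab (ex z) (ex z')) • z.a (Sum.inr 0) ≤ z'.a (Sum.inr 0) := by
  have h1 : ∀ᶠ n in (Filter.hyperfilter ℕ : Filter ℕ), ρ (!t)
      (lab (z.m n) (z'.m n)) • z.a (Sum.inr 0) ≤ z'.a (Sum.inr 0) := h.2 (Sum.inr 0)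
  obtain ⟨n, e1, e2, e3⟩ := (h1.and ((ulim_fin _ z.m).and (ulim_fin _ z'.m))).exists
  rw [ex, ex, ← e2, ← e3]
  exact ⟨h.1 n, e1⟩

theorem ex_of_fixed {x : MM} {f : FF} {z : PP (dat t ρ)} (h : shift x f z = z) : ex z = x := by
  refine ulim_eq (Filter.Eventually.of_forall fun n => ?_)
  induction n with
  | zero => exact (congrFun (congrArg PP.m h) 0).symm
  | succ n ih => exact (congrFun (congrArg PP.m h) (n + 1)).symm.trans ih

/-- The first factor. -/
abbrev P1 := PP (dat true fun b => (rhoH (HH b)).comp (pm 0 1))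

/-- The second factor. -/
abbrev Q1 := PP (dat false fun b => (rhoH (HH b)).comp (pm 0 (tQ b)))

/-- The self-map of the product. -/
noncomputable def gmap (w : P1 × Q1) : P1 × Q1 :=
  (shift (nu • ex w.2) (w.2.a (Sum.inr 0)) w.1, shift (ex w.1) (w.1.a (Sum.inr 0)) w.2)

theorem gmap_mono : Monotone gmap := by
  intro w w' h
  obtain ⟨a1, a2⟩ := ex_le h.1
  obtain ⟨b1, b2⟩ := ex_le h.2
  refine ⟨shift_le (smul_mono _ b1) ?_ h.1, shift_le a1 a2 h.2⟩
  rw [← pm_lab _ (Or.inl b1), MonoidHom.comp_apply, pm_one]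
  exact b2

theorem gmap_ne (w : P1 × Q1) : gmap w ≠ w := by
  intro h
  have h1 := ex_of_fixed (congrArg Prod.fst h)
  have h2 := ex_of_fixed (congrArg Prod.snd h)
  rw [h2] at h1
  exact Good.smul_ne (σ := nu) (by unfold Good; decide) _ h1.symm

end Pool.Agent.Lib.MP_6152be_co.CX
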